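import Pool.Agent.Helper552_D4.Defs

set_option autoImplicit false

namespace Pool.Agent.Helper552_D4

open MeasureTheory Set

namespace BOX

/-- The open interval. -/
abbrev J : Set ℝ := Set.Ioo (-(1 / 2) : ℝ) (1 / 2)

/-- The open box. -/
abbrev B : Set (Fin 3 → ℝ) := Set.univ.pi fun _ => Set.Ioo (-(1 / 2) : ℝ) (1 / 2)

/-- The moments of the interval. -/
noncomputable def Im (n : ℕ) : ℝ := ∫ x in J, x ^ n

lemma Im0 : Im 0 = (1 : ℝ) := by
  unfold Im
  rw [← integral_Ioc_eq_integral_Ioo, ← intervalIntegral.integral_of_le (by norm_num), integral_pow]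
  norm_num

lemma Im1 : Im 1 = (0 : ℝ) := by
  unfold Im
  rw [← integral_Ioc_eq_integral_Ioo, ← intervalIntegral.integral_of_le (by norm_num), integral_pow]
  norm_num

lemma Im2 : Im 2 = (1 / 12 : ℝ) := by
  unfold Im
  rw [← integral_Ioc_eq_integral_Ioo, ← intervalIntegral.integral_of_le (by norm_num), integral_pow]
  norm_num

lemma mono_int (k : Fin 3 → ℕ) :
    ∫ t in B, ∏ i, (t i) ^ (k i) = ∏ i, Im (k i) := by
  have h : (volume : Measure (Fin 3 → ℝ)).restrict B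
      = Measure.pi (fun _ : Fin 3 => (volume : Measure ℝ).restrict J) := by
    rw [volume_pi, Measure.restrict_pi_pi]
  rw [h]
  exact integral_fintype_prod_eq_prod (fun i (x : ℝ) => x ^ (k i))

lemma cont_int {φ : (Fin 3 → ℝ) → ℝ} (h : Continuous φ) : IntegrableOn φ B := by
  have h1 : IsCompact (Set.univ.pi fun _ : Fin 3 => Set.Icc (-(1 / 2) : ℝ) (1 / 2)) :=
    isCompact_univ_pi fun _ => isCompact_Icc
  exact (h.continuousOn.integrableOn_compact h1).mono_set
    (Set.pi_mono fun _ _ => Set.Ioo_subset_Icc_self)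

/-- The four basic functions. -/
def ph (t : Fin 3 → ℝ) : Fin 4 → ℝ := ![1, t 0, t 1, t 2]

lemma ph_cont (i : Fin 4) : Continuous fun t => ph t i := by
  fin_cases i <;> simp [ph] <;> fun_prop

lemma gram (i j : Fin 4) :
    ∫ t in B, ph t i * ph t j = if i = j then (if i = 0 then 1 else 1 / 12) else 0 := by
  have key : ∀ k0 k1 k2 : ℕ, (∀ t : Fin 3 → ℝ, ph t i * ph t j
        = (t 0) ^ k0 * (t 1) ^ k1 * (t 2) ^ k2) →
      ∫ t in B, ph t i * ph t j = Im k0 * Im k1 * Im k2 := by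
    intro k0 k1 k2 hk
    have h := mono_int ![k0, k1, k2]
    rw [Fin.prod_univ_three] at h
    rw [show Im k0 * Im k1 * Im k2 = Im (![k0, k1, k2] 0) * Im (![k0, k1, k2] 1)
      * Im (![k0, k1, k2] 2) from rfl, ← h]
    refine integral_congr_ae (Filter.Eventually.of_forall fun t => ?_)
    simp only [Fin.prod_univ_three]
    exact hk t
  fin_cases i <;> fin_cases j
  · rw [key 0 0 0 (fun t => by simp [ph])]
    norm_num [Im0, Im1, Im2]
  · rw [key 1 0 0 (fun t => by simp [ph])]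
    norm_num [Im0, Im1, Im2]
  · rw [key 0 1 0 (fun t => by simp [ph])]
    norm_num [Im0, Im1, Im2]
  · rw [key 0 0 1 (fun t => by simp [ph])]
    norm_num [Im0, Im1, Im2]
  · rw [key 1 0 0 (fun t => by simp [ph])]
    norm_num [Im0, Im1, Im2]
  · rw [key 2 0 0 (fun t => by simp [ph]; ring)]
    norm_num [Im0, Im1, Im2]
  · rw [key 1 1 0 (fun t => by simp [ph])]
    norm_num [Im0, Im1, Im2]
  · rw [key 1 0 1 (fun t => by simp [ph])]
    norm_num [Im0, Im1, Im2]
  · rw [key 0 1 0 (fun t => by simp [ph])]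
    norm_num [Im0, Im1, Im2]
  · rw [key 1 1 0 (fun t => by simp [ph]; ring)]
    norm_num [Im0, Im1, Im2]
  · rw [key 0 2 0 (fun t => by simp [ph]; ring)]
    norm_num [Im0, Im1, Im2]
  · rw [key 0 1 1 (fun t => by simp [ph])]
    norm_num [Im0, Im1, Im2]
  · rw [key 0 0 1 (fun t => by simp [ph])]
    norm_num [Im0, Im1, Im2]
  · rw [key 1 0 1 (fun t => by simp [ph]; ring)]
    norm_num [Im0, Im1, Im2]
  · rw [key 0 1 1 (fun t => by simp [ph]; ring)]
    norm_num [Im0, Im1, Im2]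
  · rw [key 0 0 2 (fun t => by simp [ph]; ring)]
    norm_num [Im0, Im1, Im2]

/-- The integral of the square of an affine form. -/
lemma lin_sq (p q0 q1 q2 : ℝ) :
    ∫ t in B, (p + q0 * t 0 + q1 * t 1 + q2 * t 2) ^ 2 = p ^ 2 + (q0 ^ 2 + q1 ^ 2 + q2 ^ 2) / 12 := by
  have e : ∀ t : Fin 3 → ℝ, (p + q0 * t 0 + q1 * t 1 + q2 * t 2) ^ 2
      = ∑ i : Fin 4, ∑ j : Fin 4,
        ((![p, q0, q1, q2] : Fin 4 → ℝ) i * (![p, q0, q1, q2] : Fin 4 → ℝ) j) * (ph t i * ph t j) := by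
    intro t
    simp [Fin.sum_univ_four, ph]
    ring
  have hi : ∀ i j : Fin 4, Integrable (fun t => ((![p, q0, q1, q2] : Fin 4 → ℝ) i *
      (![p, q0, q1, q2] : Fin 4 → ℝ) j) * (ph t i * ph t j)) (volume.restrict B) := by
    intro i j
    exact (cont_int ((ph_cont i).mul (ph_cont j))).const_mul _
  simp_rw [e]
  rw [integral_finsetSum _ (fun i _ => integrable_finsetSum _ fun j _ => hi i j)]
  simp_rw [integral_finsetSum _ (fun j _ => hi _ j), integral_const_mul, gram]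
  simp [Fin.sum_univ_four]
  ring

lemma sum6 {μ : Measure (Fin 3 → ℝ)} {F1 F2 F3 F4 F5 F6 : (Fin 3 → ℝ) → ℝ} (h1 : Integrable F1 μ)
    (h2 : Integrable F2 μ) (h3 : Integrable F3 μ) (h4 : Integrable F4 μ) (h5 : Integrable F5 μ)
    (h6 : Integrable F6 μ) :
    ∫ t, (F1 t + (F2 t + (F3 t + (F4 t + (F5 t + F6 t))))) ∂μ
      = ∫ t, F1 t ∂μ + (∫ t, F2 t ∂μ + (∫ t, F3 t ∂μ + (∫ t, F4 t ∂μ + (∫ t, F5 t ∂μ + ∫ t, F6 t ∂μ)))) := by
  have k5 : Integrable (fun t => F5 t + F6 t) μ := h5.add h6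
  have k4 : Integrable (fun t => F4 t + (F5 t + F6 t)) μ := h4.add k5
  have k3 : Integrable (fun t => F3 t + (F4 t + (F5 t + F6 t))) μ := h3.add k4
  have k2 : Integrable (fun t => F2 t + (F3 t + (F4 t + (F5 t + F6 t)))) μ := h2.add k3
  rw [integral_add h1 k2, integral_add h2 k3, integral_add h3 k4, integral_add h4 k5,
    integral_add h5 h6]

end BOX

open BOX in
/-- TARGET -/
theorem box_int (a b c d e f : ℝ) (M : Matrix (Fin 3) (Fin 3) ℝ) (u : Fin 3 → ℝ) :
    ∫ z in (fun t : Fin 3 → ℝ => u + M.mulVec t) ''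
        (Set.univ.pi fun _ => Set.Ioo (-(1 / 2) : ℝ) (1 / 2)),
      K3 a b c d e f (z 0) (z 1) (z 2)
      = |M.det| * (K3 a b c d e f (u 0) (u 1) (u 2)
        + (1 / 12) * ∑ j : Fin 3, K3 a b c d e f (M 0 j) (M 1 j) (M 2 j)) := by
  set L : (Fin 3 → ℝ) →L[ℝ] (Fin 3 → ℝ) := LinearMap.toContinuousLinearMap (Matrix.toLin' M)
    with hL
  have hdet : L.det = M.det := by
    rw [hL]
    simp
  have hfd : ∀ x ∈ B, HasFDerivWithinAt (fun t : Fin 3 → ℝ => u + M.mulVec t) L B x := by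
    intro x _
    have h1 : HasFDerivAt (fun t : Fin 3 → ℝ => u + L t) L x := L.hasFDerivAt.const_add u
    exact h1.hasFDerivWithinAt
  have hms : MeasurableSet B := MeasurableSet.univ_pi fun _ => measurableSet_Ioo
  by_cases h0 : M.det = 0
  · have hz : volume ((fun t : Fin 3 → ℝ => u + M.mulVec t) '' B) = 0 :=
      addHaar_image_eq_zero_of_det_fderivWithin_eq_zero volume hfd (fun x _ => by rw [hdet, h0])
    rw [Measure.restrict_eq_zero.2 hz, integral_zero_measure, h0]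
    simp
  · have hinj : InjOn (fun t : Fin 3 → ℝ => u + M.mulVec t) B := by
      intro x _ y _ hxy
      have h1 : M.mulVec x = M.mulVec y := add_left_cancel hxy
      exact Matrix.mulVec_injective_of_isUnit ((Matrix.isUnit_iff_isUnit_det M).2 (isUnit_iff_ne_zero.2 h0)) h1
    rw [integral_image_eq_integral_abs_det_fderiv_smul volume hms hfd hinj, hdet]
    simp_rw [smul_eq_mul, integral_const_mul]
    congr 1
    have hz : ∀ (i : Fin 3) (t : Fin 3 → ℝ),
        (u + M.mulVec t) i = u i + M i 0 * t 0 + M i 1 * t 1 + M i 2 * t 2 := by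
      intro i t
      simp [Matrix.mulVec, dotProduct, Fin.sum_univ_three]
      ring
    have e : ∀ t : Fin 3 → ℝ,
        K3 a b c d e f ((u + M.mulVec t) 0) ((u + M.mulVec t) 1) ((u + M.mulVec t) 2)
        = a * ((u 0 - u 1) + (M 0 0 - M 1 0) * t 0 + (M 0 1 - M 1 1) * t 1 + (M 0 2 - M 1 2) * t 2) ^ 2
        + (b * ((u 0 - u 2) + (M 0 0 - M 2 0) * t 0 + (M 0 1 - M 2 1) * t 1 + (M 0 2 - M 2 2) * t 2) ^ 2
        + (c * (u 0 + M 0 0 * t 0 + M 0 1 * t 1 + M 0 2 * t 2) ^ 2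
        + (d * ((u 1 - u 2) + (M 1 0 - M 2 0) * t 0 + (M 1 1 - M 2 1) * t 1 + (M 1 2 - M 2 2) * t 2) ^ 2
        + (e * (u 1 + M 1 0 * t 0 + M 1 1 * t 1 + M 1 2 * t 2) ^ 2
        + f * (u 2 + M 2 0 * t 0 + M 2 1 * t 1 + M 2 2 * t 2) ^ 2)))) := by
      intro t
      rw [hz, hz, hz]
      unfold K3
      ring
    have hii : ∀ (k p q0 q1 q2 : ℝ), Integrable
        (fun t : Fin 3 → ℝ => k * (p + q0 * t 0 + q1 * t 1 + q2 * t 2) ^ 2) (volume.restrict B) := by
      intro k p q0 q1 q2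
      exact cont_int (by fun_prop)
    rw [integral_congr_ae (Filter.Eventually.of_forall e),
      sum6 (hii _ _ _ _ _) (hii _ _ _ _ _) (hii _ _ _ _ _) (hii _ _ _ _ _) (hii _ _ _ _ _)
        (hii _ _ _ _ _)]
    simp_rw [integral_const_mul, lin_sq]
    simp only [Fin.sum_univ_three, K3]
    ring

end Pool.Agent.Helper552_D4
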