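import Pool.Agent.Helper552_D4.Defs

/-!
# D4Q COORD: second moment of the Voronoi cell in coordinates (proofs by helper322)
-/

set_option autoImplicit false

namespace Pool.Agent.Helper552_D4

open MeasureTheory Set

namespace COORD

/-- The squared distance to the lattice. -/
noncomputable def G (L : Submodule ℤ E4) (x : E4) : ℝ := (Metric.infDist x (L : Set E4)) ^ 2

/-- The Dirichlet-Voronoi cell. -/
def V (L : Submodule ℤ E4) : Set E4 := {x : E4 | ∀ v ∈ L, ‖x‖ ≤ ‖x - v‖}

theorem G_continuous (L : Submodule ℤ E4) : Continuous (G L) :=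
  (Metric.continuous_infDist_pt _).pow 2

theorem G_periodic (L : Submodule ℤ E4) (v : L) (x : E4) : G L (v +ᵥ x) = G L x := by
  have hle : ∀ (v : L) (x : E4), Metric.infDist (v +ᵥ x) (L : Set E4) ≤
      Metric.infDist x (L : Set E4) := by
    intro v x
    rw [Metric.le_infDist ⟨0, L.zero_mem⟩]
    intro y hy
    have h1 : (v : E4) + y ∈ (L : Set E4) := L.add_mem v.2 hy
    refine (Metric.infDist_le_dist_of_mem h1).trans (le_of_eq ?_)
    change dist ((v : E4) + x) ((v : E4) + y) = _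
    rw [dist_add_left]
  have h2 : Metric.infDist (v +ᵥ x) (L : Set E4) = Metric.infDist x (L : Set E4) := by
    refine le_antisymm (hle v x) ?_
    have h3 := hle (-v) (v +ᵥ x)
    rwa [neg_vadd_vadd] at h3
  unfold G
  rw [h2]

theorem G_on_V (L : Submodule ℤ E4) {x : E4} (hx : x ∈ V L) : G L x = ‖x‖ ^ 2 := by
  have h : Metric.infDist x (L : Set E4) = ‖x‖ := by
    apply le_antisymm
    · have := Metric.infDist_le_dist_of_mem (x := x) (s := (L : Set E4)) L.zero_mem
      rwa [dist_zero_right] at this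
    · rw [Metric.le_infDist ⟨0, L.zero_mem⟩]
      intro y hy
      rw [dist_eq_norm]
      exact hx y hy
  unfold G
  rw [h]

theorem V_closed (L : Submodule ℤ E4) : IsClosed (V L) := by
  have : V L = ⋂ v ∈ (L : Set E4), {x : E4 | ‖x‖ ≤ ‖x - v‖} := by
    ext x
    simp [V]
  rw [this]
  refine isClosed_biInter fun v _ => ?_
  exact isClosed_le continuous_norm (continuous_id.sub continuous_const).norm

open scoped Pointwise in
theorem V_disj (L : Submodule ℤ E4) : Pairwise (Function.onFun (AEDisjoint (volume : Measure E4))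
    (fun g : L => g +ᵥ V L)) := by
  intro g g' hne
  have hne' : (g : E4) ≠ (g' : E4) := fun h => hne (Subtype.ext h)
  have hsub : (g +ᵥ V L) ∩ (g' +ᵥ V L) ⊆
      (AffineSubspace.perpBisector (g : E4) (g' : E4) : Set E4) := by
    rintro x ⟨h1, h2⟩
    rw [Set.mem_vadd_set_iff_neg_vadd_mem] at h1 h2
    have e1 : ((-g : L) +ᵥ x : E4) = x - g := by
      change ((-g : L) : E4) + x = _
      rw [Submodule.coe_neg]
      abel
    have e2 : ((-g' : L) +ᵥ x : E4) = x - g' := by
      change ((-g' : L) : E4) + x = _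
      rw [Submodule.coe_neg]
      abel
    rw [e1] at h1
    rw [e2] at h2
    have a1 := h1 (g' - g) (L.sub_mem g'.2 g.2)
    have a2 := h2 (g - g') (L.sub_mem g.2 g'.2)
    have b1 : x - (g : E4) - ((g' : E4) - g) = x - g' := by abel
    have b2 : x - (g' : E4) - ((g : E4) - g') = x - g := by abel
    rw [b1] at a1
    rw [b2] at a2
    change x ∈ AffineSubspace.perpBisector (g : E4) (g' : E4)
    rw [AffineSubspace.mem_perpBisector_iff_dist_eq, dist_eq_norm, dist_eq_norm]
    exact le_antisymm a1 a2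
  refine measure_mono_null hsub (Measure.addHaar_affineSubspace _ _ ?_)
  rw [Ne, AffineSubspace.perpBisector_eq_top]
  exact hne'

theorem V_fund (b : Module.Basis (Fin 4) ℝ E4) :
    IsAddFundamentalDomain (Submodule.span ℤ (Set.range b))
      (V (Submodule.span ℤ (Set.range b))) (volume : Measure E4) := by
  set L := Submodule.span ℤ (Set.range b) with hL
  refine ⟨(V_closed L).measurableSet.nullMeasurableSet, Filter.Eventually.of_forall fun x => ?_,
    V_disj L⟩
  have hclosed : IsClosed (L : Set E4) := by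
    have : IsClosed (L.toAddSubgroup : Set E4) := AddSubgroup.isClosed_of_discrete
    exact this
  obtain ⟨v, hv, hd⟩ := hclosed.exists_infDist_eq_dist ⟨0, L.zero_mem⟩ x
  refine ⟨-⟨v, hv⟩, ?_⟩
  have e1 : ((-⟨v, hv⟩ : L) +ᵥ x : E4) = x - v := by
    change ((-⟨v, hv⟩ : L) : E4) + x = _
    rw [Submodule.coe_neg]
    abel
  rw [e1]
  intro w hw
  have h1 : v + w ∈ (L : Set E4) := L.add_mem hv hw
  have h2 := Metric.infDist_le_dist_of_mem (x := x) h1
  rw [hd, dist_eq_norm, dist_eq_norm, ← sub_sub] at h2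
  exact h2

/-- The second moment as an integral over the parallelepiped. -/
theorem I2_eq (b : Module.Basis (Fin 4) ℝ E4) :
    I2 (Submodule.span ℤ (Set.range b)) =
      ∫ x in ZSpan.fundamentalDomain b, G (Submodule.span ℤ (Set.range b)) x := by
  set L := Submodule.span ℤ (Set.range b) with hL
  have h1 : I2 L = ∫ x in V L, G L x := by
    unfold I2
    refine (setIntegral_congr_fun (V_closed L).measurableSet fun x hx => ?_).symm
    exact G_on_V L hx
  rw [h1]
  have : MeasurableVAdd L E4 := (inferInstance : MeasurableVAdd L.toAddSubgroup E4)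
  have : VAddInvariantMeasure L E4 volume :=
    (inferInstance : VAddInvariantMeasure L.toAddSubgroup E4 volume)
  exact (V_fund b).setIntegral_eq (ZSpan.isAddFundamentalDomain b volume) (G_periodic L)

/-- The linear coordinates preserve the volume. -/
theorem map_volume (b : Module.Basis (Fin 4) ℝ E4)
    (hcov : ZLattice.covolume (Submodule.span ℤ (Set.range b)) = 1) :
    MeasurePreserving (b.equivFunL.symm : (Fin 4 → ℝ) → E4) volume volume := by
  refine ⟨b.equivFunL.symm.continuous.measurable, ?_⟩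
  have h1 : (volume : Measure (Fin 4 → ℝ)) = (Pi.basisFun ℝ (Fin 4)).addHaar := by
    rw [Module.Basis.addHaar_def, Module.Basis.parallelepiped_basisFun,
      addHaarMeasure_eq_volume_pi]
  have h2 : (volume : Measure E4) (ZSpan.fundamentalDomain b) = 1 := by
    have := ZLattice.covolume_eq_measure_fundamentalDomain
      (Submodule.span ℤ (Set.range b)) (volume : Measure E4)
      (ZSpan.isAddFundamentalDomain b volume)
    rw [hcov] at this
    have h3 := this.symm
    rw [Measure.real, ENNReal.toReal_eq_one_iff] at h3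
    exact h3
  have h3 : b.addHaar = (volume : Measure E4) := by
    rw [Module.Basis.addHaar_eq_iff, Module.Basis.coe_parallelepiped, ← h2]
    exact (measure_congr (ZSpan.fundamentalDomain_ae_parallelepiped b volume)).symm
  rw [h1, ← h3]
  have h4 := Module.Basis.map_addHaar (Pi.basisFun ℝ (Fin 4)) b.equivFunL.symm
  rw [h4]
  congr 1
  refine Module.Basis.eq_of_apply_eq fun i => ?_
  have e : (b.equivFunL.symm (Pi.single i 1 : Fin 4 → ℝ) : E4) =
      b.equivFun.symm (Pi.single i 1) := rfl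
  have e2 : ((Pi.basisFun ℝ (Fin 4)).map b.equivFunL.symm.toLinearEquiv) i =
      b.equivFunL.symm (Pi.single i 1 : Fin 4 → ℝ) := by
    rw [Module.Basis.map_apply, Pi.basisFun_apply]
    rfl
  rw [e2, e, b.equivFun_symm_apply]
  simp [Pi.single_apply, ite_smul]

/-- The point with coordinates `t` and `z`. -/
noncomputable def pt (b : Module.Basis (Fin 4) ℝ E4) (t : ℝ) (z : Fin 3 → ℝ) : E4 :=
  t • b 0 + z 0 • b 1 + z 1 • b 2 + z 2 • b 3

theorem pt_continuous (b : Module.Basis (Fin 4) ℝ E4) :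
    Continuous (fun p : ℝ × (Fin 3 → ℝ) => pt b p.1 p.2) := by
  unfold pt
  fun_prop

/-- The integral in coordinates. -/
theorem integral_coord (b : Module.Basis (Fin 4) ℝ E4)
    (hcov : ZLattice.covolume (Submodule.span ℤ (Set.range b)) = 1) (g : E4 → ℝ)
    (hg : Continuous g) :
    ∫ x in ZSpan.fundamentalDomain b, g x =
      ∫ t in Set.Ico (0 : ℝ) 1, ∫ z in cube3, g (pt b t z) := by
  have h1 := (map_volume b hcov).setIntegral_preimage_emb
    b.equivFunL.symm.toHomeomorph.measurableEmbedding g (ZSpan.fundamentalDomain b)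
  have h2 : (b.equivFunL.symm : (Fin 4 → ℝ) → E4) ⁻¹' (ZSpan.fundamentalDomain b) =
      Set.univ.pi fun _ => Set.Ico (0 : ℝ) 1 := by
    ext s
    rw [Set.mem_preimage, ZSpan.mem_fundamentalDomain, Set.mem_univ_pi]
    refine forall_congr' fun i => ?_
    have : b.repr (b.equivFunL.symm s) i = s i := by
      have := congrFun (b.equivFun.apply_symm_apply s) i
      exact this
    rw [this]
  rw [h2] at h1
  rw [← h1]
  have h3 := (volume_preserving_piFinSuccAbove (fun _ : Fin 4 => ℝ) 0).setIntegral_preimage_emb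
    (MeasurableEquiv.piFinSuccAbove (fun _ : Fin 4 => ℝ) 0).measurableEmbedding
    (fun p : ℝ × (Fin 3 → ℝ) => g (pt b p.1 p.2)) (Set.Ico (0 : ℝ) 1 ×ˢ cube3)
  have h4 : (MeasurableEquiv.piFinSuccAbove (fun _ : Fin 4 => ℝ) 0) ⁻¹'
      (Set.Ico (0 : ℝ) 1 ×ˢ cube3) = Set.univ.pi fun _ => Set.Ico (0 : ℝ) 1 := by
    ext s
    rw [Set.mem_preimage, Set.mem_prod, Set.mem_univ_pi, Fin.forall_fin_succ]
    unfold cube3
    rw [Set.mem_univ_pi]
    rfl
  rw [h4] at h3
  have h5 : ∫ s in (Set.univ.pi fun _ : Fin 4 => Set.Ico (0 : ℝ) 1), g (b.equivFunL.symm s) =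
      ∫ p in Set.Ico (0 : ℝ) 1 ×ˢ cube3, g (pt b p.1 p.2) := by
    rw [← h3]
    refine integral_congr_ae (Filter.Eventually.of_forall fun s => ?_)
    have : b.equivFunL.symm s = pt b (s 0) (fun i => s i.succ) := by
      have e : b.equivFunL.symm s = b.equivFun.symm s := rfl
      rw [e, b.equivFun_symm_apply, Fin.sum_univ_four]
      rfl
    change g (b.equivFunL.symm s) = g (pt b (s 0) (fun i => s i.succ))
    rw [this]
  rw [h5]
  have hint : IntegrableOn (fun p : ℝ × (Fin 3 → ℝ) => g (pt b p.1 p.2))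
      (Set.Ico (0 : ℝ) 1 ×ˢ cube3) (volume.prod volume) := by
    have hc : Continuous (fun p : ℝ × (Fin 3 → ℝ) => g (pt b p.1 p.2)) :=
      hg.comp (pt_continuous b)
    have hk : IsCompact (Set.Icc (0 : ℝ) 1 ×ˢ (Set.univ.pi fun _ : Fin 3 => Set.Icc (0 : ℝ) 1)) :=
      isCompact_Icc.prod (isCompact_univ_pi fun _ => isCompact_Icc)
    refine (hc.continuousOn.integrableOn_compact hk).mono_set ?_
    refine Set.prod_mono Set.Ico_subset_Icc_self ?_
    exact Set.pi_mono fun _ _ => Set.Ico_subset_Icc_self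
  exact setIntegral_prod _ hint

/-- The squared distance in coordinates. -/
theorem G_pt (b : Module.Basis (Fin 4) ℝ E4) (p : E4) (k1 k2 k3 k4 k5 k6 : ℝ)
    (τ : Fin 3 → ℝ) (δ : ℝ) (hF : Frame b p k1 k2 k3 k4 k5 k6 τ δ) (t : ℝ) (z : Fin 3 → ℝ) :
    G (Submodule.span ℤ (Set.range b)) (pt b t z) =
      ⨅ j : ℤ, (δ * (t - j) ^ 2 + f3 k1 k2 k3 k4 k5 k6 (z + (t - j) • τ)) := by
  set L := Submodule.span ℤ (Set.range b) with hL
  have hK : ∀ x y w : ℝ, 0 ≤ K3 k1 k2 k3 k4 k5 k6 x y w := by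
    intro x y w
    have := hF.h1
    have := hF.h2
    have := hF.h3
    have := hF.h4
    have := hF.h5
    have := hF.h6
    unfold K3
    positivity
  have hf : ∀ y : Fin 3 → ℝ, 0 ≤ f3 k1 k2 k3 k4 k5 k6 y :=
    fun y => Real.iInf_nonneg fun n => hK _ _ _
  have hδ := hF.hδ
  -- the lattice vector with coordinates `j`, `n`
  have hmem : ∀ (j : ℤ) (n : Fin 3 → ℤ), pt b j (fun i => (n i : ℝ)) ∈ (L : Set E4) := by
    intro j n
    have hb : ∀ (m : ℤ) (i : Fin 4), (m : ℝ) • b i ∈ L := by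
      intro m i
      rw [Int.cast_smul_eq_zsmul]
      exact L.smul_mem m (Submodule.subset_span ⟨i, rfl⟩)
    exact L.add_mem (L.add_mem (L.add_mem (hb _ _) (hb _ _)) (hb _ _)) (hb _ _)
  have hdist : ∀ (j : ℤ) (n : Fin 3 → ℤ), dist (pt b t z) (pt b j (fun i => (n i : ℝ))) ^ 2 =
      δ * (t - j) ^ 2 + K3 k1 k2 k3 k4 k5 k6 ((z + (t - j) • τ) 0 - n 0)
        ((z + (t - j) • τ) 1 - n 1) ((z + (t - j) • τ) 2 - n 2) := by
    intro j n
    have h1 : pt b t z - pt b j (fun i => (n i : ℝ)) =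
        (t - j) • b 0 + (z 0 - n 0) • b 1 + (z 1 - n 1) • b 2 + (z 2 - n 2) • b 3 := by
      unfold pt
      module
    rw [dist_eq_norm, h1]
    have h2 := hF.gram (t - j) (fun i => z i - n i)
    rw [h2, add_comm]
    congr 1
    congr 1 <;> simp only [Pi.add_apply, Pi.smul_apply, smul_eq_mul] <;> ring
  have hsurj : ∀ v ∈ (L : Set E4), ∃ (j : ℤ) (n : Fin 3 → ℤ), v = pt b j (fun i => (n i : ℝ)) := by
    intro v hv
    have h1 := (b.mem_span_iff_repr_mem ℤ v).1 hv
    choose c hc using h1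
    refine ⟨c 0, fun i => c i.succ, ?_⟩
    rw [← b.sum_repr v, Fin.sum_univ_four, ← hc 0, ← hc 1, ← hc 2, ← hc 3]
    rfl
  have hbdd1 : BddBelow (Set.range fun j : ℤ =>
      (δ * (t - j) ^ 2 + f3 k1 k2 k3 k4 k5 k6 (z + (t - j) • τ))) := by
    refine ⟨0, ?_⟩
    rintro _ ⟨j, rfl⟩
    have := hf (z + (t - j) • τ)
    positivity
  have hbdd2 : ∀ y : Fin 3 → ℝ, BddBelow (Set.range fun n : Fin 3 → ℤ =>
      K3 k1 k2 k3 k4 k5 k6 (y 0 - n 0) (y 1 - n 1) (y 2 - n 2)) := by
    intro y
    refine ⟨0, ?_⟩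
    rintro _ ⟨n, rfl⟩
    exact hK _ _ _
  apply le_antisymm
  · refine le_ciInf fun j => ?_
    have h1 : G L (pt b t z) - δ * (t - j) ^ 2 ≤ f3 k1 k2 k3 k4 k5 k6 (z + (t - j) • τ) := by
      unfold f3
      refine le_ciInf fun n => ?_
      have h2 := Metric.infDist_le_dist_of_mem (x := pt b t z) (hmem j n)
      have h3 : G L (pt b t z) ≤ dist (pt b t z) (pt b j (fun i => (n i : ℝ))) ^ 2 :=
        pow_le_pow_left₀ Metric.infDist_nonneg h2 2
      rw [hdist] at h3
      linarith
    linarith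
  · have hclosed : IsClosed (L : Set E4) := by
      have : IsClosed (L.toAddSubgroup : Set E4) := AddSubgroup.isClosed_of_discrete
      exact this
    obtain ⟨v, hv, hd⟩ := hclosed.exists_infDist_eq_dist ⟨0, L.zero_mem⟩ (pt b t z)
    obtain ⟨j, n, rfl⟩ := hsurj v hv
    have h1 : G L (pt b t z) = dist (pt b t z) (pt b j (fun i => (n i : ℝ))) ^ 2 := by
      unfold G
      rw [hd]
    rw [h1, hdist]
    refine (ciInf_le hbdd1 j).trans ?_
    have h2 := ciInf_le (hbdd2 (z + (t - j) • τ)) n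
    unfold f3
    linarith

end COORD

open COORD in
/-- TARGET -/
theorem I2_coord (b : Module.Basis (Fin 4) ℝ E4) (p : E4) (k1 k2 k3 k4 k5 k6 : ℝ)
    (τ : Fin 3 → ℝ) (δ : ℝ) (hF : Frame b p k1 k2 k3 k4 k5 k6 τ δ)
    (hcov : ZLattice.covolume (Submodule.span ℤ (Set.range b)) = 1) :
    I2 (Submodule.span ℤ (Set.range b)) = F4 (f3 k1 k2 k3 k4 k5 k6) τ δ := by
  rw [I2_eq, integral_coord b hcov _ (G_continuous _)]
  unfold F4
  simp only [G_pt b p k1 k2 k3 k4 k5 k6 τ δ hF]

end Pool.Agent.Helper552_D4
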