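import Pool.Agent.Helper552_D4.Defs

set_option autoImplicit false

namespace Pool.Agent.Helper552_D4

open MeasureTheory Set

namespace COVOL

/-- The covolume is the absolute value of a determinant. -/
theorem covol_det (b : Module.Basis (Fin 4) ℝ E4) :
    ZLattice.covolume (Submodule.span ℤ (Set.range b)) =
      |(EuclideanSpace.basisFun (Fin 4) ℝ).toBasis.det b| := by
  have h0 : (volume : Measure E4).real
      (ZSpan.fundamentalDomain (EuclideanSpace.basisFun (Fin 4) ℝ).toBasis) = 1 := by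
    rw [measureReal_congr (ZSpan.fundamentalDomain_ae_parallelepiped _ volume),
      OrthonormalBasis.coe_toBasis, measureReal_def, OrthonormalBasis.volume_parallelepiped]
    rfl
  rw [ZLattice.covolume_eq_measure_fundamentalDomain _ volume (ZSpan.isAddFundamentalDomain b volume),
    ZSpan.measureReal_fundamentalDomain b volume (EuclideanSpace.basisFun (Fin 4) ℝ).toBasis, h0,
    mul_one]

/-- The square of the determinant is the Gram determinant. -/
theorem det_sq (b : Module.Basis (Fin 4) ℝ E4) :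
    ((EuclideanSpace.basisFun (Fin 4) ℝ).toBasis.det b) ^ 2 =
      (Matrix.of fun i j : Fin 4 => (inner ℝ (b i) (b j) : ℝ)).det := by
  have h : (Matrix.of fun i j : Fin 4 => (inner ℝ (b i) (b j) : ℝ)) =
      ((EuclideanSpace.basisFun (Fin 4) ℝ).toBasis.toMatrix b).transpose *
        (EuclideanSpace.basisFun (Fin 4) ℝ).toBasis.toMatrix b := by
    ext i j
    simp only [Matrix.of_apply, Matrix.mul_apply, Matrix.transpose_apply,
      Module.Basis.toMatrix_apply, OrthonormalBasis.coe_toBasis_repr_apply,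
      EuclideanSpace.basisFun_repr, PiLp.inner_apply, RCLike.inner_apply, conj_trivial]
    exact Finset.sum_congr rfl fun k _ => mul_comm _ _
  rw [h, Matrix.det_mul, Matrix.det_transpose, Module.Basis.det_apply, sq]

theorem det4 (a0 a1 a2 a3 b0 b1 b2 b3 c0 c1 c2 c3 d0 d1 d2 d3 : ℝ) :
    (!![a0, a1, a2, a3; b0, b1, b2, b3; c0, c1, c2, c3; d0, d1, d2, d3] :
      Matrix (Fin 4) (Fin 4) ℝ).det =
      a0 * (b1 * (c2 * d3 - c3 * d2) - b2 * (c1 * d3 - c3 * d1) + b3 * (c1 * d2 - c2 * d1)) -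
      a1 * (b0 * (c2 * d3 - c3 * d2) - b2 * (c0 * d3 - c3 * d0) + b3 * (c0 * d2 - c2 * d0)) +
      a2 * (b0 * (c1 * d3 - c3 * d1) - b1 * (c0 * d3 - c3 * d0) + b3 * (c0 * d1 - c1 * d0)) -
      a3 * (b0 * (c1 * d2 - c2 * d1) - b1 * (c0 * d2 - c2 * d0) + b2 * (c0 * d1 - c1 * d0)) := by
  simp [Matrix.det_succ_row_zero, Fin.sum_univ_succ, Fin.succAbove]
  ring

theorem polar (x y : E4) : (inner ℝ x y : ℝ) = (‖x + y‖ ^ 2 - ‖x‖ ^ 2 - ‖y‖ ^ 2) / 2 := by
  rw [@norm_add_sq_real]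
  ring

end COVOL

/-- TARGET -/
theorem covol_gram (b : Module.Basis (Fin 4) ℝ E4) (p : E4) (k1 k2 k3 k4 k5 k6 : ℝ)
    (τ : Fin 3 → ℝ) (δ : ℝ) (hF : Frame b p k1 k2 k3 k4 k5 k6 τ δ) :
    (ZLattice.covolume (Submodule.span ℤ (Set.range b))) ^ 2 = DD k1 k2 k3 k4 k5 k6 * δ := by
  rw [COVOL.covol_det, sq_abs, COVOL.det_sq]
  have g := hF.gram
  have n : ∀ t x y z : ℝ, ‖t • b 0 + x • b 1 + y • b 2 + z • b 3‖ ^ 2 =
      K3 k1 k2 k3 k4 k5 k6 (x + t * τ 0) (y + t * τ 1) (z + t * τ 2) + δ * t ^ 2 := by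
    intro t x y z
    exact g t ![x, y, z]
  have n0 := n 1 0 0 0
  have n1 := n 0 1 0 0
  have n2 := n 0 0 1 0
  have n3 := n 0 0 0 1
  have n01 := n 1 1 0 0
  have n02 := n 1 0 1 0
  have n03 := n 1 0 0 1
  have n12 := n 0 1 1 0
  have n13 := n 0 1 0 1
  have n23 := n 0 0 1 1
  simp only [one_smul, zero_smul, add_zero, zero_add] at n0 n1 n2 n3 n01 n02 n03 n12 n13 n23
  have i00 : (inner ℝ (b 0) (b 0) : ℝ) = _ := (real_inner_self_eq_norm_sq (b 0)).trans n0
  have i11 : (inner ℝ (b 1) (b 1) : ℝ) = _ := (real_inner_self_eq_norm_sq (b 1)).trans n1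
  have i22 : (inner ℝ (b 2) (b 2) : ℝ) = _ := (real_inner_self_eq_norm_sq (b 2)).trans n2
  have i33 : (inner ℝ (b 3) (b 3) : ℝ) = _ := (real_inner_self_eq_norm_sq (b 3)).trans n3
  have i01 := COVOL.polar (b 0) (b 1)
  have i02 := COVOL.polar (b 0) (b 2)
  have i03 := COVOL.polar (b 0) (b 3)
  have i12 := COVOL.polar (b 1) (b 2)
  have i13 := COVOL.polar (b 1) (b 3)
  have i23 := COVOL.polar (b 2) (b 3)
  rw [n01, n0, n1] at i01
  rw [n02, n0, n2] at i02
  rw [n03, n0, n3] at i03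
  rw [n12, n1, n2] at i12
  rw [n13, n1, n3] at i13
  rw [n23, n2, n3] at i23
  have i10 := (real_inner_comm (b 0) (b 1)).trans i01
  have i20 := (real_inner_comm (b 0) (b 2)).trans i02
  have i30 := (real_inner_comm (b 0) (b 3)).trans i03
  have i21 := (real_inner_comm (b 1) (b 2)).trans i12
  have i31 := (real_inner_comm (b 1) (b 3)).trans i13
  have i32 := (real_inner_comm (b 2) (b 3)).trans i23
  have hM : (Matrix.of fun i j : Fin 4 => (inner ℝ (b i) (b j) : ℝ)) =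
      !![inner ℝ (b 0) (b 0), inner ℝ (b 0) (b 1), inner ℝ (b 0) (b 2), inner ℝ (b 0) (b 3);
        inner ℝ (b 1) (b 0), inner ℝ (b 1) (b 1), inner ℝ (b 1) (b 2), inner ℝ (b 1) (b 3);
        inner ℝ (b 2) (b 0), inner ℝ (b 2) (b 1), inner ℝ (b 2) (b 2), inner ℝ (b 2) (b 3);
        inner ℝ (b 3) (b 0), inner ℝ (b 3) (b 1), inner ℝ (b 3) (b 2), inner ℝ (b 3) (b 3)] := by
    ext i j
    fin_cases i <;> fin_cases j <;> rfl
  rw [hM, COVOL.det4, i00, i11, i22, i33, i01, i02, i03, i12, i13, i23, i10, i20, i30, i21, i31,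
    i32]
  simp only [K3, DD]
  ring

end Pool.Agent.Helper552_D4
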