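import Pool.Agent.Helper552_D4.Defs

set_option autoImplicit false

namespace Pool.Agent.Helper552_D4

open MeasureTheory Set

namespace CUTS

theorem nn_nonneg (x : ℝ) : 0 ≤ nn x := abs_nonneg _

theorem nn_le_half (x : ℝ) : nn x ≤ 1 / 2 := abs_sub_round x

theorem nn_le (x : ℝ) (k : ℤ) : nn x ≤ |x - k| := round_le x k

/-- the four inequalities for a triple of points -/
theorem tri (u v : ℝ) : nn (u + v) ≤ nn u + nn v ∧ nn u ≤ nn (u + v) + nn v ∧
    nn v ≤ nn (u + v) + nn u ∧ nn u + nn v + nn (u + v) ≤ 1 := by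
  refine ⟨?_, ?_, ?_, ?_⟩
  · have h := nn_le (u + v) (round u + round v)
    have h2 : |u + v - ((round u + round v : ℤ) : ℝ)| ≤ |u - round u| + |v - round v| := by
      have e : u + v - ((round u + round v : ℤ) : ℝ) = (u - round u) + (v - round v) := by
        push_cast; ring
      rw [e]
      exact abs_add_le _ _
    exact h.trans h2
  · have h := nn_le u (round (u + v) - round v)
    have h2 : |u - ((round (u + v) - round v : ℤ) : ℝ)| ≤
        |(u + v) - round (u + v)| + |v - round v| := by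
      have e : u - ((round (u + v) - round v : ℤ) : ℝ) =
          ((u + v) - round (u + v)) - (v - round v) := by
        push_cast; ring
      rw [e]
      exact abs_sub _ _
    exact h.trans h2
  · have h := nn_le v (round (u + v) - round u)
    have h2 : |v - ((round (u + v) - round u : ℤ) : ℝ)| ≤
        |(u + v) - round (u + v)| + |u - round u| := by
      have e : v - ((round (u + v) - round u : ℤ) : ℝ) =
          ((u + v) - round (u + v)) - (u - round u) := by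
        push_cast; ring
      rw [e]
      exact abs_sub _ _
    exact h.trans h2
  · have h0 := nn_le (u + v) (round u + round v)
    have h1 := nn_le (u + v) (round u + round v + 1)
    have h2 := nn_le (u + v) (round u + round v - 1)
    have e0 : u + v - ((round u + round v : ℤ) : ℝ) = (u - round u) + (v - round v) := by
      push_cast; ring
    have e1 : u + v - ((round u + round v + 1 : ℤ) : ℝ) =
        (u - round u) + (v - round v) - 1 := by
      push_cast; ring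
    have e2 : u + v - ((round u + round v - 1 : ℤ) : ℝ) =
        (u - round u) + (v - round v) + 1 := by
      push_cast; ring
    rw [e0] at h0
    rw [e1] at h1
    rw [e2] at h2
    have hu := abs_sub_round u
    have hv := abs_sub_round v
    have eu : nn u = |u - round u| := rfl
    have ev : nn v = |v - round v| := rfl
    rw [eu, ev]
    generalize u - (round u : ℝ) = p at *
    generalize v - (round v : ℝ) = r at *
    obtain ⟨hu1, hu2⟩ := abs_le.1 hu
    obtain ⟨hv1, hv2⟩ := abs_le.1 hv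
    rw [abs_of_nonpos (by linarith : p + r - 1 ≤ 0)] at h1
    rw [abs_of_nonneg (by linarith : 0 ≤ p + r + 1)] at h2
    rcases le_total 0 p with hp | hp
    · rcases le_total 0 r with hr | hr
      · rw [abs_of_nonneg hp, abs_of_nonneg hr]; linarith
      · rw [abs_of_nonneg hp, abs_of_nonpos hr]
        rcases le_total 0 (p + r) with hs | hs
        · rw [abs_of_nonneg hs] at h0; linarith
        · rw [abs_of_nonpos hs] at h0; linarith
    · rcases le_total 0 r with hr | hr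
      · rw [abs_of_nonpos hp, abs_of_nonneg hr]
        rcases le_total 0 (p + r) with hs | hs
        · rw [abs_of_nonneg hs] at h0; linarith
        · rw [abs_of_nonpos hs] at h0; linarith
      · rw [abs_of_nonpos hp, abs_of_nonpos hr]; linarith

/-- the decomposition in cuts -/
theorem mass (t01 t02 t03 t12 t13 t23 : ℝ)
    (h012 : t02 ≤ t01 + t12 ∧ t01 ≤ t02 + t12 ∧ t12 ≤ t02 + t01 ∧ t01 + t12 + t02 ≤ 1)
    (h013 : t03 ≤ t01 + t13 ∧ t01 ≤ t03 + t13 ∧ t13 ≤ t03 + t01 ∧ t01 + t13 + t03 ≤ 1)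
    (h023 : t03 ≤ t02 + t23 ∧ t02 ≤ t03 + t23 ∧ t23 ≤ t03 + t02 ∧ t02 + t23 + t03 ≤ 1)
    (h123 : t13 ≤ t12 + t23 ∧ t12 ≤ t13 + t23 ∧ t23 ≤ t13 + t12 ∧ t12 + t23 + t13 ≤ 1) :
    ∃ m0 m1 m2 m3 n1 n2 n3 n0 : ℝ, (0 ≤ m0 ∧ 0 ≤ m1 ∧ 0 ≤ m2 ∧ 0 ≤ m3 ∧ 0 ≤ n1 ∧ 0 ≤ n2 ∧
      0 ≤ n3 ∧ 0 ≤ n0) ∧ m0 + m1 + m2 + m3 + n1 + n2 + n3 + n0 = 1 / 2 ∧
      t01 = m0 + m1 + n2 + n3 ∧ t02 = m0 + m2 + n1 + n3 ∧ t03 = m0 + m3 + n1 + n2 ∧
      t12 = m1 + m2 + n1 + n2 ∧ t13 = m1 + m3 + n1 + n3 ∧ t23 = m2 + m3 + n2 + n3 := by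
  obtain ⟨a1, a2, a3, a4⟩ := h012
  obtain ⟨b1, b2, b3, b4⟩ := h013
  obtain ⟨c1, c2, c3, c4⟩ := h023
  obtain ⟨d1, d2, d3, d4⟩ := h123
  -- the values with `m0 = 0`
  have key : ∃ s : ℝ, 0 ≤ s ∧ 0 ≤ (t01 + t12 - t02) / 2 - (t01 + t03 - t13) / 2 + s ∧
      0 ≤ (t02 + t12 - t01) / 2 - (t02 + t03 - t23) / 2 + s ∧
      0 ≤ (t03 + t13 - t01) / 2 - (t02 + t03 - t23) / 2 + s ∧
      (s = 0 ∨ (t01 + t12 - t02) / 2 - (t01 + t03 - t13) / 2 + s = 0 ∨
        (t02 + t12 - t01) / 2 - (t02 + t03 - t23) / 2 + s = 0 ∨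
        (t03 + t13 - t01) / 2 - (t02 + t03 - t23) / 2 + s = 0) := by
    generalize (t01 + t12 - t02) / 2 - (t01 + t03 - t13) / 2 = p1
    generalize (t02 + t12 - t01) / 2 - (t02 + t03 - t23) / 2 = p2
    generalize (t03 + t13 - t01) / 2 - (t02 + t03 - t23) / 2 = p3
    rcases le_total 0 p1 with h1 | h1
    · rcases le_total 0 p2 with h2 | h2
      · rcases le_total 0 p3 with h3 | h3
        · exact ⟨0, le_rfl, by linarith, by linarith, by linarith, Or.inl rfl⟩
        · exact ⟨-p3, by linarith, by linarith, by linarith, by linarith,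
            Or.inr (Or.inr (Or.inr (by ring)))⟩
      · rcases le_total p2 p3 with h3 | h3
        · exact ⟨-p2, by linarith, by linarith, by linarith, by linarith,
            Or.inr (Or.inr (Or.inl (by ring)))⟩
        · exact ⟨-p3, by linarith, by linarith, by linarith, by linarith,
            Or.inr (Or.inr (Or.inr (by ring)))⟩
    · rcases le_total p1 p2 with h2 | h2
      · rcases le_total p1 p3 with h3 | h3
        · exact ⟨-p1, by linarith, by linarith, by linarith, by linarith,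
            Or.inr (Or.inl (by ring))⟩
        · exact ⟨-p3, by linarith, by linarith, by linarith, by linarith,
            Or.inr (Or.inr (Or.inr (by ring)))⟩
      · rcases le_total p2 p3 with h3 | h3
        · exact ⟨-p2, by linarith, by linarith, by linarith, by linarith,
            Or.inr (Or.inr (Or.inl (by ring)))⟩
        · exact ⟨-p3, by linarith, by linarith, by linarith, by linarith,
            Or.inr (Or.inr (Or.inr (by ring)))⟩
  obtain ⟨s, hs0, hs1, hs2, hs3, hs⟩ := key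
  refine ⟨s, (t01 + t12 - t02) / 2 - (t01 + t03 - t13) / 2 + s,
    (t02 + t12 - t01) / 2 - (t02 + t03 - t23) / 2 + s,
    (t03 + t13 - t01) / 2 - (t02 + t03 - t23) / 2 + s,
    (t02 + t03 - t23) / 2 - s, (t01 + t03 - t13) / 2 - s, (t01 + t02 - t12) / 2 - s,
    1 / 2 - (s + ((t01 + t12 - t02) / 2 - (t01 + t03 - t13) / 2 + s) +
      ((t02 + t12 - t01) / 2 - (t02 + t03 - t23) / 2 + s) +
      ((t03 + t13 - t01) / 2 - (t02 + t03 - t23) / 2 + s) +
      ((t02 + t03 - t23) / 2 - s) + ((t01 + t03 - t13) / 2 - s) + ((t01 + t02 - t12) / 2 - s)),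
    ⟨hs0, hs1, hs2, hs3, ?_, ?_, ?_, ?_⟩, by ring, by ring, by ring, by ring, by ring, by ring,
    by ring⟩
  all_goals rcases hs with hs | hs | hs | hs <;> linarith

/-- one of the cuts is good -/
theorem exists_cut (a b c d e f : ℝ) (ha : 0 ≤ a) (hb : 0 ≤ b) (hc : 0 ≤ c) (hd : 0 ≤ d)
    (he : 0 ≤ e) (hf : 0 ≤ f) (x y z V : ℝ)
    (hV : V = a * (1 - nn (x - y) ^ 2) + b * (1 - nn (x - z) ^ 2)
      + c * (1 - nn x ^ 2) + d * (1 - nn (y - z) ^ 2) + e * (1 - nn y ^ 2)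
      + f * (1 - nn z ^ 2)) :
    (3 / 4 * (a + b + c) + (d + e + f) ≤ V) ∨ (3 / 4 * (a + d + e) + (b + c + f) ≤ V) ∨
    (3 / 4 * (d + b + f) + (a + e + c) ≤ V) ∨ (3 / 4 * (e + f + c) + (d + a + b) ≤ V) ∨
    (a + f + 3 / 4 * (b + c + d + e) ≤ V) ∨ (b + e + 3 / 4 * (a + c + d + f) ≤ V) ∨
    (c + d + 3 / 4 * (b + a + f + e) ≤ V) ∨ (a + b + c + d + e + f ≤ V) := by
  have g1 := tri (x - y) (y - z)
  have g2 := tri (x - y) y
  have g3 := tri (x - z) z
  have g4 := tri (y - z) z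
  rw [show x - y + (y - z) = x - z by ring] at g1
  rw [show x - y + y = x by ring] at g2
  rw [show x - z + z = x by ring] at g3
  rw [show y - z + z = y by ring] at g4
  have sq : ∀ t : ℝ, nn t ^ 2 ≤ nn t / 2 := by
    intro t
    have h1 := nn_nonneg t
    have h2 := nn_le_half t
    nlinarith
  obtain ⟨m0, m1, m2, m3, n1, n2, n3, n0, ⟨p0, p1, p2, p3, q1, q2, q3, q0⟩, hsum, e01, e02, e03,
    e12, e13, e23⟩ := mass (nn (x - y)) (nn (x - z)) (nn x) (nn (y - z)) (nn y) (nn z) g1 g2 g3 g4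
  have hV2 : a * (1 - nn (x - y) / 2) + b * (1 - nn (x - z) / 2)
      + c * (1 - nn x / 2) + d * (1 - nn (y - z) / 2) + e * (1 - nn y / 2)
      + f * (1 - nn z / 2) ≤ V := by
    rw [hV]
    have k1 := mul_le_mul_of_nonneg_left (sq (x - y)) ha
    have k2 := mul_le_mul_of_nonneg_left (sq (x - z)) hb
    have k3 := mul_le_mul_of_nonneg_left (sq x) hc
    have k4 := mul_le_mul_of_nonneg_left (sq (y - z)) hd
    have k5 := mul_le_mul_of_nonneg_left (sq y) he
    have k6 := mul_le_mul_of_nonneg_left (sq z) hf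
    linarith
  rw [e01, e02, e03, e12, e13, e23] at hV2
  have hn0 : n0 = 1 / 2 - (m0 + m1 + m2 + m3 + n1 + n2 + n3) := by linarith
  by_contra hcon
  push Not at hcon
  obtain ⟨c0, c1, c2, c3, c4, c5, c6, c7⟩ := hcon
  have r0 := mul_nonneg p0 (sub_nonneg.2 c0.le)
  have r1 := mul_nonneg p1 (sub_nonneg.2 c1.le)
  have r2 := mul_nonneg p2 (sub_nonneg.2 c2.le)
  have r3 := mul_nonneg p3 (sub_nonneg.2 c3.le)
  have r4 := mul_nonneg q1 (sub_nonneg.2 c4.le)
  have r5 := mul_nonneg q2 (sub_nonneg.2 c5.le)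
  have r6 := mul_nonneg q3 (sub_nonneg.2 c6.le)
  have r7 := mul_nonneg q0 (sub_nonneg.2 c7.le)
  have htot : m0 * (3 / 4 * (a + b + c) + (d + e + f) - V) +
      m1 * (3 / 4 * (a + d + e) + (b + c + f) - V) +
      m2 * (3 / 4 * (d + b + f) + (a + e + c) - V) +
      m3 * (3 / 4 * (e + f + c) + (d + a + b) - V) +
      n1 * (a + f + 3 / 4 * (b + c + d + e) - V) +
      n2 * (b + e + 3 / 4 * (a + c + d + f) - V) +
      n3 * (c + d + 3 / 4 * (b + a + f + e) - V) +
      n0 * (a + b + c + d + e + f - V) ≤ 0 := by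
    rw [hn0]
    have hid : m0 * (3 / 4 * (a + b + c) + (d + e + f) - V) +
      m1 * (3 / 4 * (a + d + e) + (b + c + f) - V) +
      m2 * (3 / 4 * (d + b + f) + (a + e + c) - V) +
      m3 * (3 / 4 * (e + f + c) + (d + a + b) - V) +
      n1 * (a + f + 3 / 4 * (b + c + d + e) - V) +
      n2 * (b + e + 3 / 4 * (a + c + d + f) - V) +
      n3 * (c + d + 3 / 4 * (b + a + f + e) - V) +
      (1 / 2 - (m0 + m1 + m2 + m3 + n1 + n2 + n3)) * (a + b + c + d + e + f - V)
      = 1 / 2 * (a * (1 - (m0 + m1 + n2 + n3) / 2) + b * (1 - (m0 + m2 + n1 + n3) / 2)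
      + c * (1 - (m0 + m3 + n1 + n2) / 2) + d * (1 - (m1 + m2 + n1 + n2) / 2)
      + e * (1 - (m1 + m3 + n1 + n3) / 2) + f * (1 - (m2 + m3 + n2 + n3) / 2) - V) := by
      ring
    rw [hid]
    linarith [hV2]
  have z0 : m0 = 0 := by
    have : m0 * (3 / 4 * (a + b + c) + (d + e + f) - V) = 0 := by linarith
    exact (mul_eq_zero.1 this).resolve_right (by linarith)
  have z1 : m1 = 0 := by
    have : m1 * (3 / 4 * (a + d + e) + (b + c + f) - V) = 0 := by linarith
    exact (mul_eq_zero.1 this).resolve_right (by linarith)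
  have z2 : m2 = 0 := by
    have : m2 * (3 / 4 * (d + b + f) + (a + e + c) - V) = 0 := by linarith
    exact (mul_eq_zero.1 this).resolve_right (by linarith)
  have z3 : m3 = 0 := by
    have : m3 * (3 / 4 * (e + f + c) + (d + a + b) - V) = 0 := by linarith
    exact (mul_eq_zero.1 this).resolve_right (by linarith)
  have z4 : n1 = 0 := by
    have : n1 * (a + f + 3 / 4 * (b + c + d + e) - V) = 0 := by linarith
    exact (mul_eq_zero.1 this).resolve_right (by linarith)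
  have z5 : n2 = 0 := by
    have : n2 * (b + e + 3 / 4 * (a + c + d + f) - V) = 0 := by linarith
    exact (mul_eq_zero.1 this).resolve_right (by linarith)
  have z6 : n3 = 0 := by
    have : n3 * (c + d + 3 / 4 * (b + a + f + e) - V) = 0 := by linarith
    exact (mul_eq_zero.1 this).resolve_right (by linarith)
  have z7 : n0 = 0 := by
    have : n0 * (a + b + c + d + e + f - V) = 0 := by linarith
    exact (mul_eq_zero.1 this).resolve_right (by linarith)
  linarith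

/-- a cut which isolates a point -/
theorem single (a b c d e f : ℝ) (ha : 0 ≤ a) (hb : 0 ≤ b) (hc : 0 ≤ c) (hd : 0 ≤ d)
    (he : 0 ≤ e) (hf : 0 ≤ f) :
    27 * DD a b c d e f + 11 / 16 * (a + b + c) ^ 3 + 4 * (d + e + f) ^ 3 ≤
      4 * (3 / 4 * (a + b + c) + (d + e + f)) ^ 3 := by
  have h1 : 27 * (a * b * c) ≤ (a + b + c) ^ 3 := by
    nlinarith [mul_nonneg ha (sq_nonneg (b - c)), mul_nonneg hb (sq_nonneg (a - c)),
      mul_nonneg hc (sq_nonneg (a - b)), mul_nonneg (add_nonneg (add_nonneg ha hb) hc)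
        (add_nonneg (add_nonneg (sq_nonneg (a - b)) (sq_nonneg (b - c))) (sq_nonneg (a - c)))]
  have h2 : 4 * (c * (a + b)) ≤ (a + b + c) ^ 2 := by nlinarith [sq_nonneg (a + b - c)]
  have h3 : 4 * (b * (a + c)) ≤ (a + b + c) ^ 2 := by nlinarith [sq_nonneg (a + c - b)]
  have h4 : 4 * (a * (b + c)) ≤ (a + b + c) ^ 2 := by nlinarith [sq_nonneg (b + c - a)]
  have h5 : 3 * (d * e + d * f + e * f) ≤ (d + e + f) ^ 2 := by
    nlinarith [sq_nonneg (d - e), sq_nonneg (d - f), sq_nonneg (e - f)]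
  have k2 := mul_le_mul_of_nonneg_left h2 hd
  have k3 := mul_le_mul_of_nonneg_left h3 he
  have k4 := mul_le_mul_of_nonneg_left h4 hf
  have k5 := mul_le_mul_of_nonneg_left h5 (add_nonneg (add_nonneg ha hb) hc)
  have e1 : DD a b c d e f = a * b * c + d * (c * (a + b)) + e * (b * (a + c)) +
      f * (a * (b + c)) + (a + b + c) * (d * e + d * f + e * f) := by
    unfold DD; ring
  have e2 : 4 * (3 / 4 * (a + b + c) + (d + e + f)) ^ 3 = 27 / 16 * (a + b + c) ^ 3 +
      27 / 4 * (a + b + c) ^ 2 * (d + e + f) + 9 * (a + b + c) * (d + e + f) ^ 2 +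
      4 * (d + e + f) ^ 3 := by ring
  rw [e1, e2]
  nlinarith [h1, k2, k3, k4, k5]

/-- a cut in two pairs -/
theorem double (a b c d e f : ℝ) :
    4 * (a + f + 3 / 4 * (b + c + d + e)) ^ 3 - 27 * DD a b c d e f =
      9 * (b + c + d + e) * (a ^ 2 - a * f + f ^ 2) + 4 * (a + f) ^ 3 +
      27 / 4 * (a * ((b + d) - (c + e)) ^ 2) + 27 / 4 * (f * ((b + c) - (d + e)) ^ 2) +
      27 / 16 * ((b + c + d + e) * ((b + c) - (d + e)) ^ 2) +
      27 / 4 * ((b - c) ^ 2 * (d + e)) + 27 / 4 * ((d - e) ^ 2 * (b + c)) := by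
  unfold DD
  ring

theorem double_le (a b c d e f : ℝ) (ha : 0 ≤ a) (hb : 0 ≤ b) (hc : 0 ≤ c) (hd : 0 ≤ d)
    (he : 0 ≤ e) (hf : 0 ≤ f) :
    27 * DD a b c d e f ≤ 4 * (a + f + 3 / 4 * (b + c + d + e)) ^ 3 := by
  have h := double a b c d e f
  have h1 : 0 ≤ a ^ 2 - a * f + f ^ 2 := by nlinarith [sq_nonneg (a - f), sq_nonneg a, sq_nonneg f]
  have h2 : 0 ≤ 9 * (b + c + d + e) * (a ^ 2 - a * f + f ^ 2) := by positivity
  have h3 : 0 ≤ 4 * (a + f) ^ 3 := by positivity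
  have h4 : 0 ≤ 27 / 4 * (a * ((b + d) - (c + e)) ^ 2) := by positivity
  have h5 : 0 ≤ 27 / 4 * (f * ((b + c) - (d + e)) ^ 2) := by positivity
  have h6 : 0 ≤ 27 / 16 * ((b + c + d + e) * ((b + c) - (d + e)) ^ 2) := by positivity
  have h7 : 0 ≤ 27 / 4 * ((b - c) ^ 2 * (d + e)) := by positivity
  have h8 : 0 ≤ 27 / 4 * ((d - e) ^ 2 * (b + c)) := by positivity
  linarith

theorem double_eq (a b c d e f : ℝ) (ha : 0 ≤ a) (hb : 0 ≤ b) (hc : 0 ≤ c) (hd : 0 ≤ d)
    (he : 0 ≤ e) (hf : 0 ≤ f) (hD : 0 < DD a b c d e f)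
    (heq : 4 * (a + f + 3 / 4 * (b + c + d + e)) ^ 3 ≤ 27 * DD a b c d e f) :
    a = 0 ∧ f = 0 ∧ b = c ∧ d = c ∧ e = c ∧ 0 < c := by
  have h := double a b c d e f
  have h1 : 0 ≤ a ^ 2 - a * f + f ^ 2 := by nlinarith [sq_nonneg (a - f), sq_nonneg a, sq_nonneg f]
  have h2 : 0 ≤ 9 * (b + c + d + e) * (a ^ 2 - a * f + f ^ 2) := by positivity
  have h3 : 0 ≤ 4 * (a + f) ^ 3 := by positivity
  have h4 : 0 ≤ 27 / 4 * (a * ((b + d) - (c + e)) ^ 2) := by positivity
  have h5 : 0 ≤ 27 / 4 * (f * ((b + c) - (d + e)) ^ 2) := by positivity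
  have h6 : 0 ≤ 27 / 16 * ((b + c + d + e) * ((b + c) - (d + e)) ^ 2) := by positivity
  have h7 : 0 ≤ 27 / 4 * ((b - c) ^ 2 * (d + e)) := by positivity
  have h8 : 0 ≤ 27 / 4 * ((d - e) ^ 2 * (b + c)) := by positivity
  have z3 : (a + f) ^ 3 = 0 := by linarith
  have z6 : (b + c + d + e) * ((b + c) - (d + e)) ^ 2 = 0 := by linarith
  have z7 : (b - c) ^ 2 * (d + e) = 0 := by linarith
  have z8 : (d - e) ^ 2 * (b + c) = 0 := by linarith
  have haf : a + f = 0 := pow_eq_zero_iff (by norm_num) |>.1 z3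
  have ha0 : a = 0 := by linarith
  have hf0 : f = 0 := by linarith
  have hZ : b + c + d + e ≠ 0 := by
    intro hZ
    have hb0 : b = 0 := by linarith
    have hc0 : c = 0 := by linarith
    have hd0 : d = 0 := by linarith
    have he0 : e = 0 := by linarith
    rw [ha0, hf0, hb0, hc0, hd0, he0] at hD
    unfold DD at hD
    norm_num at hD
  have hZ' : 0 < b + c + d + e := lt_of_le_of_ne (by positivity) (Ne.symm hZ)
  have hpr : b + c - (d + e) = 0 :=
    pow_eq_zero_iff (two_ne_zero) |>.1 ((mul_eq_zero.1 z6).resolve_left hZ)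
  have hbc : b - c = 0 :=
    pow_eq_zero_iff (two_ne_zero) |>.1 ((mul_eq_zero.1 z7).resolve_right (by linarith))
  have hde : d - e = 0 :=
    pow_eq_zero_iff (two_ne_zero) |>.1 ((mul_eq_zero.1 z8).resolve_right (by linarith))
  exact ⟨ha0, hf0, by linarith, by linarith, by linarith, by linarith⟩

theorem DD1 (a b c d e f : ℝ) : DD a d e b c f = DD a b c d e f := by unfold DD; ring
theorem DD2 (a b c d e f : ℝ) : DD d b f a e c = DD a b c d e f := by unfold DD; ring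
theorem DD3 (a b c d e f : ℝ) : DD e f c d a b = DD a b c d e f := by unfold DD; ring
theorem DD4 (a b c d e f : ℝ) : DD b a c d f e = DD a b c d e f := by unfold DD; ring
theorem DD5 (a b c d e f : ℝ) : DD c b a f e d = DD a b c d e f := by unfold DD; ring

theorem cube_mono {u v : ℝ} (h0 : 0 ≤ u) (h : u ≤ v) : 4 * u ^ 3 ≤ 4 * v ^ 3 := by
  have := pow_le_pow_left₀ h0 h 3
  linarith

/-- four equal weights -/
theorem all_half {s t1 t2 t3 t4 : ℝ} (hs : 0 < s) (h1 : 0 ≤ t1) (h2 : 0 ≤ t2) (h3 : 0 ≤ t3)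
    (h4 : 0 ≤ t4) (g1 : t1 ≤ 1 / 2) (g2 : t2 ≤ 1 / 2) (g3 : t3 ≤ 1 / 2) (g4 : t4 ≤ 1 / 2)
    (h : s * (1 - t1 ^ 2) + s * (1 - t2 ^ 2) + s * (1 - t3 ^ 2) + s * (1 - t4 ^ 2) ≤ 3 * s) :
    t1 = 1 / 2 ∧ t2 = 1 / 2 ∧ t3 = 1 / 2 ∧ t4 = 1 / 2 := by
  have hsum : 1 ≤ t1 ^ 2 + t2 ^ 2 + t3 ^ 2 + t4 ^ 2 := by
    by_contra hcon
    push Not at hcon
    nlinarith [mul_pos hs (sub_pos.2 hcon)]
  have k1 : t1 ^ 2 ≤ 1 / 4 := by nlinarith
  have k2 : t2 ^ 2 ≤ 1 / 4 := by nlinarith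
  have k3 : t3 ^ 2 ≤ 1 / 4 := by nlinarith
  have k4 : t4 ^ 2 ≤ 1 / 4 := by nlinarith
  refine ⟨?_, ?_, ?_, ?_⟩
  · nlinarith
  · nlinarith
  · nlinarith
  · nlinarith

/-- the value is the value of the cut -/
theorem eq_of_cubes {D L V : ℝ} (hL : 0 ≤ L) (hLV : L ≤ V) (h1 : 27 * D ≤ 4 * L ^ 3)
    (h2 : 4 * V ^ 3 ≤ 27 * D) : V = L ∧ 4 * L ^ 3 ≤ 27 * D := by
  have h3 := cube_mono hL hLV
  refine ⟨?_, by linarith⟩
  have h4 : V ^ 3 = L ^ 3 := by linarith
  have hV : 0 ≤ V := hL.trans hLV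
  exact (pow_left_inj₀ hV hL (by norm_num)).1 h4

theorem single_false (a b c d e f L V : ℝ) (ha : 0 ≤ a) (hb : 0 ≤ b) (hc : 0 ≤ c) (hd : 0 ≤ d)
    (he : 0 ≤ e) (hf : 0 ≤ f) (hD : 0 < DD a b c d e f)
    (hL : L = 3 / 4 * (a + b + c) + (d + e + f)) (hLV : L ≤ V)
    (h2 : 4 * V ^ 3 ≤ 27 * DD a b c d e f) : False := by
  have h1 := single a b c d e f ha hb hc hd he hf
  rw [← hL] at h1
  have hL0 : 0 ≤ L := by rw [hL]; positivity
  have hx : 0 ≤ (a + b + c) ^ 3 := by positivity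
  have ht : 0 ≤ (d + e + f) ^ 3 := by positivity
  have h3 := cube_mono hL0 hLV
  have x0 : (a + b + c) ^ 3 = 0 := by linarith
  have t0 : (d + e + f) ^ 3 = 0 := by linarith
  have x1 : a + b + c = 0 := pow_eq_zero_iff (by norm_num) |>.1 x0
  have t1 : d + e + f = 0 := pow_eq_zero_iff (by norm_num) |>.1 t0
  have ha0 : a = 0 := by linarith
  have hb0 : b = 0 := by linarith
  have hc0 : c = 0 := by linarith
  rw [ha0, hb0, hc0] at hD
  unfold DD at hD
  have hd0 : d = 0 := by linarith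
  rw [hd0] at hD
  norm_num at hD

end CUTS

open CUTS

/-- TARGET 1 -/
theorem cut_main (a b c d e f : ℝ) (ha : 0 ≤ a) (hb : 0 ≤ b) (hc : 0 ≤ c) (hd : 0 ≤ d)
    (he : 0 ≤ e) (hf : 0 ≤ f) (x y z : ℝ) :
    27 * DD a b c d e f ≤ 4 * (a * (1 - nn (x - y) ^ 2) + b * (1 - nn (x - z) ^ 2)
      + c * (1 - nn x ^ 2) + d * (1 - nn (y - z) ^ 2) + e * (1 - nn y ^ 2)
      + f * (1 - nn z ^ 2)) ^ 3 := by
  obtain ⟨V, hV⟩ : ∃ V, V = a * (1 - nn (x - y) ^ 2) + b * (1 - nn (x - z) ^ 2)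
      + c * (1 - nn x ^ 2) + d * (1 - nn (y - z) ^ 2) + e * (1 - nn y ^ 2)
      + f * (1 - nn z ^ 2) := ⟨_, rfl⟩
  rw [← hV]
  have p1 : 0 ≤ (a + b + c) ^ 3 := by positivity
  rcases exists_cut a b c d e f ha hb hc hd he hf x y z V hV with h | h | h | h | h | h | h | h
  · have h1 := single a b c d e f ha hb hc hd he hf
    have h2 := cube_mono (by positivity) h
    have h3 : 0 ≤ (a + b + c) ^ 3 := by positivity
    have h4 : 0 ≤ (d + e + f) ^ 3 := by positivity
    linarith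
  · have h1 := single a d e b c f ha hd he hb hc hf
    rw [DD1] at h1
    have h2 := cube_mono (by positivity) h
    have h3 : 0 ≤ (a + d + e) ^ 3 := by positivity
    have h4 : 0 ≤ (b + c + f) ^ 3 := by positivity
    linarith
  · have h1 := single d b f a e c hd hb hf ha he hc
    rw [DD2] at h1
    have h2 := cube_mono (by positivity) h
    have h3 : 0 ≤ (d + b + f) ^ 3 := by positivity
    have h4 : 0 ≤ (a + e + c) ^ 3 := by positivity
    linarith
  · have h1 := single e f c d a b he hf hc hd ha hb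
    rw [DD3] at h1
    have h2 := cube_mono (by positivity) h
    have h3 : 0 ≤ (e + f + c) ^ 3 := by positivity
    have h4 : 0 ≤ (d + a + b) ^ 3 := by positivity
    linarith
  · have h1 := double_le a b c d e f ha hb hc hd he hf
    exact h1.trans (cube_mono (by positivity) h)
  · have h1 := double_le b a c d f e hb ha hc hd hf he
    rw [DD4] at h1
    exact h1.trans (cube_mono (by positivity) h)
  · have h1 := double_le c b a f e d hc hb ha hf he hd
    rw [DD5] at h1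
    exact h1.trans (cube_mono (by positivity) h)
  · have h1 := double_le a b c d e f ha hb hc hd he hf
    refine h1.trans (cube_mono (by positivity) (le_trans ?_ h))
    linarith

/-- TARGET 2 -/
theorem cut_eq (a b c d e f : ℝ) (ha : 0 ≤ a) (hb : 0 ≤ b) (hc : 0 ≤ c) (hd : 0 ≤ d)
    (he : 0 ≤ e) (hf : 0 ≤ f) (x y z : ℝ) (hD : 0 < DD a b c d e f)
    (h : 4 * (a * (1 - nn (x - y) ^ 2) + b * (1 - nn (x - z) ^ 2)
      + c * (1 - nn x ^ 2) + d * (1 - nn (y - z) ^ 2) + e * (1 - nn y ^ 2)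
      + f * (1 - nn z ^ 2)) ^ 3 ≤ 27 * DD a b c d e f) :
    (b = 0 ∧ e = 0 ∧ a = c ∧ d = c ∧ f = c ∧ nn (x - y) = 1 / 2 ∧ nn x = 1 / 2
          ∧ nn (y - z) = 1 / 2 ∧ nn z = 1 / 2) ∨
        (a = 0 ∧ f = 0 ∧ b = c ∧ d = c ∧ e = c ∧ nn (x - z) = 1 / 2 ∧ nn x = 1 / 2
          ∧ nn (y - z) = 1 / 2 ∧ nn y = 1 / 2) ∨
        (c = 0 ∧ d = 0 ∧ b = a ∧ e = a ∧ f = a ∧ nn (x - y) = 1 / 2 ∧ nn (x - z) = 1 / 2
          ∧ nn y = 1 / 2 ∧ nn z = 1 / 2) := by
  obtain ⟨V, hV⟩ : ∃ V, V = a * (1 - nn (x - y) ^ 2) + b * (1 - nn (x - z) ^ 2)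
      + c * (1 - nn x ^ 2) + d * (1 - nn (y - z) ^ 2) + e * (1 - nn y ^ 2)
      + f * (1 - nn z ^ 2) := ⟨_, rfl⟩
  rw [← hV] at h
  rcases exists_cut a b c d e f ha hb hc hd he hf x y z V hV with g | g | g | g | g | g | g | g
  · exact (single_false a b c d e f _ V ha hb hc hd he hf hD rfl g h).elim
  · exact (single_false a d e b c f _ V ha hd he hb hc hf (by rw [DD1]; exact hD) rfl g
      (by rw [DD1]; exact h)).elim
  · exact (single_false d b f a e c _ V hd hb hf ha he hc (by rw [DD2]; exact hD) rfl g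
      (by rw [DD2]; exact h)).elim
  · exact (single_false e f c d a b _ V he hf hc hd ha hb (by rw [DD3]; exact hD) rfl g
      (by rw [DD3]; exact h)).elim
  · right; left
    obtain ⟨k1, k2⟩ := eq_of_cubes (by positivity) g (double_le a b c d e f ha hb hc hd he hf) h
    obtain ⟨a0, f0, hbc, hdc, hec, hc0⟩ := double_eq a b c d e f ha hb hc hd he hf hD k2
    have hV2 := hV
    rw [k1, a0, f0, hbc, hdc, hec] at hV2
    obtain ⟨t1, t2, t3, t4⟩ := all_half hc0 (nn_nonneg (x - z)) (nn_nonneg x) (nn_nonneg (y - z))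
      (nn_nonneg y) (nn_le_half _) (nn_le_half _) (nn_le_half _) (nn_le_half _) (by linarith)
    exact ⟨a0, f0, hbc, hdc, hec, t1, t2, t3, t4⟩
  · left
    have hD' : 0 < DD b a c d f e := by rw [DD4]; exact hD
    obtain ⟨k1, k2⟩ := eq_of_cubes (by positivity) g (double_le b a c d f e hb ha hc hd hf he)
      (by rw [DD4]; exact h)
    obtain ⟨b0, e0, hac, hdc, hfc, hc0⟩ := double_eq b a c d f e hb ha hc hd hf he hD' k2
    have hV2 := hV
    rw [k1, b0, e0, hac, hdc, hfc] at hV2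
    obtain ⟨t1, t2, t3, t4⟩ := all_half hc0 (nn_nonneg (x - y)) (nn_nonneg x) (nn_nonneg (y - z))
      (nn_nonneg z) (nn_le_half _) (nn_le_half _) (nn_le_half _) (nn_le_half _) (by linarith)
    exact ⟨b0, e0, hac, hdc, hfc, t1, t2, t3, t4⟩
  · right; right
    have hD' : 0 < DD c b a f e d := by rw [DD5]; exact hD
    obtain ⟨k1, k2⟩ := eq_of_cubes (by positivity) g (double_le c b a f e d hc hb ha hf he hd)
      (by rw [DD5]; exact h)
    obtain ⟨c0, d0, hba, hfa, hea, ha0⟩ := double_eq c b a f e d hc hb ha hf he hd hD' k2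
    have hV2 := hV
    rw [k1, c0, d0, hba, hfa, hea] at hV2
    obtain ⟨t1, t2, t3, t4⟩ := all_half ha0 (nn_nonneg (x - y)) (nn_nonneg (x - z)) (nn_nonneg y)
      (nn_nonneg z) (nn_le_half _) (nn_le_half _) (nn_le_half _) (nn_le_half _) (by linarith)
    exact ⟨c0, d0, hba, hea, hfa, t1, t2, t3, t4⟩
  · exfalso
    have h1 := double_le a b c d e f ha hb hc hd he hf
    have hL0 : 0 ≤ a + f + 3 / 4 * (b + c + d + e) := by positivity
    have hLV : a + f + 3 / 4 * (b + c + d + e) ≤ V := by linarith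
    obtain ⟨k1, k2⟩ := eq_of_cubes hL0 hLV h1 h
    obtain ⟨a0, f0, hbc, hdc, hec, hc0⟩ := double_eq a b c d e f ha hb hc hd he hf hD k2
    linarith

/-- TARGET 3: four points on a circle of length 1 (sum of the squared distances). In the cyclic order the four neighbour
distances add up to at most 1, the other two are at most 1/2, so sum θ <= 2 and sum θ^2 <= (1/2) sum θ <= 1. -/
theorem circle_sum (x y z : ℝ) :
    nn (x - y) ^ 2 + nn (x - z) ^ 2 + nn x ^ 2 + nn (y - z) ^ 2 + nn y ^ 2 + nn z ^ 2 ≤ 1 := by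
  have g1 := tri (x - y) (y - z)
  have g2 := tri (x - y) y
  have g3 := tri (x - z) z
  have g4 := tri (y - z) z
  rw [show x - y + (y - z) = x - z by ring] at g1
  rw [show x - y + y = x by ring] at g2
  rw [show x - z + z = x by ring] at g3
  rw [show y - z + z = y by ring] at g4
  have sq : ∀ t : ℝ, nn t ^ 2 ≤ nn t / 2 := by
    intro t
    have h1 := nn_nonneg t
    have h2 := nn_le_half t
    nlinarith
  linarith [sq (x - y), sq (x - z), sq x, sq (y - z), sq y, sq z, g1.2.2.2, g2.2.2.2, g3.2.2.2,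
    g4.2.2.2]

end Pool.Agent.Helper552_D4
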