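import Pool.Agent.Helper552_D4.Defs

set_option autoImplicit false

namespace Pool.Agent.Helper552_D4

open MeasureTheory Set

namespace FBASIC

theorem K3_nonneg {a b c d e f : ℝ} (ha : 0 ≤ a) (hb : 0 ≤ b) (hc : 0 ≤ c) (hd : 0 ≤ d)
    (he : 0 ≤ e) (hf : 0 ≤ f) (x y z : ℝ) : 0 ≤ K3 a b c d e f x y z := by
  unfold K3
  positivity

theorem bdd {a b c d e f : ℝ} (ha : 0 ≤ a) (hb : 0 ≤ b) (hc : 0 ≤ c) (hd : 0 ≤ d)
    (he : 0 ≤ e) (hf : 0 ≤ f) (z : Fin 3 → ℝ) :
    BddBelow (Set.range fun n : Fin 3 → ℤ => K3 a b c d e f (z 0 - n 0) (z 1 - n 1) (z 2 - n 2)) :=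
  ⟨0, by rintro _ ⟨n, rfl⟩; exact K3_nonneg ha hb hc hd he hf _ _ _⟩

end FBASIC

open FBASIC

/-- TARGET 1 -/
theorem measurable_f3 (a b c d e f : ℝ) (ha : 0 ≤ a) (hb : 0 ≤ b) (hc : 0 ≤ c) (hd : 0 ≤ d)
    (he : 0 ≤ e) (hf : 0 ≤ f) : Measurable (f3 a b c d e f) := by
  unfold f3
  refine Measurable.iInf fun n => ?_
  unfold K3
  fun_prop

/-- TARGET 2 -/
theorem f3_nonneg (a b c d e f : ℝ) (ha : 0 ≤ a) (hb : 0 ≤ b) (hc : 0 ≤ c) (hd : 0 ≤ d)
    (he : 0 ≤ e) (hf : 0 ≤ f) (z : Fin 3 → ℝ) : 0 ≤ f3 a b c d e f z :=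
  Real.iInf_nonneg fun n => K3_nonneg ha hb hc hd he hf _ _ _

/-- TARGET 3 -/
theorem f3_per (a b c d e f : ℝ) (z : Fin 3 → ℝ) (n : Fin 3 → ℤ) :
    f3 a b c d e f (fun i => z i + n i) = f3 a b c d e f z := by
  unfold f3
  symm
  refine (Equiv.addRight n).iInf_congr fun m => ?_
  simp only [Equiv.coe_addRight, Pi.add_apply, Int.cast_add, add_sub_add_right_eq_sub]

/-- TARGET 4 -/
theorem f3_le_K3 (a b c d e f : ℝ) (ha : 0 ≤ a) (hb : 0 ≤ b) (hc : 0 ≤ c) (hd : 0 ≤ d)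
    (he : 0 ≤ e) (hf : 0 ≤ f) (z : Fin 3 → ℝ) (n : Fin 3 → ℤ) :
    f3 a b c d e f z ≤ K3 a b c d e f (z 0 - n 0) (z 1 - n 1) (z 2 - n 2) :=
  ciInf_le (bdd ha hb hc hd he hf z) n

namespace FBASIC

theorem le_unit {a b c d e f : ℝ} (ha : 0 ≤ a) (hb : 0 ≤ b) (hc : 0 ≤ c) (hd : 0 ≤ d)
    (he : 0 ≤ e) (hf : 0 ≤ f) (z : Fin 3 → ℝ) (h0 : ∀ i, 0 ≤ z i) (h1 : ∀ i, z i ≤ 1) :
    f3 a b c d e f z ≤ (a + b + c + d + e + f) / 4 := by
  have key : ∀ n : Fin 3 → ℤ,
      f3 a b c d e f z ≤ K3 a b c d e f (z 0 - n 0) (z 1 - n 1) (z 2 - n 2) :=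
    fun n => f3_le_K3 a b c d e f ha hb hc hd he hf z n
  have k111 := key ![1, 1, 1]
  have k000 := key ![0, 0, 0]
  have k100 := key ![1, 0, 0]
  have k010 := key ![0, 1, 0]
  have k001 := key ![0, 0, 1]
  have k110 := key ![1, 1, 0]
  have k101 := key ![1, 0, 1]
  have k011 := key ![0, 1, 1]
  simp only [Matrix.cons_val_zero, Matrix.cons_val_one, Matrix.cons_val, Int.cast_one,
    Int.cast_zero, sub_zero, K3] at k111 k000 k100 k010 k001 k110 k101 k011
  generalize f3 a b c d e f z = F at *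
  have hx0 := h0 0
  have hy0 := h0 1
  have hu0 := h0 2
  have hx1 := h1 0
  have hy1 := h1 1
  have hu1 := h1 2
  generalize z 0 = x at *
  generalize z 1 = y at *
  generalize z 2 = u at *
  clear h0 h1 key
  have s1 := mul_nonneg hc (sq_nonneg (1 / 2 - x))
  have s2 := mul_nonneg he (sq_nonneg (1 / 2 - y))
  have s3 := mul_nonneg hf (sq_nonneg (1 / 2 - u))
  rcases le_total x y with hxy | hxy
  · have s4 := mul_nonneg ha (sq_nonneg (1 / 2 - (y - x)))
    rcases le_total y u with hyu | hyu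
    · -- x ≤ y ≤ u
      have s5 := mul_nonneg hd (sq_nonneg (1 / 2 - (u - y)))
      have s6 := mul_nonneg hb (sq_nonneg (1 / 2 - (u - x)))
      have m1 := mul_le_mul_of_nonneg_left k111 hx0
      have m2 := mul_le_mul_of_nonneg_left k011 (sub_nonneg.2 hxy)
      have m3 := mul_le_mul_of_nonneg_left k001 (sub_nonneg.2 hyu)
      have m4 := mul_le_mul_of_nonneg_left k000 (sub_nonneg.2 hu1)
      linarith only [s1, s2, s3, s4, s5, s6, m1, m2, m3, m4]
    · have s5 := mul_nonneg hd (sq_nonneg (1 / 2 - (y - u)))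
      rcases le_total x u with hxu | hxu
      · -- x ≤ u ≤ y
        have s6 := mul_nonneg hb (sq_nonneg (1 / 2 - (u - x)))
        have m1 := mul_le_mul_of_nonneg_left k111 hx0
        have m2 := mul_le_mul_of_nonneg_left k011 (sub_nonneg.2 hxu)
        have m3 := mul_le_mul_of_nonneg_left k010 (sub_nonneg.2 hyu)
        have m4 := mul_le_mul_of_nonneg_left k000 (sub_nonneg.2 hy1)
        linarith only [s1, s2, s3, s4, s5, s6, m1, m2, m3, m4]
      · -- u ≤ x ≤ y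
        have s6 := mul_nonneg hb (sq_nonneg (1 / 2 - (x - u)))
        have m1 := mul_le_mul_of_nonneg_left k111 hu0
        have m2 := mul_le_mul_of_nonneg_left k110 (sub_nonneg.2 hxu)
        have m3 := mul_le_mul_of_nonneg_left k010 (sub_nonneg.2 hxy)
        have m4 := mul_le_mul_of_nonneg_left k000 (sub_nonneg.2 hy1)
        linarith only [s1, s2, s3, s4, s5, s6, m1, m2, m3, m4]
  · have s4 := mul_nonneg ha (sq_nonneg (1 / 2 - (x - y)))
    rcases le_total x u with hxu | hxu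
    · -- y ≤ x ≤ u
      have s5 := mul_nonneg hd (sq_nonneg (1 / 2 - (u - y)))
      have s6 := mul_nonneg hb (sq_nonneg (1 / 2 - (u - x)))
      have m1 := mul_le_mul_of_nonneg_left k111 hy0
      have m2 := mul_le_mul_of_nonneg_left k101 (sub_nonneg.2 hxy)
      have m3 := mul_le_mul_of_nonneg_left k001 (sub_nonneg.2 hxu)
      have m4 := mul_le_mul_of_nonneg_left k000 (sub_nonneg.2 hu1)
      linarith only [s1, s2, s3, s4, s5, s6, m1, m2, m3, m4]
    · have s6 := mul_nonneg hb (sq_nonneg (1 / 2 - (x - u)))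
      rcases le_total y u with hyu | hyu
      · -- y ≤ u ≤ x
        have s5 := mul_nonneg hd (sq_nonneg (1 / 2 - (u - y)))
        have m1 := mul_le_mul_of_nonneg_left k111 hy0
        have m2 := mul_le_mul_of_nonneg_left k101 (sub_nonneg.2 hyu)
        have m3 := mul_le_mul_of_nonneg_left k100 (sub_nonneg.2 hxu)
        have m4 := mul_le_mul_of_nonneg_left k000 (sub_nonneg.2 hx1)
        linarith only [s1, s2, s3, s4, s5, s6, m1, m2, m3, m4]
      · -- u ≤ y ≤ x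
        have s5 := mul_nonneg hd (sq_nonneg (1 / 2 - (y - u)))
        have m1 := mul_le_mul_of_nonneg_left k111 hu0
        have m2 := mul_le_mul_of_nonneg_left k110 (sub_nonneg.2 hyu)
        have m3 := mul_le_mul_of_nonneg_left k100 (sub_nonneg.2 hxy)
        have m4 := mul_le_mul_of_nonneg_left k000 (sub_nonneg.2 hx1)
        linarith only [s1, s2, s3, s4, s5, s6, m1, m2, m3, m4]

end FBASIC

/-- TARGET 5 -/
theorem f3_le (a b c d e f : ℝ) (ha : 0 ≤ a) (hb : 0 ≤ b) (hc : 0 ≤ c) (hd : 0 ≤ d)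
    (he : 0 ≤ e) (hf : 0 ≤ f) (z : Fin 3 → ℝ) :
    f3 a b c d e f z ≤ (a + b + c + d + e + f) / 4 := by
  have h := f3_per a b c d e f (fun i => Int.fract (z i)) (fun i => ⌊z i⌋)
  simp only [Int.fract_add_floor] at h
  rw [h]
  exact le_unit ha hb hc hd he hf _ (fun i => Int.fract_nonneg _) (fun i => (Int.fract_lt_one _).le)

/-- TARGET 6 (homogeneity) -/
theorem f3_smul (s a b c d e f : ℝ) (hs : 0 ≤ s) (z : Fin 3 → ℝ) :
    f3 (s * a) (s * b) (s * c) (s * d) (s * e) (s * f) z = s * f3 a b c d e f z := by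
  unfold f3
  rw [Real.mul_iInf_of_nonneg hs]
  congr 1
  funext n
  unfold K3
  ring

end Pool.Agent.Helper552_D4

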