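import Pool.Agent.Helper552_D4.Defs

set_option autoImplicit false

namespace Pool.Agent.Helper552_D4.PACK

open MeasureTheory Set Pool.Agent.Helper552_D4
open scoped ENNReal Pointwise

/-- The integer vectors, as an additive homomorphism to `ℝ³`. -/
def iota : (Fin 3 → ℤ) →+ (Fin 3 → ℝ) where
  toFun n := fun i => (n i : ℝ)
  map_zero' := by ext i; simp
  map_add' a b := by ext i; simp

/-- The group `ℤ³` of translations. -/
def Z3 : AddSubgroup (Fin 3 → ℝ) := iota.range

instance : Countable Z3 := by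
  have : Function.Surjective (fun n : Fin 3 → ℤ => (⟨iota n, n, rfl⟩ : Z3)) := by
    rintro ⟨x, n, hn⟩
    exact ⟨n, Subtype.ext hn⟩
  exact this.countable

/-- The unique-translate criterion. -/
theorem isFD (S : Set (Fin 3 → ℝ)) (hS : MeasurableSet S)
    (hu : ∀ z : Fin 3 → ℝ, ∃! n : Fin 3 → ℤ, (fun i => z i - n i) ∈ S) :
    IsAddFundamentalDomain Z3 S (volume : Measure (Fin 3 → ℝ)) := by
  refine IsAddFundamentalDomain.mk' hS.nullMeasurableSet ?_
  intro z
  obtain ⟨n, hn, hun⟩ := hu z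
  refine ⟨⟨iota (-n), -n, rfl⟩, ?_, ?_⟩
  · have e : ((⟨iota (-n), -n, rfl⟩ : Z3) +ᵥ z) = fun i => z i - n i := by
      ext i
      change iota (-n) i + z i = z i - n i
      simp [iota]
      ring
    change ((⟨iota (-n), -n, rfl⟩ : Z3) +ᵥ z) ∈ S
    rw [e]
    exact hn
  · rintro ⟨x, m, hm⟩ hx
    have hx' : (fun i => z i - (-m) i) ∈ S := by
      have e : ((⟨x, m, hm⟩ : Z3) +ᵥ z) = fun i => z i - ((-m) i : ℤ) := by
        ext i
        subst hm
        change iota m i + z i = z i - ((-m) i : ℤ)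
        simp [iota]
        ring
      have hx2 : ((⟨x, m, hm⟩ : Z3) +ᵥ z) ∈ S := hx
      rw [e] at hx2
      exact_mod_cast hx2
    have h2 := hun (-m) (by exact_mod_cast hx')
    subst hm
    apply Subtype.ext
    change iota m = iota (-n)
    rw [← h2, neg_neg]

/-- The cube is a fundamental domain. -/
theorem cubeFD : IsAddFundamentalDomain Z3 cube3 (volume : Measure (Fin 3 → ℝ)) := by
  apply isFD
  · exact MeasurableSet.univ_pi fun _ => measurableSet_Ico
  · intro z
    refine ⟨fun i => ⌊z i⌋, ?_, ?_⟩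
    · intro i _
      have h1 := Int.floor_le (z i)
      have h2 := Int.lt_floor_add_one (z i)
      exact ⟨by simpa using h1, by simp only; linarith⟩
    · intro m hm
      ext i
      have := hm i (mem_univ i)
      obtain ⟨h1, h2⟩ := this
      simp only at h1 h2
      symm
      rw [Int.floor_eq_iff]
      exact ⟨by linarith, by linarith⟩

/-- Invariance under the group. -/
theorem inv_of_per {α : Type*} (g : (Fin 3 → ℝ) → α)
    (hper : ∀ (z : Fin 3 → ℝ) (n : Fin 3 → ℤ), g (fun i => z i + n i) = g z)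
    (γ : Z3) (x : Fin 3 → ℝ) : g (γ +ᵥ x) = g x := by
  obtain ⟨y, m, rfl⟩ := γ
  have e : ((⟨iota m, m, rfl⟩ : Z3) +ᵥ x) = fun i => x i + m i := by
    ext i
    change iota m i + x i = x i + m i
    simp [iota]
    ring
  have h := hper x m
  rw [← e] at h
  exact h

end Pool.Agent.Helper552_D4.PACK

namespace Pool.Agent.Helper552_D4

open MeasureTheory Set
open scoped ENNReal Pointwise

/-- TARGET 1 -/
theorem fd_int (S : Set (Fin 3 → ℝ)) (hS : MeasurableSet S)
    (hu : ∀ z : Fin 3 → ℝ, ∃! n : Fin 3 → ℤ, (fun i => z i - n i) ∈ S)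
    (g : (Fin 3 → ℝ) → ℝ) (hper : ∀ (z : Fin 3 → ℝ) (n : Fin 3 → ℤ), g (fun i => z i + n i) = g z) :
    ∫ z in S, g z = ∫ z in cube3, g z := by
  exact (PACK.isFD S hS hu).setIntegral_eq PACK.cubeFD (PACK.inv_of_per g hper)

/-- TARGET 2 -/
theorem pack (S : Set (Fin 3 → ℝ)) (hS : MeasurableSet S)
    (hd : ∀ z ∈ S, ∀ n : Fin 3 → ℤ, n ≠ 0 → (fun i => z i - n i) ∉ S)
    (g : (Fin 3 → ℝ) → ℝ) (hg : Measurable g) (h0 : ∀ z, 0 ≤ g z)
    (hper : ∀ (z : Fin 3 → ℝ) (n : Fin 3 → ℤ), g (fun i => z i + n i) = g z)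
    (hi : IntegrableOn g cube3) :
    IntegrableOn g S ∧ ∫ z in S, g z ≤ ∫ z in cube3, g z := by
  have hcm : MeasurableSet cube3 := MeasurableSet.univ_pi fun _ => measurableSet_Ico
  have key : ∫⁻ z in S, ENNReal.ofReal (g z) ≤ ∫⁻ z in cube3, ENNReal.ofReal (g z) := by
    rw [PACK.cubeFD.setLIntegral_eq_tsum' (fun z => ENNReal.ofReal (g z)) S]
    have e1 : ∀ γ : PACK.Z3, ∫⁻ x in (γ +ᵥ S) ∩ cube3, ENNReal.ofReal (g (-γ +ᵥ x))
        = ∫⁻ x in (γ +ᵥ S) ∩ cube3, ENNReal.ofReal (g x) := by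
      intro γ
      simp only [PACK.inv_of_per g hper]
    simp only [e1]
    rw [← lintegral_iUnion]
    · apply lintegral_mono_set
      exact iUnion_subset fun γ => inter_subset_right
    · intro γ
      exact (hS.const_vadd γ).inter hcm
    · intro γ δ hγδ
      rw [Function.onFun, Set.disjoint_left]
      rintro x ⟨hx1, _⟩ ⟨hx2, _⟩
      rw [mem_vadd_set_iff_neg_vadd_mem] at hx1 hx2
      obtain ⟨y, m, rfl⟩ := γ
      obtain ⟨y', m', rfl⟩ := δ
      have hmm : m' - m ≠ 0 := by
        intro h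
        apply hγδ
        have : m = m' := by
          rw [sub_eq_zero] at h
          exact h.symm
        subst this
        rfl
      have := hd _ hx1 (m' - m) hmm
      apply this
      convert hx2 using 1
      ext i
      change (-(PACK.iota m) i + x i) - ((m' - m) i : ℤ) = -(PACK.iota m') i + x i
      simp [PACK.iota]
      ring
  have hfin : ∫⁻ z in cube3, ENNReal.ofReal (g z) < ⊤ := by
    have := hi.2
    rw [hasFiniteIntegral_iff_ofReal (Filter.Eventually.of_forall h0)] at this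
    exact this
  have hiS : IntegrableOn g S := by
    refine ⟨hg.aestronglyMeasurable, ?_⟩
    rw [hasFiniteIntegral_iff_ofReal (Filter.Eventually.of_forall h0)]
    exact key.trans_lt hfin
  refine ⟨hiS, ?_⟩
  rw [integral_eq_lintegral_of_nonneg_ae (Filter.Eventually.of_forall h0) hg.aestronglyMeasurable,
    integral_eq_lintegral_of_nonneg_ae (Filter.Eventually.of_forall h0) hg.aestronglyMeasurable]
  exact ENNReal.toReal_mono hfin.ne key

end Pool.Agent.Helper552_D4
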