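import Pool.Agent.Helper552_D4.Defs
import Pool.Agent.Helper552_D4.Pack

set_option autoImplicit false

namespace Pool.Agent.Helper552_D4

open MeasureTheory Set


namespace LAYER

theorem cube_meas : MeasurableSet cube3 :=
  MeasurableSet.univ_pi fun _ => measurableSet_Ico

theorem cube_vol : volume cube3 = 1 := by
  unfold cube3
  rw [volume_pi_pi]
  simp

theorem cube_real : volume.real cube3 = 1 := by
  rw [measureReal_def, cube_vol]; rfl

/-- Translation invariance of integrals of periodic functions. -/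
theorem trans_int (g : (Fin 3 → ℝ) → ℝ)
    (hper : ∀ (z : Fin 3 → ℝ) (n : Fin 3 → ℤ), g (fun i => z i + n i) = g z) (v : Fin 3 → ℝ) :
    ∫ z in cube3, g (z + v) = ∫ z in cube3, g z := by
  have h1 := (measurePreserving_add_right volume v).setIntegral_preimage_emb
    (measurableEmbedding_addRight v) g ((fun z : Fin 3 → ℝ => z - v) ⁻¹' cube3)
  have h2 : (fun z : Fin 3 → ℝ => z + v) ⁻¹' ((fun z : Fin 3 → ℝ => z - v) ⁻¹' cube3) = cube3 := by
    ext z; simp
  rw [h2] at h1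
  rw [h1]
  refine fd_int _ ((measurable_sub_const v) cube_meas) (fun z => ?_) g hper
  refine ⟨fun i => ⌊z i - v i⌋, ?_, fun n hn => ?_⟩
  · simp only [cube3, Set.mem_preimage, Set.mem_univ_pi, Pi.sub_apply, Set.mem_Ico]
    intro i
    have h3 := Int.floor_le (z i - v i)
    have h4 := Int.lt_floor_add_one (z i - v i)
    constructor <;> linarith
  · simp only [cube3, Set.mem_preimage, Set.mem_univ_pi, Pi.sub_apply, Set.mem_Ico] at hn
    funext i
    have h3 := hn i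
    symm
    rw [Int.floor_eq_iff]
    constructor <;> linarith

/-- The crossing point. -/
noncomputable def t0 (g : (Fin 3 → ℝ) → ℝ) (τ : Fin 3 → ℝ) (δ : ℝ) (z : Fin 3 → ℝ) : ℝ :=
  (δ + g (z - τ) - g z) / (2 * δ)

/-- The selected parabola. -/
noncomputable def sel (g : (Fin 3 → ℝ) → ℝ) (τ : Fin 3 → ℝ) (δ P Q t : ℝ) (z : Fin 3 → ℝ) : ℝ :=
  if t ≤ t0 g τ δ z then P * δ * t ^ 2 + Q * g z else P * δ * (1 - t) ^ 2 + Q * g (z - τ)

theorem int_sq (a b : ℝ) (hab : a ≤ b) (c d e : ℝ) :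
    ∫ t in Ioc a b, (c * (t - d) ^ 2 + e) = c * ((b - d) ^ 3 - (a - d) ^ 3) / 3 + e * (b - a) := by
  rw [← intervalIntegral.integral_of_le hab]
  have h : ∀ t ∈ Set.uIcc a b, HasDerivAt (fun t : ℝ => c * (t - d) ^ 3 / 3 + e * t)
      (c * (t - d) ^ 2 + e) t := by
    intro t _
    have h1 : HasDerivAt (fun t : ℝ => (t - d) ^ 3) (3 * (t - d) ^ 2) t := by
      have := ((hasDerivAt_id' t).sub_const d).fun_pow 3
      simpa using this
    have h2 : HasDerivAt (fun t : ℝ => c * (t - d) ^ 3 / 3 + e * t)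
        (c * (3 * (t - d) ^ 2) / 3 + e * 1) t :=
      ((h1.const_mul c).div_const 3).add ((hasDerivAt_id' t).const_mul e)
    rwa [show c * (3 * (t - d) ^ 2) / 3 + e * 1 = c * (t - d) ^ 2 + e by ring] at h2
  rw [intervalIntegral.integral_eq_sub_of_hasDerivAt h]
  · ring
  · exact (by fun_prop : Continuous fun t : ℝ => c * (t - d) ^ 2 + e).intervalIntegrable _ _

theorem int_sel_t (A B δ P Q : ℝ) (hδ : 0 < δ) (h1 : A - B ≤ δ) (h2 : B - A ≤ δ) :
    ∫ t in Ico (0 : ℝ) 1, (if t ≤ (δ + B - A) / (2 * δ) then P * δ * t ^ 2 + Q * A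
      else P * δ * (1 - t) ^ 2 + Q * B) =
    P * (δ / 12 + (B - A) ^ 2 / (4 * δ)) + Q * ((A + B) / 2 - (B - A) ^ 2 / (2 * δ)) := by
  set c := (δ + B - A) / (2 * δ) with hc
  have hc0 : 0 ≤ c := div_nonneg (by linarith) (by linarith)
  have hc1 : c ≤ 1 := by rw [hc, div_le_one (by linarith)]; linarith
  rw [integral_Ico_eq_integral_Ioo, ← integral_Ioc_eq_integral_Ioo]
  rw [← Ioc_union_Ioc_eq_Ioc hc0 hc1]
  have e1 : ∀ t ∈ Ioc 0 c, (if t ≤ c then P * δ * t ^ 2 + Q * A else P * δ * (1 - t) ^ 2 + Q * B) =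
      (P * δ) * (t - 0) ^ 2 + Q * A := by
    intro t ht
    rw [if_pos ht.2]; ring
  have e2 : ∀ t ∈ Ioc c 1, (if t ≤ c then P * δ * t ^ 2 + Q * A else P * δ * (1 - t) ^ 2 + Q * B) =
      (P * δ) * (t - 1) ^ 2 + Q * B := by
    intro t ht
    rw [if_neg (not_le.2 ht.1)]; ring
  have i1 : IntegrableOn (fun t : ℝ => (P * δ) * (t - 0) ^ 2 + Q * A) (Ioc 0 c) :=
    ((by fun_prop : Continuous fun t : ℝ => (P * δ) * (t - 0) ^ 2 + Q * A).integrableOn_Icc).mono_set
      Ioc_subset_Icc_self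
  have i2 : IntegrableOn (fun t : ℝ => (P * δ) * (t - 1) ^ 2 + Q * B) (Ioc c 1) :=
    ((by fun_prop : Continuous fun t : ℝ => (P * δ) * (t - 1) ^ 2 + Q * B).integrableOn_Icc).mono_set
      Ioc_subset_Icc_self
  rw [setIntegral_union _ measurableSet_Ioc
    (i1.congr_fun (fun t ht => (e1 t ht).symm) measurableSet_Ioc)
    (i2.congr_fun (fun t ht => (e2 t ht).symm) measurableSet_Ioc),
    setIntegral_congr_fun measurableSet_Ioc e1, setIntegral_congr_fun measurableSet_Ioc e2,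
    int_sq _ _ hc0, int_sq _ _ hc1, hc]
  · field_simp
    ring
  · rw [Set.disjoint_left]
    intro x hx hx'
    exact absurd hx.2 (not_le.2 hx'.1)

variable {g : (Fin 3 → ℝ) → ℝ} {τ : Fin 3 → ℝ} {δ : ℝ}

theorem sel_meas (hm : Measurable g) (P Q : ℝ) :
    Measurable (fun x : ℝ × (Fin 3 → ℝ) => sel g τ δ P Q x.1 x.2) := by
  unfold sel t0
  refine Measurable.ite ?_ ?_ ?_
  · refine measurableSet_le measurable_fst ?_
    exact (((measurable_const.add (hm.comp (measurable_snd.sub_const τ))).sub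
      (hm.comp measurable_snd))).div_const _
  · exact ((measurable_const.mul (measurable_fst.pow_const 2))).add
      ((hm.comp measurable_snd).const_mul Q)
  · exact ((measurable_const.mul ((measurable_const.sub measurable_fst).pow_const 2))).add
      ((hm.comp (measurable_snd.sub_const τ)).const_mul Q)

theorem sel_bound (hδ : 0 < δ) (h0 : ∀ z, 0 ≤ g z) (h1 : ∀ z, g z ≤ δ) (P Q t : ℝ)
    (ht : t ∈ Ico (0 : ℝ) 1) (z : Fin 3 → ℝ) : ‖sel g τ δ P Q t z‖ ≤ |P| * δ + |Q| * δ := by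
  have key : ∀ s : ℝ, 0 ≤ s → s ≤ 1 → ∀ w, ‖P * δ * s ^ 2 + Q * g w‖ ≤ |P| * δ + |Q| * δ := by
    intro s hs0 hs1 w
    have h2 : s ^ 2 ≤ 1 := by nlinarith
    have h3 : 0 ≤ s ^ 2 := sq_nonneg s
    have h4 := h0 w
    have h5 := h1 w
    rw [Real.norm_eq_abs]
    calc |P * δ * s ^ 2 + Q * g w| ≤ |P * δ * s ^ 2| + |Q * g w| := abs_add_le _ _
      _ = |P| * δ * s ^ 2 + |Q| * g w := by
          rw [abs_mul, abs_mul, abs_mul, abs_of_pos hδ, abs_of_nonneg h3, abs_of_nonneg h4]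
      _ ≤ |P| * δ * 1 + |Q| * δ := by gcongr
      _ = |P| * δ + |Q| * δ := by ring
  unfold sel
  split_ifs
  · exact key t ht.1 ht.2.le z
  · exact key (1 - t) (by linarith [ht.2]) (by linarith [ht.1]) (z - τ)

theorem sel_integrable (hm : Measurable g) (hδ : 0 < δ) (h0 : ∀ z, 0 ≤ g z) (h1 : ∀ z, g z ≤ δ)
    (P Q : ℝ) : Integrable (Function.uncurry (sel g τ δ P Q))
      ((volume.restrict (Ico (0 : ℝ) 1)).prod (volume.restrict cube3)) := by
  have : IsFiniteMeasure (volume.restrict cube3) := ⟨by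
    rw [Measure.restrict_apply_univ, cube_vol]; exact ENNReal.one_lt_top⟩
  refine Integrable.of_bound (sel_meas hm P Q).aestronglyMeasurable (|P| * δ + |Q| * δ) ?_
  rw [Measure.prod_restrict, ae_restrict_iff' (measurableSet_Ico.prod cube_meas)]
  exact Filter.Eventually.of_forall fun x hx => sel_bound hδ h0 h1 P Q x.1 hx.1 x.2

theorem bdd_int {f : (Fin 3 → ℝ) → ℝ} (hf : Measurable f) (C : ℝ) (h : ∀ z, |f z| ≤ C) :
    Integrable f (volume.restrict cube3) := by
  have : IsFiniteMeasure (volume.restrict cube3) := ⟨by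
    rw [Measure.restrict_apply_univ, cube_vol]; exact ENNReal.one_lt_top⟩
  exact Integrable.of_bound hf.aestronglyMeasurable C (Filter.Eventually.of_forall h)

theorem sel_value (hm : Measurable g)
    (hper : ∀ (z : Fin 3 → ℝ) (n : Fin 3 → ℤ), g (fun i => z i + n i) = g z)
    (hδ : 0 < δ) (h0 : ∀ z, 0 ≤ g z) (h1 : ∀ z, g z ≤ δ) (P Q : ℝ) :
    ∫ t in Ico (0 : ℝ) 1, ∫ z in cube3, sel g τ δ P Q t z =
      P * (δ / 12 + (1 / (4 * δ)) * ∫ z in cube3, (g (z - τ) - g z) ^ 2)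
        + Q * ((∫ z in cube3, g z) - (1 / (2 * δ)) * ∫ z in cube3, (g (z - τ) - g z) ^ 2) := by
  rw [integral_integral_swap (sel_integrable hm hδ h0 h1 P Q)]
  have hz : ∀ z : Fin 3 → ℝ, ∫ t in Ico (0 : ℝ) 1, sel g τ δ P Q t z =
      P * δ / 12 + Q / 2 * g z + Q / 2 * g (z - τ) +
        (P / (4 * δ) - Q / (2 * δ)) * (g (z - τ) - g z) ^ 2 := by
    intro z
    have := int_sel_t (g z) (g (z - τ)) δ P Q hδ (by linarith [h1 z, h0 (z - τ)])
      (by linarith [h1 (z - τ), h0 z])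
    unfold sel t0
    rw [this]
    field_simp
    ring
  simp only [hz]
  have hmτ : Measurable fun z : Fin 3 → ℝ => g (z - τ) := hm.comp (measurable_sub_const τ)
  have i1 : Integrable g (volume.restrict cube3) := bdd_int hm δ fun z => by
    rw [abs_of_nonneg (h0 z)]; exact h1 z
  have i2 : Integrable (fun z => g (z - τ)) (volume.restrict cube3) := bdd_int hmτ δ fun z => by
    rw [abs_of_nonneg (h0 _)]; exact h1 _
  have i3 : Integrable (fun z => (g (z - τ) - g z) ^ 2) (volume.restrict cube3) :=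
    bdd_int ((hmτ.sub hm).pow_const 2) (δ ^ 2) fun z => by
      rw [abs_of_nonneg (sq_nonneg _)]
      have a1 := h0 z
      have a2 := h1 z
      have a3 := h0 (z - τ)
      have a4 := h1 (z - τ)
      rw [sq_le_sq, abs_of_pos hδ, abs_le]
      constructor <;> linarith
  have i4 : Integrable (fun _ : Fin 3 → ℝ => P * δ / 12) (volume.restrict cube3) :=
    bdd_int measurable_const _ fun z => le_rfl
  have htr : ∫ z in cube3, g (z - τ) = ∫ z in cube3, g z := by
    have := trans_int g hper (-τ)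
    simpa [sub_eq_add_neg] using this
  have j1 : Integrable (fun z => P * δ / 12 + Q / 2 * g z) (volume.restrict cube3) :=
    i4.add (i1.const_mul _)
  have j2 : Integrable (fun z => P * δ / 12 + Q / 2 * g z + Q / 2 * g (z - τ))
      (volume.restrict cube3) := j1.add (i2.const_mul _)
  rw [integral_add j2 (i3.const_mul _), integral_add j1 (i2.const_mul _),
    integral_add i4 (i1.const_mul _), integral_const_mul, integral_const_mul, integral_const_mul,
    htr, integral_const, measureReal_restrict_apply_univ, cube_real]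
  simp only [smul_eq_mul, one_mul]
  field_simp
  ring

theorem sel_per (hper : ∀ (z : Fin 3 → ℝ) (n : Fin 3 → ℤ), g (fun i => z i + n i) = g z)
    (P Q t : ℝ) (z : Fin 3 → ℝ) (n : Fin 3 → ℤ) :
    sel g τ δ P Q t (fun i => z i + n i) = sel g τ δ P Q t z := by
  have h1 : g ((fun i => z i + n i) - τ) = g (z - τ) := by
    rw [← hper (z - τ) n]
    congr 1
    funext i
    simp only [Pi.sub_apply]
    ring
  unfold sel t0
  rw [h1, hper]

theorem sel_shift (hper : ∀ (z : Fin 3 → ℝ) (n : Fin 3 → ℤ), g (fun i => z i + n i) = g z)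
    (P Q t : ℝ) : ∫ z in cube3, sel g τ δ P Q t (z + t • τ) = ∫ z in cube3, sel g τ δ P Q t z :=
  trans_int (fun z => sel g τ δ P Q t z) (fun z n => sel_per hper P Q t z n) _

theorem arg0 (z τ : Fin 3 → ℝ) (t : ℝ) : z + (t - ((0 : ℤ) : ℝ)) • τ = z + t • τ := by simp

theorem arg1 (z τ : Fin 3 → ℝ) (t : ℝ) : z + (t - ((1 : ℤ) : ℝ)) • τ = z + t • τ - τ := by
  rw [Int.cast_one, sub_smul, one_smul]; abel

theorem bddb (P Q : ℝ) (hP : 0 ≤ P) (hQ : 0 ≤ Q) (h0 : ∀ z, 0 ≤ g z) (t : ℝ) (z : Fin 3 → ℝ) :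
    BddBelow (range fun j : ℤ => P * (t - j) ^ 2 + Q * g (z + (t - j) • τ)) := by
  refine ⟨0, ?_⟩
  rintro x ⟨j, rfl⟩
  have := h0 (z + (t - j) • τ)
  positivity

theorem inf_le_sel (P Q : ℝ) (hP : 0 ≤ P) (hQ : 0 ≤ Q) (hδ : 0 < δ) (h0 : ∀ z, 0 ≤ g z) (t : ℝ)
    (z : Fin 3 → ℝ) :
    ⨅ j : ℤ, (P * δ * (t - j) ^ 2 + Q * g (z + (t - j) • τ)) ≤ sel g τ δ P Q t (z + t • τ) := by
  have hb := bddb (τ := τ) (P * δ) Q (by positivity) hQ h0 t z
  unfold sel
  split_ifs
  · refine (ciInf_le hb 0).trans ?_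
    rw [arg0]; simp
  · refine (ciInf_le hb 1).trans ?_
    rw [arg1, Int.cast_one, show (t - 1) ^ 2 = (1 - t) ^ 2 by ring]

theorem inf_eq_sel (hδ : 0 < δ) (h0 : ∀ z, 0 ≤ g z) (h1 : ∀ z, g z ≤ δ) (t : ℝ)
    (ht : t ∈ Ico (0 : ℝ) 1) (z : Fin 3 → ℝ) :
    ⨅ j : ℤ, (δ * (t - j) ^ 2 + g (z + (t - j) • τ)) = sel g τ δ 1 1 t (z + t • τ) := by
  apply le_antisymm
  · have := inf_le_sel (g := g) (τ := τ) 1 1 zero_le_one zero_le_one hδ h0 t z
    simpa using this
  · refine le_ciInf fun j => ?_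
    set A := g (z + t • τ) with hA
    set B := g (z + t • τ - τ) with hB
    have hs : sel g τ δ 1 1 t (z + t • τ) ≤ δ * t ^ 2 + A ∧
        sel g τ δ 1 1 t (z + t • τ) ≤ δ * (1 - t) ^ 2 + B := by
      unfold sel t0
      rw [← hA, ← hB]
      split_ifs with hc
      · rw [le_div_iff₀ (by linarith)] at hc
        constructor <;> nlinarith
      · rw [not_le, div_lt_iff₀ (by linarith)] at hc
        constructor <;> nlinarith
    have a1 : A ≤ δ := h1 _
    have a2 : B ≤ δ := h1 _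
    have a3 := h0 (z + (t - j) • τ)
    obtain ⟨ht0, ht1⟩ := ht
    rcases lt_trichotomy j 0 with hj | hj | hj
    · refine hs.1.trans ?_
      have hj' : (j : ℝ) ≤ -1 := by exact_mod_cast (by omega : j ≤ -1)
      have h2 : t ^ 2 + 1 ≤ (t - j) ^ 2 := by nlinarith
      nlinarith
    · subst hj
      rw [arg0]
      refine hs.1.trans ?_
      simp [hA]
    · rcases (show j = 1 ∨ 2 ≤ j by omega) with hj1 | hj1
      · subst hj1
        rw [arg1]
        refine hs.2.trans (le_of_eq ?_)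
        rw [Int.cast_one, show (t - 1) ^ 2 = (1 - t) ^ 2 by ring]
      · refine hs.2.trans ?_
        have hj' : (2 : ℝ) ≤ j := by exact_mod_cast hj1
        have h2 : (1 - t) ^ 2 + 1 ≤ (t - j) ^ 2 := by nlinarith
        nlinarith

end LAYER

open LAYER

/-- TARGET 1 -/
theorem layer_formula (g : (Fin 3 → ℝ) → ℝ) (hm : Measurable g)
    (hper : ∀ (z : Fin 3 → ℝ) (n : Fin 3 → ℤ), g (fun i => z i + n i) = g z)
    (τ : Fin 3 → ℝ) (δ : ℝ) (hδ : 0 < δ) (h0 : ∀ z, 0 ≤ g z) (h1 : ∀ z, g z ≤ δ) :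
    F4 g τ δ = δ / 12 + (∫ z in cube3, g z)
      - (1 / (4 * δ)) * ∫ z in cube3, (g (z - τ) - g z) ^ 2 := by
  have h : F4 g τ δ = ∫ t in Ico (0 : ℝ) 1, ∫ z in cube3, sel g τ δ 1 1 t z := by
    unfold F4
    refine setIntegral_congr_fun measurableSet_Ico fun t ht => ?_
    rw [← sel_shift hper]
    refine integral_congr_ae (Filter.Eventually.of_forall fun z => ?_)
    exact inf_eq_sel hδ h0 h1 t ht z
  rw [h, sel_value hm hper hδ h0 h1]
  field_simp
  ring

/-- TARGET 2 -/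
theorem layer_bound (g : (Fin 3 → ℝ) → ℝ) (hm : Measurable g)
    (hper : ∀ (z : Fin 3 → ℝ) (n : Fin 3 → ℤ), g (fun i => z i + n i) = g z)
    (τ : Fin 3 → ℝ) (δ : ℝ) (hδ : 0 < δ) (h0 : ∀ z, 0 ≤ g z) (h1 : ∀ z, g z ≤ δ)
    (p q : ℝ) (hp : 0 < p) (hq : 0 < q) :
    F4 (fun z => q * g z) τ (p * δ) ≤
      p * (δ / 12 + (1 / (4 * δ)) * ∫ z in cube3, (g (z - τ) - g z) ^ 2)
        + q * ((∫ z in cube3, g z) - (1 / (2 * δ)) * ∫ z in cube3, (g (z - τ) - g z) ^ 2) := by
  rw [← sel_value (τ := τ) hm hper hδ h0 h1 p q]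
  unfold F4
  have hinf : ∀ (t : ℝ) (z : Fin 3 → ℝ),
      0 ≤ ⨅ j : ℤ, (p * δ * (t - j) ^ 2 + q * g (z + (t - j) • τ)) := by
    intro t z
    refine le_ciInf fun j => ?_
    have := h0 (z + (t - j) • τ)
    positivity
  have hI := sel_integrable (τ := τ) hm hδ h0 h1 p q
  refine integral_mono_of_nonneg (Filter.Eventually.of_forall fun t =>
    integral_nonneg fun z => hinf t z) hI.integral_prod_left ?_
  rw [Filter.EventuallyLE, ae_restrict_iff' measurableSet_Ico]
  refine Filter.Eventually.of_forall fun t ht => ?_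
  simp only
  rw [← sel_shift hper]
  refine integral_mono_of_nonneg (Filter.Eventually.of_forall fun z => hinf t z) ?_
    (Filter.Eventually.of_forall fun z => inf_le_sel p q hp.le hq.le hδ h0 t z)
  have : IsFiniteMeasure (volume.restrict cube3) := ⟨by
    rw [Measure.restrict_apply_univ, cube_vol]; exact ENNReal.one_lt_top⟩
  refine Integrable.of_bound ?_ (|p| * δ + |q| * δ)
    (Filter.Eventually.of_forall fun z => sel_bound hδ h0 h1 p q t ht _)
  refine Measurable.aestronglyMeasurable ?_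
  exact (sel_meas (τ := τ) hm p q).comp (measurable_const.prodMk (measurable_id.add_const _))

end Pool.Agent.Helper552_D4
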