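import Pool.Agent.Helper552_D4.Defs
import Pool.Agent.Helper552_D4.FBasic
import Pool.Agent.Helper552_D4.Pack
import Pool.Agent.Helper552_D4.Layer

set_option autoImplicit false

namespace Pool.Agent.Helper552_D4

open MeasureTheory Set








namespace D4INT

/-- The three-dimensional torus. -/
abbrev T3 := Fin 3 → UnitAddCircle

/-- The linear map from the lattice coordinates to the coordinates of the cubic lattice. -/
noncomputable def AT : T3 →+ T3 where
  toFun t := ![t 0 - t 1 + t 2, t 0 - t 2, t 1]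
  map_zero' := by
    funext i
    fin_cases i <;> simp
  map_add' x y := by
    funext i
    fin_cases i <;> simp <;> abel

theorem AT_cont : Continuous AT := by
  change Continuous (fun t : T3 => (![t 0 - t 1 + t 2, t 0 - t 2, t 1] : T3))
  refine continuous_pi fun i => ?_
  fin_cases i
  · simp only [Fin.zero_eta, Matrix.cons_val_zero]; fun_prop
  · simp only [Fin.mk_one, Matrix.cons_val_one, Matrix.cons_val_zero]; fun_prop
  · simp only [Fin.reduceFinMk, Matrix.cons_val]; fun_prop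

theorem AT_surj : Function.Surjective AT := by
  intro y
  have h : ∀ i, ∃ x : ℝ, (x : UnitAddCircle) = y i := fun i => QuotientAddGroup.mk_surjective (y i)
  choose x hx using h
  refine ⟨![(((x 0 + x 2 + x 1) / 2 : ℝ) : UnitAddCircle), ((x 2 : ℝ) : UnitAddCircle),
    (((x 0 + x 2 - x 1) / 2 : ℝ) : UnitAddCircle)], ?_⟩
  funext i
  rw [← hx i]
  fin_cases i
  · simp only [AT, AddMonoidHom.coe_mk, ZeroHom.coe_mk, Fin.zero_eta, Matrix.cons_val]
    rw [← AddCircle.coe_sub, ← AddCircle.coe_add]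
    congr 1; ring
  · simp only [AT, AddMonoidHom.coe_mk, ZeroHom.coe_mk, Fin.mk_one, Matrix.cons_val]
    rw [← AddCircle.coe_sub]
    congr 1; ring
  · simp only [AT, AddMonoidHom.coe_mk, ZeroHom.coe_mk, Fin.reduceFinMk, Matrix.cons_val]

theorem AT_mp : MeasurePreserving AT (volume : Measure T3) volume :=
  AddMonoidHom.measurePreserving AT_cont AT_surj rfl

/-- The projection to the torus. -/
noncomputable def qq (z : Fin 3 → ℝ) : T3 := fun i => (z i : UnitAddCircle)

theorem cube3_ae : (volume : Measure (Fin 3 → ℝ)).restrict cube3 =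
    Measure.pi (fun _ : Fin 3 => (volume : Measure ℝ).restrict (Ioc (0 : ℝ) (0 + 1))) := by
  rw [cube3, ← Measure.restrict_pi_pi]
  refine Measure.restrict_congr_set ?_
  refine Measure.ae_eq_set_pi ?_
  intro i _
  rw [zero_add]
  exact Ico_ae_eq_Ioc

theorem qq_mp : MeasurePreserving qq ((volume : Measure (Fin 3 → ℝ)).restrict cube3) volume := by
  rw [cube3_ae]
  exact measurePreserving_pi _ _ (fun _ => UnitAddCircle.measurePreserving_mk 0)

/-- The function on the torus. -/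
noncomputable def HH (t : T3) : ℝ := ‖t 0‖ ^ 2 + ‖t 1‖ ^ 2 + ‖t 2‖ ^ 2 - ‖t‖ ^ 2

theorem HH_cont : Continuous HH := by
  unfold HH
  fun_prop

theorem norm_le_half (t : UnitAddCircle) : ‖t‖ ≤ 1 / 2 := by
  have := AddCircle.norm_le_half_period (1 : ℝ) (x := t) one_ne_zero
  simpa using this

theorem norm_le_half' (t : T3) : ‖t‖ ≤ 1 / 2 :=
  (pi_norm_le_iff_of_nonneg (by norm_num)).2 fun i => norm_le_half (t i)

instance : IsProbabilityMeasure (volume : Measure UnitAddCircle) := ⟨UnitAddCircle.measure_univ⟩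

theorem mp_int {α β : Type} [MeasurableSpace α] [MeasurableSpace β] {μ : Measure α} {ν : Measure β}
    {f : α → β} (h : MeasurePreserving f μ ν) (g : β → ℝ) (hg : AEStronglyMeasurable g ν) :
    ∫ x, g (f x) ∂μ = ∫ y, g y ∂ν := by
  rw [← h.map_eq, integral_map h.aemeasurable (h.map_eq ▸ hg)]

theorem int_coord (i : Fin 3) : ∫ t : T3, ‖t i‖ ^ 2 = 1 / 12 := by
  have hm := measurePreserving_eval (fun _ : Fin 3 => (volume : Measure UnitAddCircle)) i
  have hc : Continuous fun x : UnitAddCircle => ‖x‖ ^ 2 := by fun_prop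
  have h1 : ∫ t : T3, ‖t i‖ ^ 2 = ∫ x : UnitAddCircle, ‖x‖ ^ 2 :=
    mp_int hm (fun x => ‖x‖ ^ 2) hc.aestronglyMeasurable
  rw [h1, ← UnitAddCircle.intervalIntegral_preimage (-(1 / 2)) (fun x => ‖x‖ ^ 2)]
  have h2 : ∫ a in (-(1 / 2) : ℝ)..(-(1 / 2)) + 1, ‖(a : UnitAddCircle)‖ ^ 2 =
      ∫ a in (-(1 / 2) : ℝ)..(-(1 / 2)) + 1, a ^ 2 := by
    refine intervalIntegral.integral_congr ?_
    intro x hx
    rw [uIcc_of_le (by norm_num)] at hx
    have h3 : ‖(x : UnitAddCircle)‖ = |x| := by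
      refine (AddCircle.norm_coe_eq_abs_iff (1 : ℝ) one_ne_zero).2 ?_
      rw [abs_one, abs_le]
      constructor
      · linarith [hx.1]
      · have := hx.2; linarith
    show ‖(x : UnitAddCircle)‖ ^ 2 = x ^ 2
    rw [h3, sq_abs]
  rw [h2, integral_pow]
  norm_num

theorem meas_le {u : ℝ} (h0 : 0 ≤ u) (h1 : u ≤ 1 / 2) :
    (volume : Measure T3).real {t : T3 | u ≤ ‖t‖} = 1 - 8 * u ^ 3 := by
  have hne : (volume : Measure T3).real {t : T3 | u ≤ ‖t‖} =
      (volume : Measure T3).real (Metric.ball (0 : T3) u)ᶜ := by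
    congr 1
    ext t
    simp
  rw [hne, probReal_compl_eq_one_sub Metric.isOpen_ball.measurableSet]
  congr 1
  rcases h0.eq_or_lt with h | h
  · subst h
    simp
  · have h2 : ∀ i : Fin 3, (volume : Measure UnitAddCircle) (Metric.ball ((0 : T3) i) u) =
        ENNReal.ofReal (2 * u) := by
      intro i
      rw [← measure_congr (AddCircle.closedBall_ae_eq_ball (T := 1)), AddCircle.volume_closedBall,
        min_eq_right (by linarith)]
    rw [measureReal_def, volume_pi_ball _ h]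
    simp only [h2, Finset.prod_const, Finset.card_univ, Fintype.card_fin]
    rw [ENNReal.toReal_pow, ENNReal.toReal_ofReal (by positivity)]
    ring

theorem int_norm : ∫ t : T3, ‖t‖ ^ 2 = 3 / 20 := by
  have hc : Continuous fun t : T3 => ‖t‖ ^ 2 := by fun_prop
  have hi : Integrable (fun t : T3 => ‖t‖ ^ 2) := by
    refine Integrable.of_bound hc.aestronglyMeasurable (1 / 4) (ae_of_all _ fun t => ?_)
    have := norm_le_half' t
    have h0 := norm_nonneg t
    rw [Real.norm_eq_abs, abs_of_nonneg (by positivity)]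
    nlinarith
  rw [hi.integral_eq_integral_Ioc_meas_le (M := 1 / 4) (ae_of_all _ fun t => by positivity)
    (ae_of_all _ fun t => by
      have := norm_le_half' t
      have h0 := norm_nonneg t
      show ‖t‖ ^ 2 ≤ 1 / 4
      nlinarith)]
  have h1 : ∫ t in Ioc (0 : ℝ) (1 / 4), (volume : Measure T3).real {a : T3 | t ≤ ‖a‖ ^ 2} =
      ∫ t in Ioc (0 : ℝ) (1 / 4), (1 - 8 * t ^ (3 / 2 : ℝ)) := by
    refine setIntegral_congr_fun measurableSet_Ioc ?_
    intro t ht
    have h2 : {a : T3 | t ≤ ‖a‖ ^ 2} = {a : T3 | √t ≤ ‖a‖} := by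
      ext a
      simp only [mem_ofPred_eq]
      rw [Real.sqrt_le_left (norm_nonneg a)]
    have h3 : √t ≤ 1 / 2 := by
      rw [Real.sqrt_le_left (by norm_num)]
      norm_num
      have := ht.2
      linarith
    show (volume : Measure T3).real {a : T3 | t ≤ ‖a‖ ^ 2} = 1 - 8 * t ^ (3 / 2 : ℝ)
    rw [h2, meas_le (Real.sqrt_nonneg t) h3]
    congr 2
    rw [Real.sqrt_eq_rpow, ← Real.rpow_natCast, ← Real.rpow_mul ht.1.le]
    norm_num
  rw [h1, ← intervalIntegral.integral_of_le (by norm_num)]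
  rw [intervalIntegral.integral_sub (by simp) ?_, intervalIntegral.integral_const_mul,
    integral_rpow (by left; norm_num)]
  · rw [intervalIntegral.integral_const]
    norm_num
  · refine (intervalIntegral.intervalIntegrable_rpow' (by norm_num)).const_mul 8

theorem int_HH : ∫ t : T3, HH t = 1 / 10 := by
  have hb : ∀ i : Fin 3, Integrable (fun t : T3 => ‖t i‖ ^ 2) := by
    intro i
    have hc : Continuous fun t : T3 => ‖t i‖ ^ 2 := by fun_prop
    refine Integrable.of_bound hc.aestronglyMeasurable (1 / 4) (ae_of_all _ fun t => ?_)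
    have := norm_le_half (t i)
    have h0 := norm_nonneg (t i)
    rw [Real.norm_eq_abs, abs_of_nonneg (by positivity)]
    nlinarith
  have hn : Integrable (fun t : T3 => ‖t‖ ^ 2) := by
    have hc : Continuous fun t : T3 => ‖t‖ ^ 2 := by fun_prop
    refine Integrable.of_bound hc.aestronglyMeasurable (1 / 4) (ae_of_all _ fun t => ?_)
    have := norm_le_half' t
    have h0 := norm_nonneg t
    rw [Real.norm_eq_abs, abs_of_nonneg (by positivity)]
    nlinarith
  unfold HH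
  have h1 : Integrable (fun t : T3 => ‖t 0‖ ^ 2 + ‖t 1‖ ^ 2) := (hb 0).add (hb 1)
  have h2 : Integrable (fun t : T3 => ‖t 0‖ ^ 2 + ‖t 1‖ ^ 2 + ‖t 2‖ ^ 2) := h1.add (hb 2)
  rw [integral_sub h2 hn, int_norm, integral_add h1 (hb 2), integral_add (hb 0) (hb 1), int_coord,
    int_coord, int_coord]
  norm_num

theorem int_cube : ∫ z in cube3, HH (AT (qq z)) = 1 / 10 := by
  have h1 : ∫ z in cube3, HH (AT (qq z)) = ∫ t : T3, HH t :=
    mp_int (AT_mp.comp qq_mp) HH HH_cont.aestronglyMeasurable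
  rw [h1, int_HH]

/-- The function of the theorem. -/
noncomputable def gg : (Fin 3 → ℝ) → ℝ := f3 1 0 1 1 0 1

/-- the shift -/
noncomputable def tau : Fin 3 → ℝ := ![1 / 2, 0, 1 / 2]

theorem gg_le (z : Fin 3 → ℝ) : gg z ≤ 1 := by
  have := f3_le 1 0 1 1 0 1 (by norm_num) (by norm_num) (by norm_num) (by norm_num) (by norm_num)
    (by norm_num) z
  norm_num at this
  exact this

theorem gg_nonneg (z : Fin 3 → ℝ) : 0 ≤ gg z :=
  f3_nonneg 1 0 1 1 0 1 (by norm_num) (by norm_num) (by norm_num) (by norm_num) (by norm_num)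
    (by norm_num) z

theorem gg_meas : Measurable gg :=
  measurable_f3 1 0 1 1 0 1 (by norm_num) (by norm_num) (by norm_num) (by norm_num) (by norm_num)
    (by norm_num)

theorem gg_per (z : Fin 3 → ℝ) (n : Fin 3 → ℤ) : gg (fun i => z i + n i) = gg z :=
  f3_per 1 0 1 1 0 1 z n

/-- Upper bound by a lattice point: `m` are the coordinates of a point of the lattice of all
integer vectors with even sum. -/
theorem gg_le_pt (z : Fin 3 → ℝ) (m0 m1 m2 : ℤ) (h : Even (m0 + m1 + m2)) :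
    gg z ≤ (z 0 - z 1 + z 2 - m0) ^ 2 + (z 0 - z 2 - m1) ^ 2 + (z 1 - m2) ^ 2 := by
  obtain ⟨k, hk⟩ := h
  have := f3_le_K3 1 0 1 1 0 1 (by norm_num) (by norm_num) (by norm_num) (by norm_num) (by norm_num)
    (by norm_num) z ![k, m2, k - m1]
  refine this.trans (le_of_eq ?_)
  have hk' : (m0 : ℝ) + m1 + m2 = k + k := by exact_mod_cast hk
  simp only [K3, Matrix.cons_val_zero, Matrix.cons_val_one, Matrix.cons_val]
  push_cast
  have : (m0 : ℝ) = k + k - m1 - m2 := by linarith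
  rw [this]
  ring

theorem sq_shift (y : ℝ) : ∃ e : ℤ, (e = 1 ∨ e = -1) ∧ (y - e) ^ 2 = y ^ 2 + 1 - 2 * |y| := by
  rcases le_total 0 y with h | h
  · refine ⟨1, Or.inl rfl, ?_⟩
    rw [abs_of_nonneg h]; push_cast; ring
  · refine ⟨-1, Or.inr rfl, ?_⟩
    rw [abs_of_nonpos h]; push_cast; ring

theorem gg_odd (z : Fin 3 → ℝ) (m0 m1 m2 : ℤ) (h : ¬ Even (m0 + m1 + m2)) (y0 y1 y2 : ℝ)
    (h0 : z 0 - z 1 + z 2 - m0 = y0) (h1 : z 0 - z 2 - m1 = y1) (h2 : z 1 - m2 = y2) :
    gg z ≤ y0 ^ 2 + y1 ^ 2 + y2 ^ 2 + 1 - 2 * |y0| ∧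
    gg z ≤ y0 ^ 2 + y1 ^ 2 + y2 ^ 2 + 1 - 2 * |y1| ∧
    gg z ≤ y0 ^ 2 + y1 ^ 2 + y2 ^ 2 + 1 - 2 * |y2| := by
  rw [Int.even_iff] at h
  refine ⟨?_, ?_, ?_⟩
  · obtain ⟨e, he, hy⟩ := sq_shift y0
    have := gg_le_pt z (m0 + e) m1 m2 (by rw [Int.even_iff]; rcases he with rfl | rfl <;> omega)
    rw [h1, h2] at this
    have h3 : z 0 - z 1 + z 2 - ((m0 + e : ℤ) : ℝ) = y0 - e := by push_cast; linarith
    rw [h3] at this
    linarith
  · obtain ⟨e, he, hy⟩ := sq_shift y1
    have := gg_le_pt z m0 (m1 + e) m2 (by rw [Int.even_iff]; rcases he with rfl | rfl <;> omega)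
    rw [h0, h2] at this
    have h3 : z 0 - z 2 - ((m1 + e : ℤ) : ℝ) = y1 - e := by push_cast; linarith
    rw [h3] at this
    linarith
  · obtain ⟨e, he, hy⟩ := sq_shift y2
    have := gg_le_pt z m0 m1 (m2 + e) (by rw [Int.even_iff]; rcases he with rfl | rfl <;> omega)
    rw [h0, h1] at this
    have h3 : z 1 - ((m2 + e : ℤ) : ℝ) = y2 - e := by push_cast; linarith
    rw [h3] at this
    linarith

theorem ineq (a b s m : ℝ) (ha1 : a ≤ 1) (hb0 : 0 ≤ b) (hb1 : b ≤ 1)
    (hs0 : 0 ≤ s) (hs : s ≤ 3 / 4) (hm : 0 ≤ m) (has : a ≤ s)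
    (hb : m ≤ (s + 1 - b) / 2) : (a + b) / 2 - (b - a) ^ 2 / 4 ≤ s + 1 / 4 - m ^ 2 := by
  have h1 : 0 ≤ (s - a) * (2 + 2 * b - s - a) := mul_nonneg (by linarith) (by linarith)
  have h2 : 0 ≤ (s + 1 - 2 * m - b) * (1 + 2 * m - (b - s)) :=
    mul_nonneg (by linarith) (by linarith)
  nlinarith [h1, h2]

theorem pointwise (z : Fin 3 → ℝ) :
    (gg z + gg (z - tau)) / 2 - (gg (z - tau) - gg z) ^ 2 / 4 ≤ HH (AT (qq z)) + 1 / 4 := by
  set t : T3 := AT (qq z) with ht
  set x0 : ℝ := z 0 - z 1 + z 2 with hx0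
  set x1 : ℝ := z 0 - z 2 with hx1
  set x2 : ℝ := z 1 with hx2
  have ht0 : ‖t 0‖ = |x0 - round x0| := by
    have : t 0 = ((x0 : ℝ) : UnitAddCircle) := by
      simp only [ht, AT, qq, AddMonoidHom.coe_mk, ZeroHom.coe_mk, Matrix.cons_val_zero, hx0]
      rw [← AddCircle.coe_sub, ← AddCircle.coe_add]
    rw [this, UnitAddCircle.norm_eq]
  have ht1 : ‖t 1‖ = |x1 - round x1| := by
    have : t 1 = ((x1 : ℝ) : UnitAddCircle) := by
      simp only [ht, AT, qq, AddMonoidHom.coe_mk, ZeroHom.coe_mk, Matrix.cons_val_one,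
        Matrix.cons_val_zero, hx1]
      rw [← AddCircle.coe_sub]
    rw [this, UnitAddCircle.norm_eq]
  have ht2 : ‖t 2‖ = |x2 - round x2| := by
    have : t 2 = ((x2 : ℝ) : UnitAddCircle) := by
      simp only [ht, AT, qq, AddMonoidHom.coe_mk, ZeroHom.coe_mk, Matrix.cons_val, hx2]
    rw [this, UnitAddCircle.norm_eq]
  have hT0 : tau 0 = 1 / 2 := rfl
  have hT1 : tau 1 = 0 := rfl
  have hT2 : tau 2 = 1 / 2 := rfl
  set y0 : ℝ := x0 - round x0 with hy0
  set y1 : ℝ := x1 - round x1 with hy1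
  set y2 : ℝ := x2 - round x2 with hy2
  have hb0 : |y0| ≤ 1 / 2 := abs_sub_round x0
  have hb1 : |y1| ≤ 1 / 2 := abs_sub_round x1
  have hb2 : |y2| ≤ 1 / 2 := abs_sub_round x2
  have hq : ∀ y : ℝ, |y| ≤ 1 / 2 → y ^ 2 ≤ 1 / 4 := by
    intro y hy
    rw [← sq_abs]
    nlinarith [abs_nonneg y]
  have hs : y0 ^ 2 + y1 ^ 2 + y2 ^ 2 ≤ 3 / 4 := by
    linarith [hq y0 hb0, hq y1 hb1, hq y2 hb2]
  have hHH : HH t = y0 ^ 2 + y1 ^ 2 + y2 ^ 2 - ‖t‖ ^ 2 := by
    unfold HH
    rw [ht0, ht1, ht2, sq_abs, sq_abs, sq_abs]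
  have hmax : ∀ b : ℝ, b ≤ 1 → b ≤ y0 ^ 2 + y1 ^ 2 + y2 ^ 2 + 1 - 2 * |y0| →
      b ≤ y0 ^ 2 + y1 ^ 2 + y2 ^ 2 + 1 - 2 * |y1| → b ≤ y0 ^ 2 + y1 ^ 2 + y2 ^ 2 + 1 - 2 * |y2| →
      ‖t‖ ≤ (y0 ^ 2 + y1 ^ 2 + y2 ^ 2 + 1 - b) / 2 := by
    intro b hb h0 h1 h2
    refine (pi_norm_le_iff_of_nonneg (by nlinarith [sq_nonneg y0, sq_nonneg y1, sq_nonneg y2])).2 ?_
    intro i
    fin_cases i
    · show ‖t 0‖ ≤ _
      rw [ht0]; linarith
    · show ‖t 1‖ ≤ _
      rw [ht1]; linarith
    · show ‖t 2‖ ≤ _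
      rw [ht2]; linarith
  have e0 : (z - tau) 0 - (z - tau) 1 + (z - tau) 2 - ((round x0 - 1 : ℤ) : ℝ) = y0 := by
    simp only [Pi.sub_apply, hT0, hT1, hT2, hy0, hx0]; push_cast; ring
  have e1 : (z - tau) 0 - (z - tau) 2 - ((round x1 : ℤ) : ℝ) = y1 := by
    simp only [Pi.sub_apply, hT0, hT2, hy1, hx1]; ring
  have e2 : (z - tau) 1 - ((round x2 : ℤ) : ℝ) = y2 := by
    simp only [Pi.sub_apply, hT1, hy2, hx2]; ring
  rw [hHH]
  by_cases hev : Even (round x0 + round x1 + round x2)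
  · have h1 : gg z ≤ y0 ^ 2 + y1 ^ 2 + y2 ^ 2 := gg_le_pt z _ _ _ hev
    have h2 := gg_odd (z - tau) (round x0 - 1) (round x1) (round x2)
      (by rw [Int.even_iff] at hev ⊢; omega) y0 y1 y2 e0 e1 e2
    have h3 := hmax (gg (z - tau)) (gg_le _) h2.1 h2.2.1 h2.2.2
    have := ineq (gg z) (gg (z - tau)) (y0 ^ 2 + y1 ^ 2 + y2 ^ 2) ‖t‖ (gg_le z) (gg_nonneg _)
      (gg_le _) (by positivity) hs (norm_nonneg _) h1 h3
    linarith
  · have h1 : gg (z - tau) ≤ y0 ^ 2 + y1 ^ 2 + y2 ^ 2 := by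
      have := gg_le_pt (z - tau) (round x0 - 1) (round x1) (round x2)
        (by rw [Int.even_iff] at hev ⊢; omega)
      rwa [e0, e1, e2] at this
    have h2 := gg_odd z (round x0) (round x1) (round x2) hev y0 y1 y2 rfl rfl rfl
    have h3 := hmax (gg z) (gg_le _) h2.1 h2.2.1 h2.2.2
    have := ineq (gg (z - tau)) (gg z) (y0 ^ 2 + y1 ^ 2 + y2 ^ 2) ‖t‖ (gg_le _) (gg_nonneg _)
      (gg_le _) (by positivity) hs (norm_nonneg _) h1 h3
    have h5 : (gg (z - tau) - gg z) ^ 2 = (gg z - gg (z - tau)) ^ 2 := by ring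
    rw [h5]
    linarith

theorem meas_cube3 : MeasurableSet cube3 := MeasurableSet.univ_pi fun _ => measurableSet_Ico

theorem vol_cube3 : (volume : Measure (Fin 3 → ℝ)) cube3 = 1 := by
  rw [cube3, volume_pi_pi]
  simp

instance : IsFiniteMeasure ((volume : Measure (Fin 3 → ℝ)).restrict cube3) :=
  ⟨by rw [Measure.restrict_apply_univ, vol_cube3]; exact ENNReal.one_lt_top⟩

theorem int_shift : ∫ z in cube3, gg (z - tau) = ∫ z in cube3, gg z := by
  have hS : MeasurableSet ((fun z : Fin 3 → ℝ => z + tau) ⁻¹' cube3) :=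
    (measurable_add_const tau) meas_cube3
  have h1 := fd_int ((fun z : Fin 3 → ℝ => z + tau) ⁻¹' cube3) hS ?_ gg gg_per
  · rw [← h1]
    have h2 := (measurePreserving_add_right (volume : Measure (Fin 3 → ℝ)) tau).setIntegral_preimage_emb
      (measurableEmbedding_addRight tau) (fun w => gg (w - tau)) cube3
    rw [← h2]
    simp
  · intro z
    refine ⟨fun i => ⌊z i + tau i⌋, ?_, ?_⟩
    · intro i _
      show z i - (⌊z i + tau i⌋ : ℝ) + tau i ∈ Ico (0 : ℝ) 1
      have h1 := Int.floor_le (z i + tau i)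
      have h2 := Int.lt_floor_add_one (z i + tau i)
      exact ⟨by linarith, by linarith⟩
    · intro n hn
      funext i
      have h := hn i (mem_univ i)
      change z i - (n i : ℝ) + tau i ∈ Ico (0 : ℝ) 1 at h
      symm
      rw [Int.floor_eq_iff]
      exact ⟨by linarith [h.1], by linarith [h.2]⟩

end D4INT

open D4INT in
/-- TARGET -/
theorem d4_int : F4 (f3 1 0 1 1 0 1) ![1 / 2, 0, 1 / 2] 1 ≤ 13 / 30 := by
  have hm := gg_meas
  have hm2 : Measurable fun z : Fin 3 → ℝ => gg (z - tau) := hm.comp (measurable_sub_const tau)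
  have i1 : Integrable gg ((volume : Measure (Fin 3 → ℝ)).restrict cube3) := by
    refine Integrable.of_bound hm.aestronglyMeasurable 1 (ae_of_all _ fun z => ?_)
    rw [Real.norm_eq_abs, abs_of_nonneg (gg_nonneg z)]
    exact gg_le z
  have i2 : Integrable (fun z => gg (z - tau)) ((volume : Measure (Fin 3 → ℝ)).restrict cube3) := by
    refine Integrable.of_bound hm2.aestronglyMeasurable 1 (ae_of_all _ fun z => ?_)
    rw [Real.norm_eq_abs, abs_of_nonneg (gg_nonneg _)]
    exact gg_le _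
  have i3 : Integrable (fun z => (gg (z - tau) - gg z) ^ 2)
      ((volume : Measure (Fin 3 → ℝ)).restrict cube3) := by
    refine Integrable.of_bound ((hm2.sub hm).pow_const 2).aestronglyMeasurable 1
      (ae_of_all _ fun z => ?_)
    have h1 := gg_nonneg z
    have h2 := gg_le z
    have h3 := gg_nonneg (z - tau)
    have h4 := gg_le (z - tau)
    rw [Real.norm_eq_abs, abs_of_nonneg (by positivity)]
    nlinarith
  have i4 : Integrable (fun z => HH (AT (qq z))) ((volume : Measure (Fin 3 → ℝ)).restrict cube3) := by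
    have h5 : Integrable HH (volume : Measure T3) := by
      refine Integrable.of_bound HH_cont.aestronglyMeasurable 1 (ae_of_all _ fun t => ?_)
      have h0 := norm_le_half (t 0)
      have h1 := norm_le_half (t 1)
      have h2 := norm_le_half (t 2)
      have h3 := norm_le_half' t
      have k0 := norm_nonneg (t 0)
      have k1 := norm_nonneg (t 1)
      have k2 := norm_nonneg (t 2)
      have k3 := norm_nonneg t
      rw [Real.norm_eq_abs, abs_le]
      unfold HH
      constructor <;> nlinarith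
    exact (AT_mp.comp qq_mp).integrable_comp_of_integrable h5
  have hF := layer_formula gg hm gg_per tau 1 one_pos gg_nonneg gg_le
  have e1 : ∫ z in cube3, ((gg z + gg (z - tau)) / 2 - (gg (z - tau) - gg z) ^ 2 / 4) =
      (∫ z in cube3, gg z) - (1 / 4) * ∫ z in cube3, (gg (z - tau) - gg z) ^ 2 := by
    have j1 : Integrable (fun z => (gg z + gg (z - tau)) / 2)
      ((volume : Measure (Fin 3 → ℝ)).restrict cube3) := (i1.add i2).div_const 2
    rw [integral_sub j1 (i3.div_const 4), integral_div, integral_div, integral_add i1 i2, int_shift]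
    ring
  have e2 : ∫ z in cube3, ((gg z + gg (z - tau)) / 2 - (gg (z - tau) - gg z) ^ 2 / 4) ≤
      ∫ z in cube3, (HH (AT (qq z)) + 1 / 4) := by
    refine integral_mono ?_ ?_ fun z => pointwise z
    · exact ((i1.add i2).div_const 2).sub (i3.div_const 4)
    · exact i4.add (integrable_const _)
  have e3 : ∫ z in cube3, (HH (AT (qq z)) + 1 / 4) = 1 / 10 + 1 / 4 := by
    rw [integral_add i4 (integrable_const _), int_cube, setIntegral_const, measureReal_def,
      vol_cube3]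
    norm_num
  have hF' : F4 (f3 1 0 1 1 0 1) ![1 / 2, 0, 1 / 2] 1 = 1 / 12 + (∫ z in cube3, gg z)
      - (1 / (4 * 1)) * ∫ z in cube3, (gg (z - tau) - gg z) ^ 2 := hF
  rw [hF']
  norm_num at e1 e2 e3 ⊢
  linarith

end Pool.Agent.Helper552_D4
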