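import Mathlib

/-!
# Four-dimensional lattice quantizers: definitions
-/

set_option autoImplicit false

namespace Pool.Agent.Helper552_D4

open MeasureTheory Set

/-- The unit cube `[0,1)^3`. -/
def cube3 : Set (Fin 3 → ℝ) := Set.univ.pi fun _ => Set.Ico (0 : ℝ) 1

/-- The ternary quadratic form with Selling parameters
`a = w₀₁, b = w₀₂, c = w₀₃, d = w₁₂, e = w₁₃, f = w₂₃`. -/
def K3 (a b c d e f x y z : ℝ) : ℝ :=
  a * (x - y) ^ 2 + b * (x - z) ^ 2 + c * x ^ 2 + d * (y - z) ^ 2 + e * y ^ 2 + f * z ^ 2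

/-- The squared distance from `z` to the lattice `ℤ³`, for the form `K3`. -/
noncomputable def f3 (a b c d e f : ℝ) (z : Fin 3 → ℝ) : ℝ :=
  ⨅ n : Fin 3 → ℤ, K3 a b c d e f (z 0 - n 0) (z 1 - n 1) (z 2 - n 2)

/-- The determinant of the form `K3` (the sum over the spanning trees of `K₄`). -/
def DD (a b c d e f : ℝ) : ℝ :=
  a * b * c + a * b * e + a * b * f + a * c * d + a * c * f + a * d * e + a * d * f + a * e * f
    + b * c * d + b * c * e + b * d * e + b * d * f + b * e * f + c * d * e + c * d * f + c * e * f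

/-- Partial derivatives of `DD`. -/
def dA (b c d e f : ℝ) : ℝ := b * c + b * e + b * f + c * d + c * f + d * e + d * f + e * f
/-- Partial derivatives of `DD`. -/
def dB (a c d e f : ℝ) : ℝ := a * c + a * e + a * f + c * d + c * e + d * e + d * f + e * f
/-- Partial derivatives of `DD`. -/
def dC (a b d e f : ℝ) : ℝ := a * b + a * d + a * f + b * d + b * e + d * e + d * f + e * f
/-- Partial derivatives of `DD`. -/
def dD (a b c e f : ℝ) : ℝ := a * c + a * e + a * f + b * c + b * e + b * f + c * e + c * f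
/-- Partial derivatives of `DD`. -/
def dE (a b c d f : ℝ) : ℝ := a * b + a * d + a * f + b * c + b * d + b * f + c * d + c * f
/-- Partial derivatives of `DD`. -/
def dF (a b c d e : ℝ) : ℝ := a * b + a * c + a * d + a * e + b * d + b * e + c * d + c * e

/-- The numerator in the formula for the second moment. -/
def RR (a b c d e f : ℝ) : ℝ :=
  2 * ((a * f) * (b * e) + (b * e) * (c * d) + (c * d) * (a * f))
    + (a * f) * (b + e) * (c + d) + (b * e) * (a + f) * (c + d) + (c * d) * (a + f) * (b + e)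

/-- The derivative of `DD` in the direction `(1,1,1,1,1,1)`. -/
def DP (a b c d e f : ℝ) : ℝ :=
  3 * ((a + f) * (b + e) + (b + e) * (c + d) + (c + d) * (a + f)) + 4 * (a * f + b * e + c * d)

/-- Distance to the nearest integer. -/
noncomputable def nn (x : ℝ) : ℝ := |x - round x|

/-- The mean squared distance to the four-dimensional lattice with layers at height `√δ`, in
coordinates: the section is `ℤ³` with squared distance function `g`, the shift between layers
is `τ`. -/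
noncomputable def F4 (g : (Fin 3 → ℝ) → ℝ) (τ : Fin 3 → ℝ) (δ : ℝ) : ℝ :=
  ∫ t in Set.Ico (0 : ℝ) 1, ∫ z in cube3, ⨅ j : ℤ, (δ * (t - j) ^ 2 + g (z + (t - j) • τ))

/-- Four-dimensional Euclidean space. -/
abbrev E4 := EuclideanSpace ℝ (Fin 4)

/-- The second moment of the Dirichlet-Voronoi cell. -/
noncomputable def I2 (L : Submodule ℤ E4) : ℝ :=
  ∫ x in {x : E4 | ∀ v ∈ L, ‖x‖ ≤ ‖x - v‖}, ‖x‖ ^ 2

/-- `b` is a basis adapted to the dual vector `p`: `b 1, b 2, b 3` and minus their sum is an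
obtuse superbase of the section orthogonal to `p`, with Selling parameters `k1, ..., k6`, and
`b 0` is at height `√δ` over the section, `δ = 1 / ‖p‖ ^ 2`, with shift `τ`. -/
structure Frame (b : Module.Basis (Fin 4) ℝ E4) (p : E4) (k1 k2 k3 k4 k5 k6 : ℝ)
    (τ : Fin 3 → ℝ) (δ : ℝ) : Prop where
  h1 : 0 ≤ k1
  h2 : 0 ≤ k2
  h3 : 0 ≤ k3
  h4 : 0 ≤ k4
  h5 : 0 ≤ k5
  h6 : 0 ≤ k6
  hδ : 0 < δ
  gram : ∀ (t : ℝ) (z : Fin 3 → ℝ), ‖t • b 0 + z 0 • b 1 + z 1 • b 2 + z 2 • b 3‖ ^ 2
      = K3 k1 k2 k3 k4 k5 k6 (z 0 + t * τ 0) (z 1 + t * τ 1) (z 2 + t * τ 2) + δ * t ^ 2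
  dual : ∀ (t : ℝ) (z : Fin 3 → ℝ),
      inner ℝ p (t • b 0 + z 0 • b 1 + z 1 • b 2 + z 2 • b 3) = t
  norm_p : δ * ‖p‖ ^ 2 = 1

/-- `m` has integer inner product with all vectors of `L`. -/
def InDual (L : Submodule ℤ E4) (m : E4) : Prop := ∀ v ∈ L, ∃ n : ℤ, inner ℝ m v = (n : ℝ)

end Pool.Agent.Helper552_D4
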