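import Pool.Agent.Helper552_D4.Defs

set_option autoImplicit false

namespace Pool.Agent.Helper552_D4

open MeasureTheory Set

namespace DUAL

open Module

/-- the standard basis of `E4` -/
noncomputable abbrev e4 : Basis (Fin 4) ℝ E4 := (EuclideanSpace.basisFun (Fin 4) ℝ).toBasis

theorem cov_span (b : Basis (Fin 4) ℝ E4) :
    ZLattice.covolume (Submodule.span ℤ (Set.range b)) = |e4.det b| := by
  rw [ZLattice.covolume_eq_measure_fundamentalDomain _ volume (ZSpan.isAddFundamentalDomain b volume),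
    ZSpan.measureReal_fundamentalDomain b volume e4,
    measureReal_congr (ZSpan.fundamentalDomain_ae_parallelepiped _ volume)]
  have h : volume (parallelepiped e4) = 1 := by
    have := (EuclideanSpace.basisFun (Fin 4) ℝ).volume_parallelepiped
    rwa [← OrthonormalBasis.coe_toBasis] at this
  rw [measureReal_def, h, ENNReal.toReal_one, mul_one]

theorem exists_basis (L : Submodule ℤ E4) [DiscreteTopology L] [IsZLattice ℝ L] :
    ∃ b : Basis (Fin 4) ℝ E4, Submodule.span ℤ (Set.range b) = L := by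
  have hfr : Module.Free ℤ L := ZLattice.module_free ℝ L
  have hfi : Module.Finite ℤ L := ZLattice.module_finite ℝ L
  have hcard : Fintype.card (Module.Free.ChooseBasisIndex ℤ L) = 4 := by
    rw [← Module.finrank_eq_card_chooseBasisIndex, ZLattice.rank ℝ L]
    simp
  let b1 := (Module.Free.chooseBasis ℤ L).reindex (Fintype.equivFinOfCardEq hcard)
  exact ⟨b1.ofZLatticeBasis ℝ L, b1.ofZLatticeBasis_span ℝ⟩

theorem det_eq (v : Fin 4 → E4) : e4.det v = (Matrix.of fun i j => v j i : Matrix _ _ ℝ).det := by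
  rw [Basis.det_apply]
  congr 1

/-- product of the determinants of two dual families -/
theorem det_dual (b c : Fin 4 → E4) (h : ∀ i j, inner ℝ (c i) (b j) = if i = j then (1:ℝ) else 0) :
    e4.det c * e4.det b = 1 := by
  rw [det_eq, det_eq, ← Matrix.det_transpose, ← Matrix.det_mul]
  have : (Matrix.of fun i j => c j i : Matrix (Fin 4) (Fin 4) ℝ).transpose *
      (Matrix.of fun i j => b j i : Matrix (Fin 4) (Fin 4) ℝ) = 1 := by
    ext i j
    rw [Matrix.mul_apply, Matrix.one_apply, ← h i j, PiLp.inner_apply]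
    refine Finset.sum_congr rfl fun k _ => ?_
    simp [mul_comm]
  rw [this, Matrix.det_one]

/-- the dual basis -/
theorem exists_dual_basis (b : Basis (Fin 4) ℝ E4) :
    ∃ c : Basis (Fin 4) ℝ E4, ∀ i j, inner ℝ (c i) (b j) = if i = j then (1:ℝ) else 0 := by
  let v : Fin 4 → E4 := fun i => (InnerProductSpace.toDual ℝ E4).symm
    (LinearMap.toContinuousLinearMap (b.coord i))
  have hv : ∀ i j, inner ℝ (v i) (b j) = if i = j then (1:ℝ) else 0 := by
    intro i j
    simp only [v, InnerProductSpace.toDual_symm_apply]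
    rw [LinearMap.coe_toContinuousLinearMap', Basis.coord_apply, Basis.repr_self,
      Finsupp.single_apply]
    by_cases h : i = j <;> simp [h, eq_comm]
  have hdet : IsUnit (e4.det v) := by
    rw [isUnit_iff_ne_zero]
    intro h0
    have := det_dual b v hv
    rw [h0, zero_mul] at this
    exact zero_ne_one this
  obtain ⟨h1, h2⟩ := (Basis.is_basis_iff_det e4).mpr hdet
  refine ⟨Basis.mk h1 h2.ge, fun i j => ?_⟩
  rw [Basis.mk_apply]
  exact hv i j

theorem mem_iff (b c : Basis (Fin 4) ℝ E4)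
    (h : ∀ i j, inner ℝ (c i) (b j) = if i = j then (1:ℝ) else 0) (y : E4) :
    y ∈ Submodule.span ℤ (Set.range c) ↔ InDual (Submodule.span ℤ (Set.range b)) y := by
  have hrepr : ∀ i, c.repr y i = inner ℝ y (b i) := by
    intro i
    conv_rhs => rw [← c.sum_repr y]
    rw [sum_inner]
    simp only [inner_smul_left, h]
    simp
  rw [Basis.mem_span_iff_repr_mem]
  constructor
  · intro hy v hv
    induction hv using Submodule.span_induction with
    | mem x hx =>
      obtain ⟨i, rfl⟩ := hx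
      obtain ⟨n, hn⟩ := hy i
      refine ⟨n, ?_⟩
      rw [← hrepr i, ← hn]
      simp
    | zero => exact ⟨0, by simp⟩
    | add x z _ _ hx hz =>
      obtain ⟨n, hn⟩ := hx
      obtain ⟨m, hm⟩ := hz
      refine ⟨n + m, ?_⟩
      rw [inner_add_right, hn, hm]
      push_cast
      rfl
    | smul a x _ hx =>
      obtain ⟨n, hn⟩ := hx
      refine ⟨a * n, ?_⟩
      rw [← Int.cast_smul_eq_zsmul ℝ a x, inner_smul_right, hn]
      push_cast
      rfl
  · intro hy i
    obtain ⟨n, hn⟩ := hy (b i) (Submodule.subset_span (Set.mem_range_self i))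
    refine ⟨n, ?_⟩
    rw [hrepr i, hn]
    simp

end DUAL

/-- TARGET 1 -/
theorem exists_dual (L : Submodule ℤ E4) [DiscreteTopology L] [IsZLattice ℝ L]
    (hcov : ZLattice.covolume L = 1) :
    ∃ (M : Submodule ℤ E4) (_ : DiscreteTopology M) (_ : IsZLattice ℝ M),
      ZLattice.covolume M = 1 ∧ (∀ y : E4, y ∈ M ↔ InDual L y) ∧ (∀ y : E4, y ∈ L ↔ InDual M y) := by
  obtain ⟨b, rfl⟩ := DUAL.exists_basis L
  obtain ⟨c, hc⟩ := DUAL.exists_dual_basis b
  refine ⟨Submodule.span ℤ (Set.range c), inferInstance, inferInstance, ?_, ?_, ?_⟩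
  · rw [DUAL.cov_span] at hcov ⊢
    have h1 := DUAL.det_dual b c hc
    have h2 : |DUAL.e4.det c| * |DUAL.e4.det b| = 1 := by rw [← abs_mul, h1, abs_one]
    rwa [hcov, mul_one] at h2
  · exact DUAL.mem_iff b c hc
  · apply DUAL.mem_iff c b
    intro i j
    rw [real_inner_comm, hc j i]
    by_cases h : i = j <;> simp [h, eq_comm]

/-- TARGET 2 -/
theorem exists_shortest (M : Submodule ℤ E4) [DiscreteTopology M] [IsZLattice ℝ M] :
    ∃ p ∈ M, p ≠ 0 ∧ ∀ w ∈ M, w ≠ 0 → ‖p‖ ≤ ‖w‖ := by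
  obtain ⟨b, rfl⟩ := DUAL.exists_basis M
  have hb0 : b 0 ≠ 0 := b.ne_zero 0
  have hbm : b 0 ∈ Submodule.span ℤ (Set.range b) := Submodule.subset_span (Set.mem_range_self 0)
  have hfin : ((Metric.closedBall (0 : E4) ‖b 0‖ ∩ (Submodule.span ℤ (Set.range b) : Set E4))
      \ {0}).Finite :=
    (ZSpan.setFinite_inter b Metric.isBounded_closedBall).subset Set.sdiff_subset
  obtain ⟨p, hp, hmin⟩ := Set.exists_min_image _ (fun v : E4 => ‖v‖) hfin
    ⟨b 0, ⟨⟨by simp, hbm⟩, hb0⟩⟩
  refine ⟨p, hp.1.2, hp.2, fun w hw hw0 => ?_⟩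
  by_cases h : ‖w‖ ≤ ‖b 0‖
  · exact hmin w ⟨⟨by simpa using h, hw⟩, hw0⟩
  · have h1 := hmin (b 0) ⟨⟨by simp, hbm⟩, hb0⟩
    push Not at h
    exact h1.trans h.le

namespace DUAL

open Module

/-- the integer vectors -/
def dm : Matrix (Fin 4) (Fin 4) ℤ := !![1, 0, 0, 0; -1, 1, 0, 0; 0, -1, 1, 1; 0, 0, -1, 1]

theorem dm_det : dm.det = 2 := by decide

/-- the scaling factor -/
noncomputable def cc : ℝ := √(√2 / 2)

theorem cc_pos : 0 < cc := by
  unfold cc
  positivity

theorem cc_sq : cc ^ 2 = √2 / 2 := by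
  unfold cc
  rw [Real.sq_sqrt (by positivity)]

theorem cc_four : cc ^ 4 = 1 / 2 := by
  rw [show cc ^ 4 = (cc ^ 2) ^ 2 by ring, cc_sq, div_pow, Real.sq_sqrt (by norm_num)]
  norm_num

/-- the vectors of the basis -/
noncomputable def dv (j : Fin 4) : E4 := WithLp.toLp 2 fun i => cc * (dm i j : ℝ)

theorem dv_apply (i j : Fin 4) : dv j i = cc * (dm i j : ℝ) := rfl

theorem dv_det : e4.det dv = 1 := by
  rw [det_eq]
  have h : (Matrix.of fun i j => dv j i : Matrix (Fin 4) (Fin 4) ℝ) =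
      cc • (dm.map (Int.castRingHom ℝ)) := by
    ext i j
    simp [dv_apply]
  rw [h, Matrix.det_smul, ← RingHom.mapMatrix_apply, ← RingHom.map_det, dm_det]
  simp only [Fintype.card_fin, cc_four]
  norm_num

theorem exists_d4_basis : ∃ b : Basis (Fin 4) ℝ E4, ∀ j, b j = dv j := by
  have hdet : IsUnit (e4.det dv) := by rw [dv_det]; exact isUnit_one
  obtain ⟨h1, h2⟩ := (Basis.is_basis_iff_det e4).mpr hdet
  exact ⟨Basis.mk h1 h2.ge, fun j => Basis.mk_apply h1 _ j⟩

theorem sq_even (x : ℤ) : ∃ k : ℤ, x ^ 2 = x + 2 * k := by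
  obtain ⟨k, hk⟩ := Int.even_mul_pred_self x
  exact ⟨k, by nlinarith⟩

end DUAL

/-- TARGET 3 -/
theorem exists_d4 :
    ∃ (M : Submodule ℤ E4) (_ : DiscreteTopology M) (_ : IsZLattice ℝ M),
      ZLattice.covolume M = 1 ∧ ∀ v ∈ M, v ≠ 0 → Real.sqrt 2 ≤ ‖v‖ ^ 2 := by
  obtain ⟨b, hb⟩ := DUAL.exists_d4_basis
  have hbf : (b : Fin 4 → E4) = DUAL.dv := funext hb
  refine ⟨Submodule.span ℤ (Set.range b), inferInstance, inferInstance, ?_, ?_⟩
  · rw [DUAL.cov_span, hbf, DUAL.dv_det, abs_one]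
  · intro v hv hv0
    rw [Submodule.mem_span_range_iff_exists_fun] at hv
    obtain ⟨m, rfl⟩ := hv
    have hcoord : ∀ i, (∑ j, m j • b j : E4) i = DUAL.cc * ((∑ j, m j * DUAL.dm i j : ℤ) : ℝ) := by
      intro i
      have h1 : (∑ j, m j • b j : E4) i = ∑ j, (m j • b j : E4) i := by
        simp
      rw [h1]
      push_cast
      rw [Finset.mul_sum]
      refine Finset.sum_congr rfl fun j _ => ?_
      rw [hb, ← Int.cast_smul_eq_zsmul ℝ]
      simp only [PiLp.smul_apply, smul_eq_mul, DUAL.dv_apply]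
      ring
    set x : Fin 4 → ℤ := fun i => ∑ j, m j * DUAL.dm i j with hx
    have hnorm : ‖(∑ j, m j • b j : E4)‖ ^ 2 = DUAL.cc ^ 2 * ((∑ i, x i ^ 2 : ℤ) : ℝ) := by
      rw [EuclideanSpace.real_norm_sq_eq]
      simp only [hcoord]
      push_cast
      rw [Finset.mul_sum]
      refine Finset.sum_congr rfl fun i _ => ?_
      simp only [hx]
      push_cast
      ring
    have hsum : ∑ i, x i = 2 * m 3 := by
      simp only [hx, DUAL.dm, Fin.sum_univ_four]
      simp
      ring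
    choose k hk using fun i => DUAL.sq_even (x i)
    have heven : ∑ i, x i ^ 2 = 2 * (m 3 + ∑ i, k i) := by
      simp only [hk, Finset.sum_add_distrib, hsum, ← Finset.mul_sum]
      ring
    have hpos : 0 < ∑ i, x i ^ 2 := by
      have h0 : 0 ≤ ∑ i, x i ^ 2 := Finset.sum_nonneg fun i _ => sq_nonneg _
      rcases h0.lt_or_eq with h | h
      · exact h
      · exfalso
        apply hv0
        have h2 : ‖(∑ j, m j • b j : E4)‖ ^ 2 = 0 := by rw [hnorm, ← h]; simp
        exact norm_eq_zero.mp ((pow_eq_zero_iff two_ne_zero).mp h2)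
    have hge : (2 : ℤ) ≤ ∑ i, x i ^ 2 := by omega
    have hge' : (2 : ℝ) ≤ ((∑ i, x i ^ 2 : ℤ) : ℝ) := by exact_mod_cast hge
    rw [hnorm, DUAL.cc_sq]
    have : 0 ≤ √2 / 2 := by positivity
    nlinarith

end Pool.Agent.Helper552_D4
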