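import Pool.Agent.Helper552_D4.Refl

/-!
# The polynomial inequality U5, orderings of the weights, part C
-/

set_option autoImplicit false

namespace Pool.Agent.Helper552_D4

open T

theorem u_015324 (a b c d e f : ℝ) (h0 : 0 ≤ a) (h1 : a ≤ b) (h2 : b ≤ f)
    (h3 : f ≤ d) (h4 : d ≤ c) (h5 : c ≤ e) :
    0 ≤ UU a b c d e f := by
  have hp := pt_nonneg h0 (sub_nonneg.2 h1) (sub_nonneg.2 h2) (sub_nonneg.2 h3)
    (sub_nonneg.2 h4) (sub_nonneg.2 h5)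
  have key := UU_nonneg_of _ hp s0 s1 s4 s3 s5 s2 (T.c 0) (T.c 0) le_rfl
    (by decide +kernel)
  simp only [ev_s0, ev_s1, ev_s2, ev_s3, ev_s4, ev_s5] at key
  convert key using 2 <;> ring

theorem u_015423 (a b c d e f : ℝ) (h0 : 0 ≤ a) (h1 : a ≤ b) (h2 : b ≤ f)
    (h3 : f ≤ e) (h4 : e ≤ c) (h5 : c ≤ d) :
    0 ≤ UU a b c d e f := by
  have hp := pt_nonneg h0 (sub_nonneg.2 h1) (sub_nonneg.2 h2) (sub_nonneg.2 h3)
    (sub_nonneg.2 h4) (sub_nonneg.2 h5)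
  have key := UU_nonneg_of _ hp s0 s1 s4 s5 s3 s2 (T.c 0) (T.c 0) le_rfl
    (by decide +kernel)
  simp only [ev_s0, ev_s1, ev_s2, ev_s3, ev_s4, ev_s5] at key
  convert key using 2 <;> ring

theorem u_051234 (a b c d e f : ℝ) (h0 : 0 ≤ a) (h1 : a ≤ f) (h2 : f ≤ b)
    (h3 : b ≤ c) (h4 : c ≤ d) (h5 : d ≤ e) :
    0 ≤ UU a b c d e f := by
  have hp := pt_nonneg h0 (sub_nonneg.2 h1) (sub_nonneg.2 h2) (sub_nonneg.2 h3)
    (sub_nonneg.2 h4) (sub_nonneg.2 h5)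
  have key := UU_nonneg_of _ hp s0 s2 s3 s4 s5 s1 (T.c 0) (T.c 0) le_rfl
    (by decide +kernel)
  simp only [ev_s0, ev_s1, ev_s2, ev_s3, ev_s4, ev_s5] at key
  convert key using 2 <;> ring

theorem u_051243 (a b c d e f : ℝ) (h0 : 0 ≤ a) (h1 : a ≤ f) (h2 : f ≤ b)
    (h3 : b ≤ c) (h4 : c ≤ e) (h5 : e ≤ d) :
    0 ≤ UU a b c d e f := by
  have hp := pt_nonneg h0 (sub_nonneg.2 h1) (sub_nonneg.2 h2) (sub_nonneg.2 h3)
    (sub_nonneg.2 h4) (sub_nonneg.2 h5)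
  have key := UU_nonneg_of _ hp s0 s2 s3 s5 s4 s1 (T.c 0) (T.c 0) le_rfl
    (by decide +kernel)
  simp only [ev_s0, ev_s1, ev_s2, ev_s3, ev_s4, ev_s5] at key
  convert key using 2 <;> ring

theorem u_051324 (a b c d e f : ℝ) (h0 : 0 ≤ a) (h1 : a ≤ f) (h2 : f ≤ b)
    (h3 : b ≤ d) (h4 : d ≤ c) (h5 : c ≤ e) :
    0 ≤ UU a b c d e f := by
  have hp := pt_nonneg h0 (sub_nonneg.2 h1) (sub_nonneg.2 h2) (sub_nonneg.2 h3)
    (sub_nonneg.2 h4) (sub_nonneg.2 h5)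
  have key := UU_nonneg_of _ hp s0 s2 s4 s3 s5 s1 (T.c 0) (T.c 0) le_rfl
    (by decide +kernel)
  simp only [ev_s0, ev_s1, ev_s2, ev_s3, ev_s4, ev_s5] at key
  convert key using 2 <;> ring

theorem u_051342 (a b c d e f : ℝ) (h0 : 0 ≤ a) (h1 : a ≤ f) (h2 : f ≤ b)
    (h3 : b ≤ d) (h4 : d ≤ e) (h5 : e ≤ c) :
    0 ≤ UU a b c d e f := by
  have hp := pt_nonneg h0 (sub_nonneg.2 h1) (sub_nonneg.2 h2) (sub_nonneg.2 h3)
    (sub_nonneg.2 h4) (sub_nonneg.2 h5)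
  have key := UU_nonneg_of _ hp s0 s2 s5 s3 s4 s1 (T.c 0) (T.c 0) le_rfl
    (by decide +kernel)
  simp only [ev_s0, ev_s1, ev_s2, ev_s3, ev_s4, ev_s5] at key
  convert key using 2 <;> ring

theorem u_051423 (a b c d e f : ℝ) (h0 : 0 ≤ a) (h1 : a ≤ f) (h2 : f ≤ b)
    (h3 : b ≤ e) (h4 : e ≤ c) (h5 : c ≤ d) :
    0 ≤ UU a b c d e f := by
  have hp := pt_nonneg h0 (sub_nonneg.2 h1) (sub_nonneg.2 h2) (sub_nonneg.2 h3)
    (sub_nonneg.2 h4) (sub_nonneg.2 h5)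
  have key := UU_nonneg_of _ hp s0 s2 s4 s5 s3 s1 (T.c 0) (T.c 0) le_rfl
    (by decide +kernel)
  simp only [ev_s0, ev_s1, ev_s2, ev_s3, ev_s4, ev_s5] at key
  convert key using 2 <;> ring

theorem u_051432 (a b c d e f : ℝ) (h0 : 0 ≤ a) (h1 : a ≤ f) (h2 : f ≤ b)
    (h3 : b ≤ e) (h4 : e ≤ d) (h5 : d ≤ c) :
    0 ≤ UU a b c d e f := by
  have hp := pt_nonneg h0 (sub_nonneg.2 h1) (sub_nonneg.2 h2) (sub_nonneg.2 h3)
    (sub_nonneg.2 h4) (sub_nonneg.2 h5)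
  have key := UU_nonneg_of _ hp s0 s2 s5 s4 s3 s1 (T.c 0) (T.c 0) le_rfl
    (by decide +kernel)
  simp only [ev_s0, ev_s1, ev_s2, ev_s3, ev_s4, ev_s5] at key
  convert key using 2 <;> ring

end Pool.Agent.Helper552_D4
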