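import Pool.Agent.Helper552_D4.Refl

/-!
# The polynomial inequality U5, orderings of the weights, part D
-/

set_option autoImplicit false

namespace Pool.Agent.Helper552_D4

open T

/-- Correction terms. -/
noncomputable def E1a : T := smul 360 (mul (mul (mul (var 2) (var 2)) (mul (var 2) (var 2)))
  (mul (var 5) (add (mul (var 2) (var 2)) (mul (var 5) (var 5)))))
/-- Correction terms. -/
noncomputable def E2a : T := smul 720 (mul (mul (mul (var 2) (var 2)) (mul (var 2) (var 2)))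
  (mul (var 5) (mul (var 2) (var 5))))
/-- Correction terms. -/
noncomputable def E1b : T := add E1a (smul 618 (mul (mul (mul (var 2) (var 2)) (mul (var 2) (var 2)))
  (mul (var 4) (add (mul (var 2) (var 2)) (mul (var 5) (var 5))))))
/-- Correction terms. -/
noncomputable def E2b : T := add E2a (smul 1236 (mul (mul (mul (var 2) (var 2)) (mul (var 2) (var 2)))
  (mul (var 4) (mul (var 2) (var 5)))))

theorem hEa (x : ℕ → ℝ) (hx : ∀ i, 0 ≤ x i) : ev x E2a 0 ≤ ev x E1a 0 := by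
  simp only [E1a, E2a, ev_smul, ev_mul, ev_add, ev_var, zero_add]
  have h5 := hx 5
  have : 0 ≤ 360 * ((x 2 ^ 4 * x 5) * (x 2 - x 5) ^ 2) := by positivity
  push_cast
  nlinarith [this]

theorem hEb (x : ℕ → ℝ) (hx : ∀ i, 0 ≤ x i) : ev x E2b 0 ≤ ev x E1b 0 := by
  have h1 := hEa x hx
  simp only [E1b, E2b, ev_add, ev_smul, ev_mul, ev_var, zero_add]
  have h4 := hx 4
  have : 0 ≤ 618 * ((x 2 ^ 4 * x 4) * (x 2 - x 5) ^ 2) := by positivity
  push_cast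
  nlinarith [this, h1]

theorem u_013452 (a b c d e f : ℝ) (h0 : 0 ≤ a) (h1 : a ≤ b) (h2 : b ≤ d)
    (h3 : d ≤ e) (h4 : e ≤ f) (h5 : f ≤ c) :
    0 ≤ UU a b c d e f := by
  have hp := pt_nonneg h0 (sub_nonneg.2 h1) (sub_nonneg.2 h2) (sub_nonneg.2 h3)
    (sub_nonneg.2 h4) (sub_nonneg.2 h5)
  have key := UU_nonneg_of _ hp s0 s1 s5 s2 s3 s4 E1a E2a (hEa _ hp)
    (by decide +kernel)
  simp only [ev_s0, ev_s1, ev_s2, ev_s3, ev_s4, ev_s5] at key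
  convert key using 2 <;> ring

theorem u_013542 (a b c d e f : ℝ) (h0 : 0 ≤ a) (h1 : a ≤ b) (h2 : b ≤ d)
    (h3 : d ≤ f) (h4 : f ≤ e) (h5 : e ≤ c) :
    0 ≤ UU a b c d e f := by
  have hp := pt_nonneg h0 (sub_nonneg.2 h1) (sub_nonneg.2 h2) (sub_nonneg.2 h3)
    (sub_nonneg.2 h4) (sub_nonneg.2 h5)
  have key := UU_nonneg_of _ hp s0 s1 s5 s2 s4 s3 E1a E2a (hEa _ hp)
    (by decide +kernel)
  simp only [ev_s0, ev_s1, ev_s2, ev_s3, ev_s4, ev_s5] at key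
  convert key using 2 <;> ring

theorem u_014352 (a b c d e f : ℝ) (h0 : 0 ≤ a) (h1 : a ≤ b) (h2 : b ≤ e)
    (h3 : e ≤ d) (h4 : d ≤ f) (h5 : f ≤ c) :
    0 ≤ UU a b c d e f := by
  have hp := pt_nonneg h0 (sub_nonneg.2 h1) (sub_nonneg.2 h2) (sub_nonneg.2 h3)
    (sub_nonneg.2 h4) (sub_nonneg.2 h5)
  have key := UU_nonneg_of _ hp s0 s1 s5 s3 s2 s4 E1a E2a (hEa _ hp)
    (by decide +kernel)
  simp only [ev_s0, ev_s1, ev_s2, ev_s3, ev_s4, ev_s5] at key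
  convert key using 2 <;> ring

theorem u_015342 (a b c d e f : ℝ) (h0 : 0 ≤ a) (h1 : a ≤ b) (h2 : b ≤ f)
    (h3 : f ≤ d) (h4 : d ≤ e) (h5 : e ≤ c) :
    0 ≤ UU a b c d e f := by
  have hp := pt_nonneg h0 (sub_nonneg.2 h1) (sub_nonneg.2 h2) (sub_nonneg.2 h3)
    (sub_nonneg.2 h4) (sub_nonneg.2 h5)
  have key := UU_nonneg_of _ hp s0 s1 s5 s3 s4 s2 E1a E2a (hEa _ hp)
    (by decide +kernel)
  simp only [ev_s0, ev_s1, ev_s2, ev_s3, ev_s4, ev_s5] at key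
  convert key using 2 <;> ring

theorem u_014532 (a b c d e f : ℝ) (h0 : 0 ≤ a) (h1 : a ≤ b) (h2 : b ≤ e)
    (h3 : e ≤ f) (h4 : f ≤ d) (h5 : d ≤ c) :
    0 ≤ UU a b c d e f := by
  have hp := pt_nonneg h0 (sub_nonneg.2 h1) (sub_nonneg.2 h2) (sub_nonneg.2 h3)
    (sub_nonneg.2 h4) (sub_nonneg.2 h5)
  have key := UU_nonneg_of _ hp s0 s1 s5 s4 s2 s3 E1b E2b (hEb _ hp)
    (by decide +kernel)
  simp only [ev_s0, ev_s1, ev_s2, ev_s3, ev_s4, ev_s5] at key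
  convert key using 2 <;> ring

theorem u_015432 (a b c d e f : ℝ) (h0 : 0 ≤ a) (h1 : a ≤ b) (h2 : b ≤ f)
    (h3 : f ≤ e) (h4 : e ≤ d) (h5 : d ≤ c) :
    0 ≤ UU a b c d e f := by
  have hp := pt_nonneg h0 (sub_nonneg.2 h1) (sub_nonneg.2 h2) (sub_nonneg.2 h3)
    (sub_nonneg.2 h4) (sub_nonneg.2 h5)
  have key := UU_nonneg_of _ hp s0 s1 s5 s4 s3 s2 E1b E2b (hEb _ hp)
    (by decide +kernel)
  simp only [ev_s0, ev_s1, ev_s2, ev_s3, ev_s4, ev_s5] at key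
  convert key using 2 <;> ring

end Pool.Agent.Helper552_D4
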