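import Pool.Agent.Helper552_D4.PolyA
import Pool.Agent.Helper552_D4.PolyB
import Pool.Agent.Helper552_D4.PolyC
import Pool.Agent.Helper552_D4.PolyD

/-!
# The polynomial inequality U5
-/

set_option autoImplicit false

namespace Pool.Agent.Helper552_D4

theorem UU_sym1 (a b c d e f : ℝ) : UU a b c d e f = UU a d e b c f := by
  have h1 : DD a b c d e f = DD a d e b c f := by unfold DD; ring
  have h2 : DP a b c d e f = DP a d e b c f := by unfold DP; ring
  have h3 : RR a b c d e f = RR a d e b c f := by unfold RR; ring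
  unfold UU
  rw [h1, h2, h3]; ring

theorem UU_sym2 (a b c d e f : ℝ) : UU a b c d e f = UU b a c d f e := by
  have h1 : DD a b c d e f = DD b a c d f e := by unfold DD; ring
  have h2 : DP a b c d e f = DP b a c d f e := by unfold DP; ring
  have h3 : RR a b c d e f = RR b a c d f e := by unfold RR; ring
  unfold UU
  rw [h1, h2, h3]; ring

theorem UU_sym3 (a b c d e f : ℝ) : UU a b c d e f = UU a c b e d f := by
  have h1 : DD a b c d e f = DD a c b e d f := by unfold DD; ring
  have h2 : DP a b c d e f = DP a c b e d f := by unfold DP; ring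
  have h3 : RR a b c d e f = RR a c b e d f := by unfold RR; ring
  unfold UU
  rw [h1, h2, h3]; ring

theorem U_L1 (a b c d e f : ℝ) (h0 : 0 ≤ a) (P1 : a ≤ b) (Qc : b ≤ c) (Qd : b ≤ d) (Qe : b ≤ e)
    (Qf : b ≤ f) : 0 ≤ UU a b c d e f := by
  rcases le_total d c with k1 | k1
  · rcases le_total e d with k2 | k2
    · rcases le_total f e with k3 | k3
      · exact u_015432 a b c d e f h0 P1 Qf k3 k2 k1
      · rcases le_total f d with k4 | k4
        · exact u_014532 a b c d e f h0 P1 Qe k3 k4 k1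
        · rcases le_total f c with k5 | k5
          · exact u_014352 a b c d e f h0 P1 Qe k2 k4 k5
          · exact u_014325 a b c d e f h0 P1 Qe k2 k1 k5
    · rcases le_total e c with k6 | k6
      · rcases le_total f d with k7 | k7
        · exact u_015342 a b c d e f h0 P1 Qf k7 k2 k6
        · rcases le_total f e with k8 | k8
          · exact u_013542 a b c d e f h0 P1 Qd k7 k8 k6
          · rcases le_total f c with k9 | k9
            · exact u_013452 a b c d e f h0 P1 Qd k2 k8 k9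
            · exact u_013425 a b c d e f h0 P1 Qd k2 k6 k9
      · rcases le_total f d with k10 | k10
        · exact u_015324 a b c d e f h0 P1 Qf k10 k1 k6
        · rcases le_total f c with k11 | k11
          · exact u_013524 a b c d e f h0 P1 Qd k10 k11 k6
          · rcases le_total f e with k12 | k12
            · exact u_013254 a b c d e f h0 P1 Qd k1 k11 k12
            · exact u_013245 a b c d e f h0 P1 Qd k1 k6 k12
  · rcases le_total e c with k13 | k13
    · rcases le_total f e with k14 | k14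
      · exact u_015423 a b c d e f h0 P1 Qf k14 k13 k1
      · rcases le_total f c with k15 | k15
        · exact u_014523 a b c d e f h0 P1 Qe k14 k15 k1
        · rcases le_total f d with k16 | k16
          · exact u_014253 a b c d e f h0 P1 Qe k13 k15 k16
          · exact u_014235 a b c d e f h0 P1 Qe k13 k1 k16
    · rcases le_total e d with k17 | k17
      · rcases le_total f c with k18 | k18
        · exact u_015243 a b c d e f h0 P1 Qf k18 k13 k17
        · rcases le_total f e with k19 | k19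
          · exact u_012543 a b c d e f h0 P1 Qc k18 k19 k17
          · rcases le_total f d with k20 | k20
            · exact u_012453 a b c d e f h0 P1 Qc k13 k19 k20
            · exact u_012435 a b c d e f h0 P1 Qc k13 k17 k20
      · rcases le_total f c with k21 | k21
        · exact u_015234 a b c d e f h0 P1 Qf k21 k1 k17
        · rcases le_total f d with k22 | k22
          · exact u_012534 a b c d e f h0 P1 Qc k21 k22 k17
          · rcases le_total f e with k23 | k23
            · exact u_012354 a b c d e f h0 P1 Qc k1 k22 k23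
            · exact u_012345 a b c d e f h0 P1 Qc k1 k17 k23

theorem U_L2 (a b c d e f : ℝ) (h0 : 0 ≤ a) (P1 : a ≤ f) (P2 : f ≤ b) (Qc : b ≤ c) (Qd : b ≤ d)
    (Qe : b ≤ e) : 0 ≤ UU a b c d e f := by
  rcases le_total d c with k24 | k24
  · rcases le_total e d with k25 | k25
    · exact u_051432 a b c d e f h0 P1 P2 Qe k25 k24
    · rcases le_total e c with k26 | k26
      · exact u_051342 a b c d e f h0 P1 P2 Qd k25 k26
      · exact u_051324 a b c d e f h0 P1 P2 Qd k24 k26
  · rcases le_total e c with k27 | k27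
    · exact u_051423 a b c d e f h0 P1 P2 Qe k27 k24
    · rcases le_total e d with k28 | k28
      · exact u_051243 a b c d e f h0 P1 P2 Qc k27 k28
      · exact u_051234 a b c d e f h0 P1 P2 Qc k24 k28

theorem min2 (a b : ℝ) :
    (a ≤ b) ∨
    (b ≤ a) := by
  exact le_total a b

theorem min3 (a b c : ℝ) :
    (a ≤ b ∧ a ≤ c) ∨
    (b ≤ a ∧ b ≤ c) ∨
    (c ≤ a ∧ c ≤ b) := by
  rcases min2 a b with h | h
  · rcases le_total a c with k | k
    · exact Or.inl ⟨by linarith, by linarith⟩
    · exact Or.inr (Or.inr (⟨by linarith, by linarith⟩))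
  · rcases le_total b c with k | k
    · exact Or.inr (Or.inl ⟨by linarith, by linarith⟩)
    · exact Or.inr (Or.inr (⟨by linarith, by linarith⟩))

theorem min4 (a b c d : ℝ) :
    (a ≤ b ∧ a ≤ c ∧ a ≤ d) ∨
    (b ≤ a ∧ b ≤ c ∧ b ≤ d) ∨
    (c ≤ a ∧ c ≤ b ∧ c ≤ d) ∨
    (d ≤ a ∧ d ≤ b ∧ d ≤ c) := by
  rcases min3 a b c with h | h | h
  · rcases le_total a d with k | k
    · exact Or.inl ⟨by linarith, by linarith, by linarith⟩
    · exact Or.inr (Or.inr (Or.inr (⟨by linarith, by linarith, by linarith⟩)))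
  · rcases le_total b d with k | k
    · exact Or.inr (Or.inl ⟨by linarith, by linarith, by linarith⟩)
    · exact Or.inr (Or.inr (Or.inr (⟨by linarith, by linarith, by linarith⟩)))
  · rcases le_total c d with k | k
    · exact Or.inr (Or.inr (Or.inl ⟨by linarith, by linarith, by linarith⟩))
    · exact Or.inr (Or.inr (Or.inr (⟨by linarith, by linarith, by linarith⟩)))

theorem min5 (a b c d e : ℝ) :
    (a ≤ b ∧ a ≤ c ∧ a ≤ d ∧ a ≤ e) ∨
    (b ≤ a ∧ b ≤ c ∧ b ≤ d ∧ b ≤ e) ∨
    (c ≤ a ∧ c ≤ b ∧ c ≤ d ∧ c ≤ e) ∨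
    (d ≤ a ∧ d ≤ b ∧ d ≤ c ∧ d ≤ e) ∨
    (e ≤ a ∧ e ≤ b ∧ e ≤ c ∧ e ≤ d) := by
  rcases min4 a b c d with h | h | h | h
  · rcases le_total a e with k | k
    · exact Or.inl ⟨by linarith, by linarith, by linarith, by linarith⟩
    · exact Or.inr (Or.inr (Or.inr (Or.inr (⟨by linarith, by linarith, by linarith, by linarith⟩))))
  · rcases le_total b e with k | k
    · exact Or.inr (Or.inl ⟨by linarith, by linarith, by linarith, by linarith⟩)
    · exact Or.inr (Or.inr (Or.inr (Or.inr (⟨by linarith, by linarith, by linarith, by linarith⟩))))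
  · rcases le_total c e with k | k
    · exact Or.inr (Or.inr (Or.inl ⟨by linarith, by linarith, by linarith, by linarith⟩))
    · exact Or.inr (Or.inr (Or.inr (Or.inr (⟨by linarith, by linarith, by linarith, by linarith⟩))))
  · rcases le_total d e with k | k
    · exact Or.inr (Or.inr (Or.inr (Or.inl ⟨by linarith, by linarith, by linarith, by linarith⟩)))
    · exact Or.inr (Or.inr (Or.inr (Or.inr (⟨by linarith, by linarith, by linarith, by linarith⟩))))

theorem min6 (a b c d e f : ℝ) :
    (a ≤ b ∧ a ≤ c ∧ a ≤ d ∧ a ≤ e ∧ a ≤ f) ∨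
    (b ≤ a ∧ b ≤ c ∧ b ≤ d ∧ b ≤ e ∧ b ≤ f) ∨
    (c ≤ a ∧ c ≤ b ∧ c ≤ d ∧ c ≤ e ∧ c ≤ f) ∨
    (d ≤ a ∧ d ≤ b ∧ d ≤ c ∧ d ≤ e ∧ d ≤ f) ∨
    (e ≤ a ∧ e ≤ b ∧ e ≤ c ∧ e ≤ d ∧ e ≤ f) ∨
    (f ≤ a ∧ f ≤ b ∧ f ≤ c ∧ f ≤ d ∧ f ≤ e) := by
  rcases min5 a b c d e with h | h | h | h | h
  · rcases le_total a f with k | k
    · exact Or.inl ⟨by linarith, by linarith, by linarith, by linarith, by linarith⟩
    · exact Or.inr (Or.inr (Or.inr (Or.inr (Or.inr (⟨by linarith, by linarith, by linarith, by linarith, by linarith⟩)))))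
  · rcases le_total b f with k | k
    · exact Or.inr (Or.inl ⟨by linarith, by linarith, by linarith, by linarith, by linarith⟩)
    · exact Or.inr (Or.inr (Or.inr (Or.inr (Or.inr (⟨by linarith, by linarith, by linarith, by linarith, by linarith⟩)))))
  · rcases le_total c f with k | k
    · exact Or.inr (Or.inr (Or.inl ⟨by linarith, by linarith, by linarith, by linarith, by linarith⟩))
    · exact Or.inr (Or.inr (Or.inr (Or.inr (Or.inr (⟨by linarith, by linarith, by linarith, by linarith, by linarith⟩)))))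
  · rcases le_total d f with k | k
    · exact Or.inr (Or.inr (Or.inr (Or.inl ⟨by linarith, by linarith, by linarith, by linarith, by linarith⟩)))
    · exact Or.inr (Or.inr (Or.inr (Or.inr (Or.inr (⟨by linarith, by linarith, by linarith, by linarith, by linarith⟩)))))
  · rcases le_total e f with k | k
    · exact Or.inr (Or.inr (Or.inr (Or.inr (Or.inl ⟨by linarith, by linarith, by linarith, by linarith, by linarith⟩))))
    · exact Or.inr (Or.inr (Or.inr (Or.inr (Or.inr (⟨by linarith, by linarith, by linarith, by linarith, by linarith⟩)))))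

theorem U_L3 (a b c d e f : ℝ) (h0 : 0 ≤ a) (hb : a ≤ b) (hc : a ≤ c) (hd : a ≤ d) (he : a ≤ e)
    (hf : a ≤ f) : 0 ≤ UU a b c d e f := by
  rcases min4 b c d e with h | h | h | h
  · rcases le_total b f with k | k
    · exact U_L1 a b c d e f h0 hb h.1 h.2.1 h.2.2 k
    · exact U_L2 a b c d e f h0 hf k h.1 h.2.1 h.2.2
  · rw [UU_sym3]
    rcases le_total c f with k | k
    · exact U_L1 a c b e d f h0 hc h.1 h.2.2 h.2.1 k
    · exact U_L2 a c b e d f h0 hf k h.1 h.2.2 h.2.1
  · rw [UU_sym1]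
    rcases le_total d f with k | k
    · exact U_L1 a d e b c f h0 hd h.2.2 h.1 h.2.1 k
    · exact U_L2 a d e b c f h0 hf k h.2.2 h.1 h.2.1
  · rw [UU_sym1, UU_sym3]
    rcases le_total e f with k | k
    · exact U_L1 a e d c b f h0 he h.2.2 h.2.1 h.1 k
    · exact U_L2 a e d c b f h0 hf k h.2.2 h.2.1 h.1

theorem U_L4 (a b c d e f : ℝ) (ha : 0 ≤ a) (hb : 0 ≤ b) (hc : 0 ≤ c) (hd : 0 ≤ d) (he : 0 ≤ e)
    (hf : 0 ≤ f) : 0 ≤ UU a b c d e f := by
  rcases min6 a b c d e f with h | h | h | h | h | h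
  · obtain ⟨h1, h2, h3, h4, h5⟩ := h
    exact U_L3 a b c d e f ha h1 h2 h3 h4 h5
  · obtain ⟨h1, h2, h3, h4, h5⟩ := h
    rw [UU_sym2]
    exact U_L3 b a c d f e hb h1 h2 h3 h5 h4
  · obtain ⟨h1, h2, h3, h4, h5⟩ := h
    rw [UU_sym3, UU_sym2]
    exact U_L3 c a b e f d hc h1 h2 h4 h5 h3
  · obtain ⟨h1, h2, h3, h4, h5⟩ := h
    rw [UU_sym1, UU_sym2]
    exact U_L3 d a e b f c hd h1 h4 h2 h5 h3
  · obtain ⟨h1, h2, h3, h4, h5⟩ := h
    rw [UU_sym1, UU_sym3, UU_sym2]
    exact U_L3 e a d c f b he h1 h4 h3 h5 h2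
  · obtain ⟨h1, h2, h3, h4, h5⟩ := h
    rw [UU_sym2, UU_sym1, UU_sym3, UU_sym2]
    exact U_L3 f b d c e a hf h2 h4 h3 h5 h1

theorem U5 (a b c d e f : ℝ) (ha : 0 ≤ a) (hb : 0 ≤ b) (hc : 0 ≤ c) (hd : 0 ≤ d) (he : 0 ≤ e)
    (hf : 0 ≤ f) :
    0 ≤ 95 * (a + b + c + d + e + f) ^ 2 * DD a b c d e f * DP a b c d e f
      + 160 * RR a b c d e f * DP a b c d e f * (a + b + c + d + e + f)
      - 1000 * DD a b c d e f ^ 2 * (a + b + c + d + e + f)
      - 52 * DP a b c d e f ^ 2 * DD a b c d e f :=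
  U_L4 a b c d e f ha hb hc hd he hf

end Pool.Agent.Helper552_D4
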