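import Pool.Agent.Helper552_D4.Defs
import Pool.Agent.Helper552_D4.Poly

set_option autoImplicit false

namespace Pool.Agent.Helper552_D4

open MeasureTheory Set


namespace ENERGY

lemma amgm3 {r s q κ : ℝ} (hr : 0 < r) (hs : 0 < s) (hq : 0 < q)
    (h : κ ^ 3 = r * s * q) : 3 * κ ≤ r + s + q := by
  by_contra hcon
  push Not at hcon
  have h1 : (r + s + q) ^ 3 < (3 * κ) ^ 3 :=
    pow_lt_pow_left₀ hcon (by positivity) (by norm_num)
  have h2 : 27 * (r * s * q) ≤ (r + s + q) ^ 3 := by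
    nlinarith [mul_nonneg hr.le (sq_nonneg (s - q)), mul_nonneg hs.le (sq_nonneg (r - q)),
      mul_nonneg hq.le (sq_nonneg (r - s)), mul_nonneg (add_pos (add_pos hr hs) hq).le
        (add_nonneg (add_nonneg (sq_nonneg (r - s)) (sq_nonneg (s - q))) (sq_nonneg (r - q)))]
  have h3 : (3 * κ) ^ 3 = 27 * (r * s * q) := by rw [mul_pow, h]; norm_num
  linarith

lemma core {W D P R δ : ℝ} (hW : 0 < W) (hD : 0 < D) (hP : 0 < P) (hδ : 0 < δ)
    (hDδ : D * δ = 1) (hr : 5 * D ≤ δ * P)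
    (hU : 0 ≤ 95 * W ^ 2 * D * P + 160 * R * P * W - 1000 * D ^ 2 * W - 52 * P ^ 2 * D) :
    13 / (24 * Real.sqrt 2) ≤ δ / 6 + (W + R / D) / 12 ∧
      (δ / 6 + (W + R / D) / 12 ≤ 13 / (24 * Real.sqrt 2) → δ = 1 / Real.sqrt 2) := by
  obtain ⟨κ, hκ, hκ3⟩ : ∃ κ : ℝ, 0 < κ ∧ κ ^ 3 = D / 4 := by
    refine ⟨(D / 4) ^ ((1 : ℝ) / 3), by positivity, ?_⟩
    rw [← Real.rpow_natCast, ← Real.rpow_mul (by positivity)]
    norm_num
  set r := 5 * D / P with hrdef
  set q := P / (5 * W) with hqdef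
  have hr0 : 0 < r := by positivity
  have hq0 : 0 < q := by positivity
  have h1 : 3 * κ ≤ r + W / 4 + q := by
    apply amgm3 hr0 (by positivity) hq0
    rw [hκ3, hrdef, hqdef]
    field_simp
  have h2 : 40 * r + 52 * q ≤ 19 * W + 32 * (R / D) := by
    have e : 19 * W + 32 * (R / D) - (40 * r + 52 * q) =
        (95 * W ^ 2 * D * P + 160 * R * P * W - 1000 * D ^ 2 * W - 52 * P ^ 2 * D) /
          (5 * W * D * P) := by
      rw [hrdef, hqdef]
      field_simp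
      ring
    have : 0 ≤ 19 * W + 32 * (R / D) - (40 * r + 52 * q) := by
      rw [e]; exact div_nonneg hU (by positivity)
    linarith
  have h3 : r ≤ δ := by
    rw [hrdef, div_le_iff₀ hP]; exact hr
  have h4 : (13 / 96) * (3 * κ + δ) ≤ δ / 6 + (W + R / D) / 12 := by linarith
  set u := 1 / Real.sqrt 2 with hu
  have hs2 : 0 < Real.sqrt 2 := Real.sqrt_pos.2 (by norm_num)
  have hu0 : 0 < u := by positivity
  have hu2 : u ^ 2 = 1 / 2 := by
    rw [hu, div_pow, Real.sq_sqrt (by norm_num)]; norm_num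
  have hu4 : u ^ 4 = 1 / 4 := by
    have : u ^ 4 = (u ^ 2) ^ 2 := by ring
    rw [this, hu2]; norm_num
  have hκδ : κ ^ 3 * δ = u ^ 4 := by
    rw [hκ3, hu4]; linarith
  have hT : 13 / (24 * Real.sqrt 2) = (13 / 96) * (4 * u) := by
    rw [hu]; field_simp; norm_num
  have key : κ ^ 3 * (3 * κ + δ - 4 * u) = (κ - u) ^ 2 * (3 * κ ^ 2 + 2 * κ * u + u ^ 2) := by
    have : κ ^ 3 * (3 * κ + δ - 4 * u) = 3 * κ ^ 4 - 4 * u * κ ^ 3 + κ ^ 3 * δ := by ring
    rw [this, hκδ]; ring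
  have hκp : 0 < κ ^ 3 := by positivity
  have h5 : 0 ≤ 3 * κ + δ - 4 * u := by
    by_contra hcon
    push Not at hcon
    have : κ ^ 3 * (3 * κ + δ - 4 * u) < 0 := mul_neg_of_pos_of_neg hκp hcon
    rw [key] at this
    have h6 : 0 ≤ (κ - u) ^ 2 * (3 * κ ^ 2 + 2 * κ * u + u ^ 2) := by positivity
    linarith
  rw [hT]
  refine ⟨by linarith, fun hle => ?_⟩
  have h7 : 3 * κ + δ - 4 * u = 0 := by linarith
  rw [h7, mul_zero] at key
  have h8 : κ - u = 0 := by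
    rcases mul_eq_zero.1 key.symm with h | h
    · exact pow_eq_zero_iff (two_ne_zero) |>.1 h
    · have : 0 < 3 * κ ^ 2 + 2 * κ * u + u ^ 2 := by positivity
      linarith
  linarith

end ENERGY

/-- TARGET -/
theorem energy (a b c d e f : ℝ) (ha : 0 ≤ a) (hb : 0 ≤ b) (hc : 0 ≤ c) (hd : 0 ≤ d)
    (he : 0 ≤ e) (hf : 0 ≤ f) (δ : ℝ) (hδ : 0 < δ) (hD : DD a b c d e f * δ = 1)
    (hr : 5 * DD a b c d e f ≤ δ * DP a b c d e f) :
    13 / (24 * Real.sqrt 2)
        ≤ δ / 6 + (a + b + c + d + e + f + RR a b c d e f / DD a b c d e f) / 12 ∧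
      (δ / 6 + (a + b + c + d + e + f + RR a b c d e f / DD a b c d e f) / 12
          ≤ 13 / (24 * Real.sqrt 2) → δ = 1 / Real.sqrt 2) := by
  have hDpos : 0 < DD a b c d e f := by
    by_contra hcon
    push Not at hcon
    have : DD a b c d e f * δ ≤ 0 := mul_nonpos_of_nonpos_of_nonneg hcon hδ.le
    linarith
  have hPpos : 0 < DP a b c d e f := by
    by_contra hcon
    push Not at hcon
    have : δ * DP a b c d e f ≤ 0 := mul_nonpos_of_nonneg_of_nonpos hδ.le hcon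
    linarith
  have hW : 0 < a + b + c + d + e + f := by
    by_contra hcon
    have h0 : a = 0 ∧ b = 0 ∧ c = 0 ∧ d = 0 ∧ e = 0 ∧ f = 0 := by
      refine ⟨?_, ?_, ?_, ?_, ?_, ?_⟩ <;> linarith
    obtain ⟨rfl, rfl, rfl, rfl, rfl, rfl⟩ := h0
    simp [DD] at hDpos
  exact ENERGY.core hW hDpos hPpos hδ hD hr (U5 a b c d e f ha hb hc hd he hf)

end Pool.Agent.Helper552_D4
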