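import Pool.Agent.Helper552_D4.Main

/-!
# The explicit form of the optimal lattices
-/

set_option autoImplicit false

namespace Pool.Agent.Helper552_D4

open MeasureTheory Set Module

namespace Iso

open DUAL

/-- Columns: a basis of the lattice of integer vectors with even sum. -/
def um : Matrix (Fin 4) (Fin 4) ℤ := !![1, 1, -1, 1; 0, 1, 0, -1; 0, 0, 1, 0; 1, 0, 0, 0]

theorem um_det : um.det = -2 := by decide

/-- The vectors of the basis. -/
noncomputable def uv (j : Fin 4) : E4 := WithLp.toLp 2 fun i => DUAL.cc * (um i j : ℝ)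

theorem uv_apply (i j : Fin 4) : uv j i = DUAL.cc * (um i j : ℝ) := rfl

theorem uv_det : e4.det uv = -1 := by
  rw [det_eq]
  have h : (Matrix.of fun i j => uv j i : Matrix (Fin 4) (Fin 4) ℝ) =
      DUAL.cc • (um.map (Int.castRingHom ℝ)) := by
    ext i j
    simp [uv_apply]
  rw [h, Matrix.det_smul, ← RingHom.mapMatrix_apply, ← RingHom.map_det, um_det]
  simp only [Fintype.card_fin, cc_four]
  norm_num

theorem exists_u : ∃ b : Basis (Fin 4) ℝ E4, ∀ j, b j = uv j := by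
  have hdet : IsUnit (e4.det uv) := by rw [uv_det]; norm_num
  obtain ⟨h1, h2⟩ := (Basis.is_basis_iff_det e4).mpr hdet
  exact ⟨Basis.mk h1 h2.ge, fun j => Basis.mk_apply h1 _ j⟩

/-- The value `1 / √2`. -/
noncomputable def dl : ℝ := 1 / Real.sqrt 2

theorem dl_pos : 0 < dl := by unfold dl; positivity

theorem cc_sq' : DUAL.cc ^ 2 = dl := by
  rw [cc_sq]
  unfold dl
  have : Real.sqrt 2 ≠ 0 := by positivity
  field_simp
  exact Real.sq_sqrt (by norm_num)

theorem norm4 (x : E4) : ‖x‖ ^ 2 = x 0 ^ 2 + x 1 ^ 2 + x 2 ^ 2 + x 3 ^ 2 := by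
  rw [EuclideanSpace.real_norm_sq_eq, Fin.sum_univ_four]

/-- The last coordinate vector, scaled. -/
noncomputable def p0 : E4 := WithLp.toLp 2 fun i => if i = 3 then DUAL.cc⁻¹ else 0

theorem comb (t : ℝ) (z : Fin 3 → ℝ) (i : Fin 4) :
    (t • uv 0 + z 0 • uv 1 + z 1 • uv 2 + z 2 • uv 3 : E4) i
      = DUAL.cc * (t * (um i 0 : ℝ) + z 0 * (um i 1 : ℝ) + z 1 * (um i 2 : ℝ)
        + z 2 * (um i 3 : ℝ)) := by
  simp only [PiLp.add_apply, PiLp.smul_apply, smul_eq_mul, uv_apply]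
  ring

theorem frame_u (b : Basis (Fin 4) ℝ E4) (hb : ∀ j, b j = uv j) :
    Frame b p0 dl 0 dl dl 0 dl ![1 / 2, 0, 1 / 2] dl where
  h1 := dl_pos.le
  h2 := le_refl _
  h3 := dl_pos.le
  h4 := dl_pos.le
  h5 := le_refl _
  h6 := dl_pos.le
  hδ := dl_pos
  gram := by
    intro t z
    rw [hb, hb, hb, hb, norm4, comb, comb, comb, comb, ← cc_sq']
    simp only [um, K3]
    simp
    ring
  dual := by
    intro t z
    rw [hb, hb, hb, hb, PiLp.inner_apply, Fin.sum_univ_four, comb, comb, comb, comb]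
    simp only [um, p0]
    have h := cc_pos.ne'
    simp
    field_simp
  norm_p := by
    rw [norm4, ← cc_sq']
    have h := cc_pos.ne'
    simp only [p0]
    simp
    field_simp

/-- Two frames with the same parameters are isometric. -/
theorem frame_iso (b u : Basis (Fin 4) ℝ E4) (p q : E4) (k1 k2 k3 k4 k5 k6 : ℝ)
    (τ : Fin 3 → ℝ) (δ : ℝ) (hb : Frame b p k1 k2 k3 k4 k5 k6 τ δ)
    (hu : Frame u q k1 k2 k3 k4 k5 k6 τ δ) :
    ∃ φ : E4 ≃ₗᵢ[ℝ] E4, ∀ y, y ∈ Submodule.span ℤ (Set.range b)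
      ↔ φ y ∈ Submodule.span ℤ (Set.range u) := by
  have hn : ∀ x : E4, ‖b.equiv u (Equiv.refl _) x‖ = ‖x‖ := by
    intro x
    have hx : x = b.repr x 0 • b 0 + b.repr x 1 • b 1 + b.repr x 2 • b 2 + b.repr x 3 • b 3 := by
      conv_lhs => rw [← b.sum_repr x, Fin.sum_univ_four]
    have h1 := hb.gram (b.repr x 0) ![b.repr x 1, b.repr x 2, b.repr x 3]
    have h2 := hu.gram (b.repr x 0) ![b.repr x 1, b.repr x 2, b.repr x 3]
    have h3 : b.equiv u (Equiv.refl _) x
        = b.repr x 0 • u 0 + b.repr x 1 • u 1 + b.repr x 2 • u 2 + b.repr x 3 • u 3 := by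
      conv_lhs => rw [hx]
      simp only [map_add, map_smul, Basis.equiv_apply, Equiv.refl_apply]
    have h4 : ‖b.equiv u (Equiv.refl _) x‖ ^ 2 = ‖x‖ ^ 2 := by
      rw [h3]
      conv_rhs => rw [hx]
      have h1' := h1
      have h2' := h2
      simp only [Matrix.cons_val_zero, Matrix.cons_val_one, Matrix.cons_val] at h1' h2'
      rw [h1', h2']
    exact (pow_left_inj₀ (norm_nonneg _) (norm_nonneg _) (by norm_num)).1 h4
  refine ⟨⟨b.equiv u (Equiv.refl _), hn⟩, fun y => ?_⟩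
  show _ ↔ b.equiv u (Equiv.refl _) y ∈ _
  rw [Basis.mem_span_iff_repr_mem, Basis.mem_span_iff_repr_mem]
  have h5 : ∀ i, u.repr (b.equiv u (Equiv.refl _) y) i = b.repr y i := by
    intro i
    simp [Basis.equiv]
  simp only [h5]

/-- The explicit lattice. -/
theorem mem_u (b : Basis (Fin 4) ℝ E4) (hb : ∀ j, b j = uv j) (y : E4) :
    y ∈ Submodule.span ℤ (Set.range b) ↔
      ∃ n : Fin 4 → ℤ, Even (n 0 + n 1 + n 2 + n 3) ∧
        ∀ i, Real.sqrt (Real.sqrt 2) * y i = n i := by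
  have hs : Real.sqrt (Real.sqrt 2) * DUAL.cc = 1 := by
    unfold DUAL.cc
    rw [← Real.sqrt_mul (by positivity)]
    have : Real.sqrt 2 * (Real.sqrt 2 / 2) = 1 := by
      rw [← mul_div_assoc, Real.mul_self_sqrt (by norm_num)]; norm_num
    rw [this, Real.sqrt_one]
  rw [Submodule.mem_span_range_iff_exists_fun]
  constructor
  · rintro ⟨m, rfl⟩
    refine ⟨fun i => ∑ j, m j * um i j, ?_, fun i => ?_⟩
    · simp only [Fin.sum_univ_four, um]
      simp
      refine ⟨m 0 + m 1, by ring⟩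
    · have h1 : (∑ j, m j • b j : E4) i = ∑ j, (m j • b j : E4) i := by
        simp
      rw [h1, Finset.mul_sum]
      push_cast
      refine Finset.sum_congr rfl fun j _ => ?_
      rw [hb, ← Int.cast_smul_eq_zsmul ℝ]
      simp only [PiLp.smul_apply, smul_eq_mul, uv_apply]
      calc Real.sqrt (Real.sqrt 2) * ((m j : ℝ) * (DUAL.cc * (um i j : ℝ)))
          = (Real.sqrt (Real.sqrt 2) * DUAL.cc) * ((m j : ℝ) * (um i j : ℝ)) := by ring
        _ = _ := by rw [hs, one_mul]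
  · rintro ⟨n, ⟨k, hk⟩, hn⟩
    refine ⟨![n 3, k - n 3, n 2, k - n 3 - n 1], ?_⟩
    have hy : ∀ i, y i = DUAL.cc * n i := by
      intro i
      rw [← hn i, ← mul_assoc, mul_comm DUAL.cc, hs, one_mul]
    ext i
    have h1 : (∑ j, (![n 3, k - n 3, n 2, k - n 3 - n 1] : Fin 4 → ℤ) j • b j : E4) i
        = ∑ j, ((![n 3, k - n 3, n 2, k - n 3 - n 1] : Fin 4 → ℤ) j • b j : E4) i := by
      simp
    have hk' : (n 0 : ℝ) + n 1 + n 2 + n 3 = k + k := by exact_mod_cast hk
    rw [h1, hy i]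
    simp only [hb, ← Int.cast_smul_eq_zsmul ℝ, PiLp.smul_apply, smul_eq_mul, uv_apply,
      Fin.sum_univ_four]
    fin_cases i <;> simp [um] <;> first | ring1 | linear_combination (DUAL.cc) * (-hk')

open Main

/-- The explicit description of the lattices with a frame of type D4. -/
theorem hasFrame_iff (L : Submodule ℤ E4) :
    HasFrame L ↔ ∃ φ : E4 ≃ₗᵢ[ℝ] E4, ∀ y, y ∈ L ↔
      ∃ n : Fin 4 → ℤ, Even (n 0 + n 1 + n 2 + n 3) ∧
        ∀ i, Real.sqrt (Real.sqrt 2) * (φ y) i = n i := by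
  obtain ⟨u, hu⟩ := exists_u
  have hFu := frame_u u hu
  constructor
  · rintro ⟨b, p, hsp, hF⟩
    obtain ⟨φ, hφ⟩ := frame_iso b u p p0 _ _ _ _ _ _ _ _ hF hFu
    refine ⟨φ, fun y => ?_⟩
    rw [← hsp, hφ y, mem_u u hu]
  · rintro ⟨φ, hφ⟩
    refine ⟨u.map φ.symm.toLinearEquiv, φ.symm p0, ?_, ?_⟩
    · ext y
      rw [hφ y, ← mem_u u hu (φ y), Basis.mem_span_iff_repr_mem, Basis.mem_span_iff_repr_mem]
      have h5 : ∀ i, (u.map φ.symm.toLinearEquiv).repr y i = u.repr (φ y) i := by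
        intro i
        rw [Basis.map_repr]
        rfl
      simp only [h5]
    · have hmap : ∀ (t : ℝ) (z : Fin 3 → ℝ),
          t • (u.map φ.symm.toLinearEquiv) 0 + z 0 • (u.map φ.symm.toLinearEquiv) 1
            + z 1 • (u.map φ.symm.toLinearEquiv) 2 + z 2 • (u.map φ.symm.toLinearEquiv) 3
          = φ.symm (t • u 0 + z 0 • u 1 + z 1 • u 2 + z 2 • u 3) := by
        intro t z
        simp only [Basis.map_apply, map_add, map_smul]
        rfl
      refine ⟨hFu.h1, hFu.h2, hFu.h3, hFu.h4, hFu.h5, hFu.h6, hFu.hδ, ?_, ?_, ?_⟩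
      · intro t z
        rw [hmap, LinearIsometryEquiv.norm_map]
        exact hFu.gram t z
      · intro t z
        rw [hmap, LinearIsometryEquiv.inner_map_map]
        exact hFu.dual t z
      · rw [LinearIsometryEquiv.norm_map]
        exact hFu.norm_p

end Iso

end Pool.Agent.Helper552_D4
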