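import Pool.Agent.Helper552_D4.Defs
import Pool.Agent.Helper552_D4.FBasic
import Pool.Agent.Helper552_D4.Pack
import Pool.Agent.Helper552_D4.Box

set_option autoImplicit false

namespace Pool.Agent.Helper552_D4

open MeasureTheory Set








namespace L3D

/-- the six linear forms -/
def Y : Fin 6 → Fin 3 → ℤ :=
  ![![1, -1, 0], ![1, 0, -1], ![1, 0, 0], ![0, 1, -1], ![0, 1, 0], ![0, 0, 1]]

/-- the spanning trees -/
def tr : Fin 16 → Fin 3 → Fin 6 :=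
  ![![0, 1, 2], ![0, 1, 4], ![0, 1, 5], ![0, 2, 3], ![0, 2, 5], ![0, 3, 4], ![0, 3, 5],
    ![0, 4, 5], ![1, 2, 3], ![1, 2, 4], ![1, 3, 4], ![1, 3, 5], ![1, 4, 5], ![2, 3, 4],
    ![2, 3, 5], ![2, 4, 5]]

/-- the signs -/
def sg : Fin 16 → Fin 6 → ℤ :=
  ![![0, 0, 0, -1, -1, -1], ![0, 0, 1, -1, 0, 1], ![0, 0, 1, -1, -1, 0], ![0, 1, 0, 0, -1, -1],
    ![0, -1, 0, -1, -1, 0], ![0, 1, 1, 0, 0, 1], ![0, 1, 1, 0, -1, 0], ![0, 1, 1, 1, 0, 0],
    ![-1, 0, 0, 0, -1, -1], ![-1, 0, 0, 1, 0, -1], ![-1, 0, 1, 0, 0, 1], ![-1, 0, 1, 0, -1, 0],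
    ![-1, 0, 1, 1, 0, 0], ![-1, -1, 0, 0, 0, 1], ![-1, -1, 0, 0, -1, 0], ![-1, -1, 0, 1, 0, 0]]

/-- the certificates -/
def eta : Fin 16 → Fin 3 → ℤ :=
  ![![0, -1, 0], ![5, 4, 5], ![2, 1, 2], ![0, -1, -1], ![0, -1, 2], ![5, 4, 4], ![3, 2, 2],
    ![5, 4, 2], ![0, 0, 0], ![0, 4, 0], ![4, 4, 4], ![2, 2, 2], ![2, 4, 2], ![0, 4, 4],
    ![0, 2, 2], ![0, 4, 2]]

/-- the costs -/
def cost : Fin 6 → ℤ := ![1, 0, 0, 0, 4, 2]

/-- the linear form on integer vectors -/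
def dotZ (e : Fin 6) (n : Fin 3 → ℤ) : ℤ := Y e 0 * n 0 + Y e 1 * n 1 + Y e 2 * n 2

/-- the linear form on real vectors -/
def dot (e : Fin 6) (z : Fin 3 → ℝ) : ℝ := Y e 0 * z 0 + Y e 1 * z 1 + Y e 2 * z 2

theorem fact1 : ∀ (T : Fin 16) (e : Fin 6),
    (sg T e = 0 ∧ dotZ e (eta T) = cost e ∧ ∃ j, tr T j = e) ∨
    (sg T e = 1 ∧ cost e < dotZ e (eta T) ∧ ∀ j, tr T j ≠ e) ∨
    (sg T e = -1 ∧ dotZ e (eta T) < cost e ∧ ∀ j, tr T j ≠ e) := by
  decide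

theorem fact2 : ∀ T T' : Fin 16, (∀ j, ∃ i, tr T i = tr T' j) → T = T' := by
  decide

theorem fact3 (T : Fin 16) (n : Fin 3 → ℤ) (h : ∀ j, dotZ (tr T j) n = 0) : n = 0 := by
  have h0 := h 0
  have h1 := h 1
  have h2 := h 2
  have : n 0 = 0 ∧ n 1 = 0 ∧ n 2 = 0 := by
    fin_cases T <;> simp [dotZ, tr, Y] at h0 h1 h2 <;> omega
  funext i
  fin_cases i
  · exact this.1
  · exact this.2.1
  · exact this.2.2

theorem fact4 : ∀ (T : Fin 16) (i j : Fin 3), tr T i = tr T j → i = j := by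
  decide

/-- the integer determinant of a tree -/
def dt (T : Fin 16) : ℤ :=
  Y (tr T 0) 0 * (Y (tr T 1) 1 * Y (tr T 2) 2 - Y (tr T 1) 2 * Y (tr T 2) 1)
  - Y (tr T 1) 0 * (Y (tr T 0) 1 * Y (tr T 2) 2 - Y (tr T 0) 2 * Y (tr T 2) 1)
  + Y (tr T 2) 0 * (Y (tr T 0) 1 * Y (tr T 1) 2 - Y (tr T 0) 2 * Y (tr T 1) 1)

theorem fact5 : ∀ T : Fin 16, dt T = 1 ∨ dt T = -1 := by
  decide

variable (w : Fin 6 → ℝ)

/-- the form -/
def Kw (z : Fin 3 → ℝ) : ℝ := K3 (w 0) (w 1) (w 2) (w 3) (w 4) (w 5) (z 0) (z 1) (z 2)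

/-- the determinant -/
def Dw : ℝ := DD (w 0) (w 1) (w 2) (w 3) (w 4) (w 5)

/-- the adjugate matrix -/
def Aw : Matrix (Fin 3) (Fin 3) ℝ :=
  !![(w 0 + w 3 + w 4) * (w 1 + w 3 + w 5) - w 3 ^ 2, w 0 * (w 1 + w 3 + w 5) + w 1 * w 3,
      w 0 * w 3 + w 1 * (w 0 + w 3 + w 4);
    w 0 * (w 1 + w 3 + w 5) + w 1 * w 3, (w 0 + w 1 + w 2) * (w 1 + w 3 + w 5) - w 1 ^ 2,
      (w 0 + w 1 + w 2) * w 3 + w 0 * w 1;
    w 0 * w 3 + w 1 * (w 0 + w 3 + w 4), (w 0 + w 1 + w 2) * w 3 + w 0 * w 1,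
      (w 0 + w 1 + w 2) * (w 0 + w 3 + w 4) - w 0 ^ 2]

/-- the inverse matrix -/
noncomputable def Bw : Matrix (Fin 3) (Fin 3) ℝ := (Dw w)⁻¹ • Aw w

/-- the right hand side -/
def xi (s : Fin 6 → ℝ) : Fin 3 → ℝ := fun i => ∑ e, s e * w e * (Y e i : ℝ)

theorem Kw_eq (z : Fin 3 → ℝ) : Kw w z = ∑ e, w e * dot e z ^ 2 := by
  simp [Kw, K3, dot, Y, Fin.sum_univ_succ]
  ring

/-- the quadratic form of the adjugate -/
def qf (x : Fin 3 → ℝ) : ℝ :=
  Aw w 0 0 * x 0 ^ 2 + Aw w 1 1 * x 1 ^ 2 + Aw w 2 2 * x 2 ^ 2 + 2 * Aw w 0 1 * x 0 * x 1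
    + 2 * Aw w 0 2 * x 0 * x 2 + 2 * Aw w 1 2 * x 1 * x 2

theorem mulVec3 (M : Matrix (Fin 3) (Fin 3) ℝ) (x : Fin 3 → ℝ) (i : Fin 3) :
    M.mulVec x i = M i 0 * x 0 + M i 1 * x 1 + M i 2 * x 2 := by
  simp [Matrix.mulVec, dotProduct, Fin.sum_univ_succ]
  ring

theorem Bw_apply (x : Fin 3 → ℝ) (i : Fin 3) :
    (Bw w).mulVec x i = (Dw w)⁻¹ * (Aw w i 0 * x 0 + Aw w i 1 * x 1 + Aw w i 2 * x 2) := by
  rw [mulVec3]
  simp only [Bw, Matrix.smul_apply, smul_eq_mul]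
  ring

theorem K_B (h : Dw w ≠ 0) (x : Fin 3 → ℝ) : Kw w ((Bw w).mulVec x) = (Dw w)⁻¹ * qf w x := by
  have key : K3 (w 0) (w 1) (w 2) (w 3) (w 4) (w 5)
      (Aw w 0 0 * x 0 + Aw w 0 1 * x 1 + Aw w 0 2 * x 2)
      (Aw w 1 0 * x 0 + Aw w 1 1 * x 1 + Aw w 1 2 * x 2)
      (Aw w 2 0 * x 0 + Aw w 2 1 * x 1 + Aw w 2 2 * x 2) = Dw w * qf w x := by
    simp only [K3, Aw, Dw, DD, qf, Matrix.of_apply, Matrix.cons_val', Matrix.cons_val_zero,
      Matrix.cons_val_one, Matrix.cons_val]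
    ring
  have h2 : Kw w ((Bw w).mulVec x) = (Dw w)⁻¹ ^ 2 * (Dw w * qf w x) := by
    rw [← key, Kw, Bw_apply, Bw_apply, Bw_apply, K3, K3]
    ring
  rw [h2]
  field_simp

theorem bil (h : Dw w ≠ 0) (x : Fin 3 → ℝ) (n : Fin 3 → ℝ) :
    ∑ e, w e * dot e n * dot e ((Bw w).mulVec x) = n 0 * x 0 + n 1 * x 1 + n 2 * x 2 := by
  have key : ∑ e, w e * dot e n * dot e (fun i => Aw w i 0 * x 0 + Aw w i 1 * x 1 +
      Aw w i 2 * x 2) = Dw w * (n 0 * x 0 + n 1 * x 1 + n 2 * x 2) := by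
    simp [dot, Y, Fin.sum_univ_succ, Aw, Dw, DD]
    ring
  have h1 : ∀ e, dot e ((Bw w).mulVec x) = (Dw w)⁻¹ * dot e (fun i => Aw w i 0 * x 0 +
      Aw w i 1 * x 1 + Aw w i 2 * x 2) := by
    intro e
    rw [dot, dot, Bw_apply, Bw_apply, Bw_apply]
    ring
  have h2 : ∑ e, w e * dot e n * dot e ((Bw w).mulVec x) = (Dw w)⁻¹ *
      ∑ e, w e * dot e n * dot e (fun i => Aw w i 0 * x 0 + Aw w i 1 * x 1 + Aw w i 2 * x 2) := by
    rw [Finset.mul_sum]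
    refine Finset.sum_congr rfl fun e _ => ?_
    rw [h1]
    ring
  rw [h2, key]
  field_simp

theorem xi_dot (s : Fin 6 → ℝ) (n : Fin 3 → ℝ) :
    n 0 * xi w s 0 + n 1 * xi w s 1 + n 2 * xi w s 2 = ∑ e, s e * w e * dot e n := by
  simp only [xi, dot, Finset.mul_sum, ← Finset.sum_add_distrib]
  refine Finset.sum_congr rfl fun e _ => ?_
  ring

theorem dot_int (e : Fin 6) (n : Fin 3 → ℤ) : dot e (fun i => (n i : ℝ)) = (dotZ e n : ℝ) := by
  simp [dot, dotZ]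

theorem dot_sub (e : Fin 6) (z n : Fin 3 → ℝ) :
    dot e (fun i => z i - n i) = dot e z - dot e n := by
  simp only [dot]
  ring

/-- the difference of the values of the form at `z - n` and `z` -/
theorem K_diff (h : Dw w ≠ 0) (s : Fin 6 → ℝ) (n : Fin 3 → ℤ) :
    Kw w (fun i => (Bw w).mulVec (xi w s) i - n i) - Kw w ((Bw w).mulVec (xi w s)) =
      ∑ e, w e * ((dotZ e n : ℝ) ^ 2 - 2 * s e * dotZ e n) := by
  have h1 := bil w h (xi w s) (fun i => (n i : ℝ))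
  rw [xi_dot w s (fun i => (n i : ℝ))] at h1
  rw [Kw_eq, Kw_eq, ← Finset.sum_sub_distrib]
  have h2 : ∀ e, w e * dot e (fun i => (Bw w).mulVec (xi w s) i - n i) ^ 2 -
      w e * dot e ((Bw w).mulVec (xi w s)) ^ 2 = w e * (dotZ e n : ℝ) ^ 2 -
      2 * (w e * dot e (fun i => (n i : ℝ)) * dot e ((Bw w).mulVec (xi w s))) := by
    intro e
    rw [dot_sub e _ (fun i => (n i : ℝ)), dot_int]
    ring
  rw [Finset.sum_congr rfl fun e _ => h2 e, Finset.sum_sub_distrib, ← Finset.mul_sum, h1,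
    Finset.mul_sum, ← Finset.sum_sub_distrib]
  refine Finset.sum_congr rfl fun e _ => ?_
  rw [dot_int]
  ring

theorem int_ineq (s : ℝ) (hs : |s| ≤ 1 / 2) (k : ℤ) : 0 ≤ (k : ℝ) ^ 2 - 2 * s * k := by
  have h1 : |(k : ℝ)| ≤ (k : ℝ) ^ 2 := by
    have : |k| ≤ k ^ 2 := by
      rcases le_or_gt 0 k with hk | hk
      · rw [abs_of_nonneg hk]; nlinarith
      · rw [abs_of_neg hk]; nlinarith
    exact_mod_cast this
  have h2 : s * k ≤ |s| * |(k : ℝ)| := by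
    rw [← abs_mul]; exact le_abs_self _
  have h3 : |s| * |(k : ℝ)| ≤ 1 / 2 * |(k : ℝ)| := mul_le_mul_of_nonneg_right hs (abs_nonneg _)
  linarith

theorem int_strict (s : ℝ) (hs : |s| < 1 / 2) (k : ℤ) (h : (k : ℝ) ^ 2 - 2 * s * k = 0) :
    k = 0 := by
  by_contra hk
  have hk1 : (1 : ℝ) ≤ |(k : ℝ)| := by
    have : 1 ≤ |k| := Int.one_le_abs hk
    exact_mod_cast this
  have h2 : s * k ≤ |s| * |(k : ℝ)| := by
    rw [← abs_mul]; exact le_abs_self _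
  have h3 : |s| * |(k : ℝ)| < 1 / 2 * |(k : ℝ)| := mul_lt_mul_of_pos_right hs (by linarith)
  have h4 : |(k : ℝ)| * |(k : ℝ)| = (k : ℝ) ^ 2 := by
    rw [abs_mul_abs_self]; ring
  nlinarith

/-- the coordinates of a point of a tile -/
noncomputable def sv (T : Fin 16) (t : Fin 3 → ℝ) (e : Fin 6) : ℝ :=
  (sg T e : ℝ) / 2 + ∑ j, if tr T j = e then t j else 0

theorem sv_tree (T : Fin 16) (t : Fin 3 → ℝ) (j : Fin 3) : sv T t (tr T j) = t j := by
  have h1 : sg T (tr T j) = 0 := by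
    rcases fact1 T (tr T j) with h | h | h
    · exact h.1
    · exact absurd rfl (h.2.2 j)
    · exact absurd rfl (h.2.2 j)
  rw [sv, h1, Finset.sum_eq_single j]
  · simp
  · intro i _ hi
    rw [if_neg fun h => hi (fact4 T i j h)]
  · intro h
    exact absurd (Finset.mem_univ _) h

theorem sv_off (T : Fin 16) (t : Fin 3 → ℝ) (e : Fin 6) (h : ∀ j, tr T j ≠ e) :
    sv T t e = (sg T e : ℝ) / 2 := by
  rw [sv, Finset.sum_eq_zero, add_zero]
  intro j _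
  rw [if_neg (h j)]

/-- the box -/
def box : Set (Fin 3 → ℝ) := Set.univ.pi fun _ => Set.Ioo (-(1 / 2) : ℝ) (1 / 2)

theorem sv_le (T : Fin 16) (t : Fin 3 → ℝ) (ht : t ∈ box) (e : Fin 6) : |sv T t e| ≤ 1 / 2 := by
  rcases fact1 T e with h | h | h
  · obtain ⟨j, rfl⟩ := h.2.2
    rw [sv_tree]
    have := ht j (Set.mem_univ j)
    exact abs_le.2 ⟨this.1.le, this.2.le⟩
  · rw [sv_off T t e h.2.2, h.1]
    norm_num
  · rw [sv_off T t e h.2.2, h.1]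
    norm_num [abs_div]

theorem sv_lt (T : Fin 16) (t : Fin 3 → ℝ) (ht : t ∈ box) (j : Fin 3) :
    |sv T t (tr T j)| < 1 / 2 := by
  rw [sv_tree]
  have := ht j (Set.mem_univ j)
  exact abs_lt.2 ⟨this.1, this.2⟩

/-- the columns of the tile -/
def Nw (T : Fin 16) : Matrix (Fin 3) (Fin 3) ℝ :=
  Matrix.of fun i j => w (tr T j) * (Y (tr T j) i : ℝ)

/-- the matrix of the tile -/
noncomputable def Mw (T : Fin 16) : Matrix (Fin 3) (Fin 3) ℝ := Bw w * Nw w T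

/-- the centre of the tile -/
noncomputable def uw (T : Fin 16) : Fin 3 → ℝ := (Bw w).mulVec (xi w fun e => (sg T e : ℝ) / 2)

/-- the tile -/
def tile (T : Fin 16) : Set (Fin 3 → ℝ) := (fun t : Fin 3 → ℝ => uw w T + (Mw w T).mulVec t) '' box

theorem xi_sv (T : Fin 16) (t : Fin 3 → ℝ) :
    xi w (sv T t) = (xi w fun e => (sg T e : ℝ) / 2) + (Nw w T).mulVec t := by
  funext i
  simp only [xi, sv, Pi.add_apply, add_mul, Finset.sum_add_distrib]
  congr 1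
  simp only [Finset.sum_mul]
  rw [Finset.sum_comm, Matrix.mulVec, dotProduct]
  refine Finset.sum_congr rfl fun j _ => ?_
  simp only [ite_mul, zero_mul, Finset.sum_ite_eq, Finset.mem_univ, if_true, Nw, Matrix.of_apply]
  ring

theorem tile_pt (T : Fin 16) (t : Fin 3 → ℝ) :
    uw w T + (Mw w T).mulVec t = (Bw w).mulVec (xi w (sv T t)) := by
  rw [xi_sv, Matrix.mulVec_add, Matrix.mulVec_mulVec]
  rfl

theorem mem_tile {T : Fin 16} {z : Fin 3 → ℝ} (hz : z ∈ tile w T) :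
    ∃ t ∈ box, z = (Bw w).mulVec (xi w (sv T t)) := by
  obtain ⟨t, ht, rfl⟩ := hz
  exact ⟨t, ht, tile_pt w T t⟩

variable {w}

/-- the weight of a tree -/
def tw (w : Fin 6 → ℝ) (T : Fin 16) : ℝ := w (tr T 0) * w (tr T 1) * w (tr T 2)

theorem pos_of_tw (hw : ∀ e, 0 ≤ w e) {T : Fin 16} (h : 0 < tw w T) (j : Fin 3) :
    0 < w (tr T j) := by
  refine lt_of_le_of_ne (hw _) fun h0 => ?_
  have : tw w T = 0 := by
    rw [tw]
    fin_cases j
    · simp at h0; rw [← h0]; ring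
    · simp at h0; rw [← h0]; ring
    · simp at h0; rw [← h0]; ring
  rw [this] at h
  exact lt_irrefl _ h

theorem K_le (hw : ∀ e, 0 ≤ w e) (hD : Dw w ≠ 0) {T : Fin 16} {z : Fin 3 → ℝ}
    (hz : z ∈ tile w T) (n : Fin 3 → ℤ) : Kw w z ≤ Kw w (fun i => z i - n i) := by
  obtain ⟨t, ht, rfl⟩ := mem_tile w hz
  rw [← sub_nonneg, K_diff w hD]
  exact Finset.sum_nonneg fun e _ => mul_nonneg (hw e) (int_ineq _ (sv_le T t ht e) _)

theorem K_strict (hw : ∀ e, 0 ≤ w e) (hD : Dw w ≠ 0) {T : Fin 16} (hT : 0 < tw w T)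
    {z : Fin 3 → ℝ} (hz : z ∈ tile w T) (n : Fin 3 → ℤ)
    (h : Kw w (fun i => z i - n i) ≤ Kw w z) : n = 0 := by
  obtain ⟨t, ht, rfl⟩ := mem_tile w hz
  have h1 := K_diff w hD (sv T t) n
  have h2 : ∀ e ∈ Finset.univ, 0 ≤ w e * ((dotZ e n : ℝ) ^ 2 - 2 * sv T t e * dotZ e n) :=
    fun e _ => mul_nonneg (hw e) (int_ineq _ (sv_le T t ht e) _)
  have h3 : ∑ e, w e * ((dotZ e n : ℝ) ^ 2 - 2 * sv T t e * dotZ e n) = 0 :=
    le_antisymm (by rw [← h1]; linarith) (Finset.sum_nonneg h2)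
  rw [Finset.sum_eq_zero_iff_of_nonneg h2] at h3
  apply fact3 T
  intro j
  have h4 := h3 (tr T j) (Finset.mem_univ _)
  have h5 := (mul_eq_zero.1 h4).resolve_left (pos_of_tw hw hT j).ne'
  exact int_strict _ (sv_lt T t ht j) _ h5

theorem xi_inj (hD : Dw w ≠ 0) {x y : Fin 3 → ℝ} (h : (Bw w).mulVec x = (Bw w).mulVec y) :
    x = y := by
  funext i
  have h1 := bil w hD x (Pi.single i 1)
  rw [h, bil w hD y] at h1
  fin_cases i <;> simpa using h1.symm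

theorem tile_half (hw : ∀ e, 0 ≤ w e) {T : Fin 16} {s s' : Fin 6 → ℝ}
    (hs : ∀ e, (∀ j, tr T j ≠ e) → s e = (sg T e : ℝ) / 2) (hs' : ∀ e, |s' e| ≤ 1 / 2)
    (h : xi w s = xi w s') :
    ∑ e, w e * (s e - s' e) * cost e ≤ 0 ∧
      (0 ≤ ∑ e, w e * (s e - s' e) * cost e → ∀ e, (∀ j, tr T j ≠ e) → 0 < w e → s' e = s e) := by
  have h1 : ∑ e, w e * (s e - s' e) * (dotZ e (eta T) : ℝ) = 0 := by
    have h2 := xi_dot w s (fun i => (eta T i : ℝ))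
    rw [h, xi_dot w s' (fun i => (eta T i : ℝ))] at h2
    have h3 : ∑ e, w e * (s e - s' e) * (dotZ e (eta T) : ℝ) =
        ∑ e, s e * w e * dot e (fun i => (eta T i : ℝ)) -
          ∑ e, s' e * w e * dot e (fun i => (eta T i : ℝ)) := by
      rw [← Finset.sum_sub_distrib]
      refine Finset.sum_congr rfl fun e _ => ?_
      rw [dot_int]
      ring
    rw [h3, h2, sub_self]
  have h4 : ∀ e ∈ Finset.univ,
      0 ≤ w e * (s e - s' e) * ((dotZ e (eta T) : ℝ) - cost e) := by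
    intro e _
    have hb := abs_le.1 (hs' e)
    rcases fact1 T e with h5 | h5 | h5
    · rw [h5.2.1]; simp
    · rw [hs e h5.2.2, h5.1]
      have h6 : (cost e : ℝ) < dotZ e (eta T) := by exact_mod_cast h5.2.1
      refine mul_nonneg (mul_nonneg (hw e) ?_) (by linarith)
      push_cast
      linarith [hb.2]
    · rw [hs e h5.2.2, h5.1]
      have h6 : (dotZ e (eta T) : ℝ) < cost e := by exact_mod_cast h5.2.1
      rw [← neg_mul_neg]
      refine mul_nonneg ?_ (by linarith)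
      rw [← mul_neg]
      refine mul_nonneg (hw e) ?_
      push_cast
      linarith [hb.1]
  have h7 : ∑ e, w e * (s e - s' e) * ((dotZ e (eta T) : ℝ) - cost e) =
      -∑ e, w e * (s e - s' e) * cost e := by
    rw [← sub_eq_zero, sub_neg_eq_add, ← Finset.sum_add_distrib, ← h1]
    refine Finset.sum_congr rfl fun e _ => ?_
    ring
  have h8 := Finset.sum_nonneg h4
  refine ⟨by linarith, fun h9 e he hwe => ?_⟩
  have h10 : ∑ e, w e * (s e - s' e) * ((dotZ e (eta T) : ℝ) - cost e) = 0 :=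
    le_antisymm (by linarith) h8
  rw [Finset.sum_eq_zero_iff_of_nonneg h4] at h10
  have h11 := h10 e (Finset.mem_univ _)
  have h12 : (dotZ e (eta T) : ℝ) - cost e ≠ 0 := by
    rcases fact1 T e with h5 | h5 | h5
    · obtain ⟨j, hj⟩ := h5.2.2
      exact absurd hj (he j)
    · have h6 : (cost e : ℝ) < dotZ e (eta T) := by exact_mod_cast h5.2.1
      exact (sub_pos.2 h6).ne'
    · have h6 : (dotZ e (eta T) : ℝ) < cost e := by exact_mod_cast h5.2.1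
      exact (sub_neg.2 h6).ne
  have h13 := (mul_eq_zero.1 ((mul_eq_zero.1 h11).resolve_right h12)).resolve_left hwe.ne'
  linarith

theorem tile_disj (hw : ∀ e, 0 ≤ w e) (hD : Dw w ≠ 0) {T T' : Fin 16}
    (hT' : 0 < tw w T') {z : Fin 3 → ℝ} (hz : z ∈ tile w T) (hz' : z ∈ tile w T') : T = T' := by
  obtain ⟨t, ht, rfl⟩ := mem_tile w hz
  obtain ⟨t', ht', h⟩ := mem_tile w hz'
  have h1 := xi_inj hD h
  have h2 := tile_half (T := T) hw (sv_off T t) (sv_le T' t' ht') h1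
  have h3 := tile_half (T := T') hw (sv_off T' t') (sv_le T t ht) h1.symm
  have h4 : ∑ e, w e * (sv T t e - sv T' t' e) * cost e =
      -∑ e, w e * (sv T' t' e - sv T t e) * cost e := by
    rw [← Finset.sum_neg_distrib]
    refine Finset.sum_congr rfl fun e _ => ?_
    ring
  have h5 := h2.2 (by rw [h4]; linarith [h3.1])
  apply fact2
  intro j
  by_contra hj
  have hj' : ∀ i, tr T i ≠ tr T' j := fun i hi => hj ⟨i, hi⟩
  have h6 := h5 (tr T' j) hj' (pos_of_tw hw hT' j)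
  have h7 := sv_lt T' t' ht' j
  rw [h6, sv_off T t _ hj'] at h7
  rcases fact1 T (tr T' j) with h8 | h8 | h8
  · obtain ⟨i, hi⟩ := h8.2.2
    exact hj' i hi
  · rw [h8.1] at h7
    norm_num at h7
  · rw [h8.1] at h7
    norm_num [abs_div] at h7

theorem det_Bw (hD : Dw w ≠ 0) : (Bw w).det = (Dw w)⁻¹ := by
  have h1 : (Aw w).det = Dw w ^ 2 := by
    rw [Matrix.det_fin_three]
    simp only [Aw, Dw, DD, Matrix.of_apply, Matrix.cons_val', Matrix.cons_val_zero,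
      Matrix.cons_val_one, Matrix.cons_val]
    ring
  rw [Bw, Matrix.det_smul, h1, Fintype.card_fin]
  field_simp

theorem det_Nw (T : Fin 16) : (Nw w T).det = tw w T * (dt T : ℝ) := by
  rw [Matrix.det_fin_three]
  simp only [Nw, Matrix.of_apply, tw, dt]
  push_cast
  ring

theorem abs_det (hw : ∀ e, 0 ≤ w e) (hD : 0 < Dw w) (T : Fin 16) :
    |(Mw w T).det| = tw w T * (Dw w)⁻¹ := by
  rw [Mw, Matrix.det_mul, det_Bw hD.ne', det_Nw]
  have h1 : 0 ≤ tw w T := mul_nonneg (mul_nonneg (hw _) (hw _)) (hw _)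
  rw [abs_mul, abs_mul, abs_of_pos (inv_pos.2 hD), abs_of_nonneg h1]
  have h2 : |(dt T : ℝ)| = 1 := by
    rcases fact5 T with h | h <;> rw [h] <;> norm_num
  rw [h2]
  ring

theorem M_inj (hD : Dw w ≠ 0) {T : Fin 16} (hT : 0 < tw w T) :
    Function.Injective (fun t : Fin 3 → ℝ => uw w T + (Mw w T).mulVec t) := by
  have hdet : (Mw w T).det ≠ 0 := by
    rw [Mw, Matrix.det_mul, det_Bw hD, det_Nw]
    have h2 : (dt T : ℝ) ≠ 0 := by
      rcases fact5 T with h | h <;> rw [h] <;> norm_num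
    exact mul_ne_zero (inv_ne_zero hD) (mul_ne_zero hT.ne' h2)
  have h1 : IsUnit (Mw w T) := (Matrix.isUnit_iff_isUnit_det _).2 (isUnit_iff_ne_zero.2 hdet)
  intro x y hxy
  exact (Matrix.mulVec_injective_iff_isUnit.2 h1) (add_left_cancel hxy)

theorem meas_tile (hD : Dw w ≠ 0) {T : Fin 16} (hT : 0 < tw w T) : MeasurableSet (tile w T) := by
  have h1 : Continuous (fun t : Fin 3 → ℝ => uw w T + (Mw w T).mulVec t) :=
    continuous_const.add (Continuous.matrix_mulVec continuous_const continuous_id)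
  have h2 : MeasurableSet box := MeasurableSet.univ_pi fun _ => measurableSet_Ioo
  exact h2.image_of_continuousOn_injOn h1.continuousOn (M_inj hD hT).injOn

/-- the contribution of a tile -/
noncomputable def con (w : Fin 6 → ℝ) (T : Fin 16) : ℝ :=
  qf w (xi w fun e => (sg T e : ℝ) / 2) + 1 / 12 * (w (tr T 0) ^ 2 * qf w (fun i => (Y (tr T 0) i : ℝ))
    + w (tr T 1) ^ 2 * qf w (fun i => (Y (tr T 1) i : ℝ))
    + w (tr T 2) ^ 2 * qf w (fun i => (Y (tr T 2) i : ℝ)))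

theorem qf_smul (c : ℝ) (x : Fin 3 → ℝ) : qf w (fun i => c * x i) = c ^ 2 * qf w x := by
  simp only [qf]
  ring

theorem int_tile (hw : ∀ e, 0 ≤ w e) (hD : 0 < Dw w) (T : Fin 16) :
    ∫ z in tile w T, Kw w z = (Dw w)⁻¹ ^ 2 * (tw w T * con w T) := by
  have h1 := box_int (w 0) (w 1) (w 2) (w 3) (w 4) (w 5) (Mw w T) (uw w T)
  have h2 : ∀ j : Fin 3, K3 (w 0) (w 1) (w 2) (w 3) (w 4) (w 5) (Mw w T 0 j) (Mw w T 1 j)
      (Mw w T 2 j) = (Dw w)⁻¹ * (w (tr T j) ^ 2 * qf w (fun i => (Y (tr T j) i : ℝ))) := by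
    intro j
    have h3 := K_B w hD.ne' (fun i => w (tr T j) * (Y (tr T j) i : ℝ))
    rw [qf_smul] at h3
    rw [← h3]
    have h4 : ∀ i, Mw w T i j = (Bw w).mulVec (fun i => w (tr T j) * (Y (tr T j) i : ℝ)) i := by
      intro i
      rfl
    rw [h4, h4, h4]
    rfl
  have h5 : K3 (w 0) (w 1) (w 2) (w 3) (w 4) (w 5) (uw w T 0) (uw w T 1) (uw w T 2) =
      (Dw w)⁻¹ * qf w (xi w fun e => (sg T e : ℝ) / 2) := K_B w hD.ne' _
  have h6 : ∫ z in tile w T, Kw w z = ∫ z in (fun t : Fin 3 → ℝ => uw w T + (Mw w T).mulVec t) ''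
        (Set.univ.pi fun _ => Set.Ioo (-(1 / 2) : ℝ) (1 / 2)),
      K3 (w 0) (w 1) (w 2) (w 3) (w 4) (w 5) (z 0) (z 1) (z 2) := rfl
  rw [h6, h1, abs_det hw hD, h5, Fin.sum_univ_three, h2, h2, h2, con]
  ring

theorem sum16 (g : Fin 16 → ℝ) : ∑ T, g T = g 0 + g 1 + g 2 + g 3 + g 4 + g 5 + g 6 + g 7 + g 8 +
    g 9 + g 10 + g 11 + g 12 + g 13 + g 14 + g 15 := by
  simp only [Fin.sum_univ_succ, Finset.univ_eq_empty, Finset.sum_empty, add_zero, ← add_assoc]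
  rfl

end L3D
namespace L3D

variable {w : Fin 6 → ℝ}

theorem qf_expl (w : Fin 6 → ℝ) (x : Fin 3 → ℝ) : qf w x =
    ((w 0 + w 3 + w 4) * (w 1 + w 3 + w 5) - w 3 ^ 2) * x 0 ^ 2
    + ((w 0 + w 1 + w 2) * (w 1 + w 3 + w 5) - w 1 ^ 2) * x 1 ^ 2
    + ((w 0 + w 1 + w 2) * (w 0 + w 3 + w 4) - w 0 ^ 2) * x 2 ^ 2
    + 2 * (w 0 * (w 1 + w 3 + w 5) + w 1 * w 3) * x 0 * x 1
    + 2 * (w 0 * w 3 + w 1 * (w 0 + w 3 + w 4)) * x 0 * x 2
    + 2 * ((w 0 + w 1 + w 2) * w 3 + w 0 * w 1) * x 1 * x 2 := by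
  simp only [qf, Aw, Matrix.of_apply, Matrix.cons_val', Matrix.cons_val_zero,
      Matrix.cons_val_one, Matrix.cons_val]

theorem xi_expl (w : Fin 6 → ℝ) (s : Fin 6 → ℝ) (i : Fin 3) : xi w s i =
    s 0 * w 0 * (Y 0 i : ℝ) + s 1 * w 1 * (Y 1 i : ℝ) + s 2 * w 2 * (Y 2 i : ℝ) +
    s 3 * w 3 * (Y 3 i : ℝ) + s 4 * w 4 * (Y 4 i : ℝ) + s 5 * w 5 * (Y 5 i : ℝ) := by
  simp only [xi, Fin.sum_univ_succ, Finset.univ_eq_empty, Finset.sum_empty, add_zero, ← add_assoc]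
  rfl

theorem ident (w : Fin 6 → ℝ) : ∑ T, tw w T * con w T = Dw w * ((w 0 + w 1 + w 2 + w 3 + w 4 + w 5)
    * Dw w + RR (w 0) (w 1) (w 2) (w 3) (w 4) (w 5)) / 12 := by
  rw [sum16]
  simp only [con, qf_expl, xi_expl]
  simp [tw, tr, sg, Y]
  simp only [Dw, DD, RR]
  ring

end L3D
/-- TARGET -/
theorem L3D (a b c d e f : ℝ) (ha : 0 ≤ a) (hb : 0 ≤ b) (hc : 0 ≤ c) (hd : 0 ≤ d) (he : 0 ≤ e)
    (hf : 0 ≤ f) (hD : 0 < DD a b c d e f) :
    (a + b + c + d + e + f + RR a b c d e f / DD a b c d e f) / 12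
      ≤ ∫ z in cube3, f3 a b c d e f z := by
  set w : Fin 6 → ℝ := ![a, b, c, d, e, f] with hwdef
  have hw : ∀ i, 0 ≤ w i := by
    intro i
    fin_cases i
    · exact ha
    · exact hb
    · exact hc
    · exact hd
    · exact he
    · exact hf
  have hDw : 0 < L3D.Dw w := hD
  have hK : ∀ z : Fin 3 → ℝ, L3D.Kw w z = K3 a b c d e f (z 0) (z 1) (z 2) := fun z => rfl
  set g := f3 a b c d e f with hg
  have hgm : Measurable g := measurable_f3 a b c d e f ha hb hc hd he hf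
  have hg0 : ∀ z, 0 ≤ g z := f3_nonneg a b c d e f ha hb hc hd he hf
  have hgp : ∀ (z : Fin 3 → ℝ) (n : Fin 3 → ℤ), g (fun i => z i + n i) = g z :=
    f3_per a b c d e f
  have hgi : IntegrableOn g cube3 := by
    have hfin : volume cube3 ≠ ⊤ := by
      have h1 : cube3 ⊆ Set.Icc (fun _ => (0 : ℝ)) (fun _ => 1) := by
        intro z hz
        exact ⟨fun i => (hz i (Set.mem_univ i)).1, fun i => (hz i (Set.mem_univ i)).2.le⟩
      exact ((measure_mono h1).trans_lt isCompact_Icc.measure_lt_top).ne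
    refine Measure.integrableOn_of_bounded (M := (a + b + c + d + e + f) / 4) hfin
      hgm.aestronglyMeasurable ?_
    refine Filter.Eventually.of_forall fun z => ?_
    rw [Real.norm_eq_abs, abs_of_nonneg (hg0 z)]
    exact f3_le a b c d e f ha hb hc hd he hf z
  classical
  set F : Finset (Fin 16) := Finset.univ.filter fun T => 0 < L3D.tw w T with hF
  have hFm : ∀ T ∈ F, 0 < L3D.tw w T := fun T hT => (Finset.mem_filter.1 hT).2
  set S : Set (Fin 3 → ℝ) := ⋃ T ∈ F, L3D.tile w T with hS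
  have hSm : MeasurableSet S :=
    Finset.measurableSet_biUnion F fun T hT => L3D.meas_tile hDw.ne' (hFm T hT)
  have hSd : ∀ z ∈ S, ∀ n : Fin 3 → ℤ, n ≠ 0 → (fun i => z i - n i) ∉ S := by
    intro z hz n hn hz'
    simp only [hS, Set.mem_iUnion] at hz hz'
    obtain ⟨T, hT, hzT⟩ := hz
    obtain ⟨T', hT', hzT'⟩ := hz'
    refine hn (L3D.K_strict hw hDw.ne' (hFm T hT) hzT n ?_)
    have h1 := L3D.K_le hw hDw.ne' hzT' (-n)
    have h2 : (fun i => (fun i => z i - (n i : ℝ)) i - (((-n) i : ℤ) : ℝ)) = z := by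
      funext i
      simp
    rw [h2] at h1
    exact h1
  have hp := pack S hSm hSd g hgm hg0 hgp hgi
  have hdisj : Set.Pairwise (F : Set (Fin 16)) (Function.onFun Disjoint fun T => L3D.tile w T) := by
    intro T _ T' hT' hne
    rw [Function.onFun, Set.disjoint_left]
    intro z hz hz'
    exact hne (L3D.tile_disj hw hDw.ne' (hFm T' hT') hz hz')
  have hsum : ∫ z in S, g z = ∑ T ∈ F, ∫ z in L3D.tile w T, g z :=
    integral_biUnion_finset F (fun T hT => L3D.meas_tile hDw.ne' (hFm T hT)) hdisj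
      (fun T hT => hp.1.mono_set (Set.subset_biUnion_of_mem (u := fun T => L3D.tile w T) hT))
  have htile : ∀ T ∈ F, ∫ z in L3D.tile w T, g z = ∫ z in L3D.tile w T, L3D.Kw w z := by
    intro T hT
    refine setIntegral_congr_fun (L3D.meas_tile hDw.ne' (hFm T hT)) ?_
    intro z hz
    show f3 a b c d e f z = K3 a b c d e f (z 0) (z 1) (z 2)
    apply le_antisymm
    · have := f3_le_K3 a b c d e f ha hb hc hd he hf z 0
      simpa using this
    · exact le_ciInf fun n => L3D.K_le hw hDw.ne' hz n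
  have htot : ∑ T ∈ F, ∫ z in L3D.tile w T, g z =
      (L3D.Dw w)⁻¹ ^ 2 * ∑ T, L3D.tw w T * L3D.con w T := by
    rw [Finset.sum_congr rfl htile, Finset.mul_sum]
    rw [Finset.sum_congr rfl fun T _ => L3D.int_tile hw hDw T]
    refine Finset.sum_subset (Finset.filter_subset _ _) fun T _ hT => ?_
    have h1 : ¬ 0 < L3D.tw w T := fun h => hT (Finset.mem_filter.2 ⟨Finset.mem_univ _, h⟩)
    have h2 : 0 ≤ L3D.tw w T := mul_nonneg (mul_nonneg (hw _) (hw _)) (hw _)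
    have h3 : L3D.tw w T = 0 := le_antisymm (not_lt.1 h1) h2
    rw [h3]
    ring
  rw [L3D.ident] at htot
  have hfinal : (L3D.Dw w)⁻¹ ^ 2 * (L3D.Dw w * ((w 0 + w 1 + w 2 + w 3 + w 4 + w 5)
    * L3D.Dw w + RR (w 0) (w 1) (w 2) (w 3) (w 4) (w 5)) / 12) =
      (a + b + c + d + e + f + RR a b c d e f / DD a b c d e f) / 12 := by
    have e1 : L3D.Dw w = DD a b c d e f := rfl
    have e2 : RR (w 0) (w 1) (w 2) (w 3) (w 4) (w 5) = RR a b c d e f := rfl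
    have e3 : w 0 + w 1 + w 2 + w 3 + w 4 + w 5 = a + b + c + d + e + f := rfl
    rw [e1, e2, e3]
    field_simp
  rw [← hfinal, ← htot, ← hsum]
  exact hp.2

end Pool.Agent.Helper552_D4
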