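import Pool.Agent.Helper552_D4.Defs

set_option autoImplicit false

namespace Pool.Agent.Helper552_D4

open MeasureTheory Set

namespace LIFT

/-- The linear combination of the basis vectors. -/
noncomputable def X (bb : Module.Basis (Fin 4) ℝ E4) (t z0 z1 z2 : ℝ) : E4 :=
  t • bb 0 + z0 • bb 1 + z1 • bb 2 + z2 • bb 3

theorem X_add (bb : Module.Basis (Fin 4) ℝ E4) (t z0 z1 z2 t' z0' z1' z2' : ℝ) :
    X bb t z0 z1 z2 + X bb t' z0' z1' z2' = X bb (t + t') (z0 + z0') (z1 + z1') (z2 + z2') := by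
  unfold X
  module

/-- The bilinear form of `K3`. -/
def B (a b c d e f x0 x1 x2 y0 y1 y2 : ℝ) : ℝ :=
  a * (x0 - x1) * (y0 - y1) + b * (x0 - x2) * (y0 - y2) + c * x0 * y0 + d * (x1 - x2) * (y1 - y2) +
    e * x1 * y1 + f * x2 * y2

section
variable {bb : Module.Basis (Fin 4) ℝ E4} {p : E4} {a b c d e f : ℝ} {τ : Fin 3 → ℝ} {δ : ℝ}

theorem gram' (hF : Frame bb p a b c d e f τ δ) (t z0 z1 z2 : ℝ) :
    ‖X bb t z0 z1 z2‖ ^ 2 =
      K3 a b c d e f (z0 + t * τ 0) (z1 + t * τ 1) (z2 + t * τ 2) + δ * t ^ 2 := by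
  have h := hF.gram t ![z0, z1, z2]
  simpa [X] using h

theorem dual' (hF : Frame bb p a b c d e f τ δ) (t z0 z1 z2 : ℝ) :
    inner ℝ p (X bb t z0 z1 z2) = t := by
  have h := hF.dual t ![z0, z1, z2]
  simpa [X] using h

theorem inner' (hF : Frame bb p a b c d e f τ δ) (x0 x1 x2 t z0 z1 z2 : ℝ) :
    inner ℝ (X bb 0 x0 x1 x2) (X bb t z0 z1 z2) =
      B a b c d e f x0 x1 x2 (z0 + t * τ 0) (z1 + t * τ 1) (z2 + t * τ 2) := by
  have h1 := norm_add_sq_real (X bb 0 x0 x1 x2) (X bb t z0 z1 z2)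
  rw [X_add, gram' hF, gram' hF, gram' hF] at h1
  unfold K3 at h1
  unfold B
  linarith

/-- The adjugate form. -/
def N (a b c d e f y0 y1 y2 : ℝ) : ℝ :=
  ((a + d + e) * (b + d + f) - d ^ 2) * y0 ^ 2 + ((a + b + c) * (b + d + f) - b ^ 2) * y1 ^ 2 +
    ((a + b + c) * (a + d + e) - a ^ 2) * y2 ^ 2 + 2 * (b * d + a * (b + d + f)) * y0 * y1 +
    2 * (a * d + b * (a + d + e)) * y0 * y2 + 2 * (a * b + d * (a + b + c)) * y1 * y2

theorem general (hF : Frame bb p a b c d e f τ δ) (hD : 0 < DD a b c d e f)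
    (hmin : ∀ m : E4, m ≠ 0 → InDual (Submodule.span ℤ (Set.range bb)) m → ‖p‖ ≤ ‖m‖)
    (y : Fin 3 → ℤ) (hy : y ≠ 0) :
    DD a b c d e f * (1 - nn (y 0 * τ 0 + y 1 * τ 1 + y 2 * τ 2) ^ 2) ≤
      δ * N a b c d e f (y 0) (y 1) (y 2) := by
  set D := DD a b c d e f with hDdef
  set L : ℝ := y 0 * τ 0 + y 1 * τ 1 + y 2 * τ 2 with hL
  set s : ℝ := L - round L with hs
  -- the adjugate applied to `y`
  set c0 : ℝ := ((a + d + e) * (b + d + f) - d ^ 2) * y 0 + (b * d + a * (b + d + f)) * y 1 +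
    (a * d + b * (a + d + e)) * y 2 with hc0
  set c1 : ℝ := (b * d + a * (b + d + f)) * y 0 + ((a + b + c) * (b + d + f) - b ^ 2) * y 1 +
    (a * b + d * (a + b + c)) * y 2 with hc1
  set c2 : ℝ := (a * d + b * (a + d + e)) * y 0 + (a * b + d * (a + b + c)) * y 1 +
    ((a + b + c) * (a + d + e) - a ^ 2) * y 2 with hc2
  have hB : ∀ x0 x1 x2 : ℝ, B a b c d e f c0 c1 c2 x0 x1 x2 =
      D * (y 0 * x0 + y 1 * x1 + y 2 * x2) := by
    intro x0 x1 x2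
    rw [hDdef, hc0, hc1, hc2]
    unfold B DD
    ring
  set Y : E4 := D⁻¹ • X bb 0 c0 c1 c2 with hY
  have hYX : ∀ t z0 z1 z2 : ℝ, inner ℝ Y (X bb t z0 z1 z2) =
      y 0 * (z0 + t * τ 0) + y 1 * (z1 + t * τ 1) + y 2 * (z2 + t * τ 2) := by
    intro t z0 z1 z2
    rw [hY, real_inner_smul_left, inner' hF, hB]
    field_simp
  have hYn : ‖Y‖ ^ 2 = N a b c d e f (y 0) (y 1) (y 2) / D := by
    rw [hY, norm_smul, mul_pow, gram' hF, Real.norm_eq_abs, sq_abs]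
    have e1 : K3 a b c d e f (c0 + 0 * τ 0) (c1 + 0 * τ 1) (c2 + 0 * τ 2) =
        B a b c d e f c0 c1 c2 c0 c1 c2 := by
      unfold K3 B
      ring
    have e2 : N a b c d e f (y 0) (y 1) (y 2) = y 0 * c0 + y 1 * c1 + y 2 * c2 := by
      rw [hc0, hc1, hc2]
      unfold N
      ring
    rw [e1, hB, e2]
    field_simp
    ring
  have hYp : inner ℝ Y p = 0 := by
    rw [real_inner_comm, hY, real_inner_smul_right, dual' hF, mul_zero]
  set m : E4 := Y - s • p with hm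
  have hmX : ∀ t z0 z1 z2 : ℝ, inner ℝ m (X bb t z0 z1 z2) =
      y 0 * (z0 + t * τ 0) + y 1 * (z1 + t * τ 1) + y 2 * (z2 + t * τ 2) - s * t := by
    intro t z0 z1 z2
    rw [hm, inner_sub_left, hYX, real_inner_smul_left, dual' hF]
  have b0 : inner ℝ m (bb 0) = (round L : ℝ) := by
    have h := hmX 1 0 0 0
    have e : X bb 1 0 0 0 = bb 0 := by simp [X]
    rw [e] at h
    rw [h, hs, hL]
    ring
  have b1 : inner ℝ m (bb 1) = (y 0 : ℝ) := by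
    have h := hmX 0 1 0 0
    have e : X bb 0 1 0 0 = bb 1 := by simp [X]
    rw [e] at h
    rw [h]
    ring
  have b2 : inner ℝ m (bb 2) = (y 1 : ℝ) := by
    have h := hmX 0 0 1 0
    have e : X bb 0 0 1 0 = bb 2 := by simp [X]
    rw [e] at h
    rw [h]
    ring
  have b3 : inner ℝ m (bb 3) = (y 2 : ℝ) := by
    have h := hmX 0 0 0 1
    have e : X bb 0 0 0 1 = bb 3 := by simp [X]
    rw [e] at h
    rw [h]
    ring
  have hm0 : m ≠ 0 := by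
    intro h0
    apply hy
    rw [h0, inner_zero_left] at b1 b2 b3
    funext i
    fin_cases i
    · exact_mod_cast b1.symm
    · exact_mod_cast b2.symm
    · exact_mod_cast b3.symm
  have hdual : InDual (Submodule.span ℤ (Set.range bb)) m := by
    intro v hv
    induction hv using Submodule.span_induction with
    | mem x hx =>
      obtain ⟨i, rfl⟩ := hx
      fin_cases i
      · exact ⟨round L, b0⟩
      · exact ⟨y 0, b1⟩
      · exact ⟨y 1, b2⟩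
      · exact ⟨y 2, b3⟩
    | zero => exact ⟨0, by simp⟩
    | add x x' _ _ hx hx' =>
      obtain ⟨n, hn⟩ := hx
      obtain ⟨n', hn'⟩ := hx'
      exact ⟨n + n', by rw [inner_add_right, hn, hn']; push_cast; ring⟩
    | smul k x _ hx =>
      obtain ⟨n, hn⟩ := hx
      refine ⟨k * n, ?_⟩
      rw [← Int.cast_smul_eq_zsmul ℝ, real_inner_smul_right, hn]
      push_cast
      ring
  have hle := hmin m hm0 hdual
  have hsq : ‖p‖ ^ 2 ≤ ‖m‖ ^ 2 := pow_le_pow_left₀ (norm_nonneg _) hle 2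
  have hmn : ‖m‖ ^ 2 = N a b c d e f (y 0) (y 1) (y 2) / D + s ^ 2 * ‖p‖ ^ 2 := by
    rw [hm, norm_sub_sq_real, real_inner_smul_right, hYp, hYn, norm_smul, mul_pow,
      Real.norm_eq_abs, sq_abs]
    ring
  rw [hmn] at hsq
  have hnn : nn L ^ 2 = s ^ 2 := by
    unfold nn
    rw [sq_abs]
  rw [hnn]
  have hp := hF.norm_p
  have hδ := hF.hδ
  have h1 : δ * ‖p‖ ^ 2 ≤ δ * (N a b c d e f (y 0) (y 1) (y 2) / D + s ^ 2 * ‖p‖ ^ 2) :=
    mul_le_mul_of_nonneg_left hsq hδ.le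
  have h2 : δ * (N a b c d e f (y 0) (y 1) (y 2) / D + s ^ 2 * ‖p‖ ^ 2) =
      δ * (N a b c d e f (y 0) (y 1) (y 2) / D) + s ^ 2 * (δ * ‖p‖ ^ 2) := by ring
  rw [h2, hp, mul_one] at h1
  have h3 := mul_le_mul_of_nonneg_left h1 hD.le
  have h4 : D * (δ * (N a b c d e f (y 0) (y 1) (y 2) / D) + s ^ 2) =
      δ * N a b c d e f (y 0) (y 1) (y 2) + D * s ^ 2 := by
    field_simp
  rw [h4] at h3
  linarith

end

end LIFT

open LIFT

/-- TARGET -/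
theorem lift_bound (bb : Module.Basis (Fin 4) ℝ E4) (p : E4) (a b c d e f : ℝ)
    (τ : Fin 3 → ℝ) (δ : ℝ) (hF : Frame bb p a b c d e f τ δ) (hD : 0 < DD a b c d e f)
    (hmin : ∀ m : E4, m ≠ 0 → InDual (Submodule.span ℤ (Set.range bb)) m → ‖p‖ ≤ ‖m‖) :
    DD a b c d e f * (1 - nn (τ 0 - τ 1) ^ 2) ≤ δ * dA b c d e f ∧
    DD a b c d e f * (1 - nn (τ 0 - τ 2) ^ 2) ≤ δ * dB a c d e f ∧
    DD a b c d e f * (1 - nn (τ 0) ^ 2) ≤ δ * dC a b d e f ∧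
    DD a b c d e f * (1 - nn (τ 1 - τ 2) ^ 2) ≤ δ * dD a b c e f ∧
    DD a b c d e f * (1 - nn (τ 1) ^ 2) ≤ δ * dE a b c d f ∧
    DD a b c d e f * (1 - nn (τ 2) ^ 2) ≤ δ * dF a b c d e := by
  have g := general hF hD hmin
  refine ⟨?_, ?_, ?_, ?_, ?_, ?_⟩
  · have h := g ![1, -1, 0] (by decide)
    have e1 : N a b c d e f ((![1, -1, 0] : Fin 3 → ℤ) 0) ((![1, -1, 0] : Fin 3 → ℤ) 1)
        ((![1, -1, 0] : Fin 3 → ℤ) 2) = dA b c d e f := by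
      simp [N, dA]
      ring
    have e2 : ((![1, -1, 0] : Fin 3 → ℤ) 0 : ℝ) * τ 0 + ((![1, -1, 0] : Fin 3 → ℤ) 1 : ℝ) * τ 1 +
        ((![1, -1, 0] : Fin 3 → ℤ) 2 : ℝ) * τ 2 = τ 0 - τ 1 := by
      simp
      ring
    rwa [e1, e2] at h
  · have h := g ![1, 0, -1] (by decide)
    have e1 : N a b c d e f ((![1, 0, -1] : Fin 3 → ℤ) 0) ((![1, 0, -1] : Fin 3 → ℤ) 1)
        ((![1, 0, -1] : Fin 3 → ℤ) 2) = dB a c d e f := by
      simp [N, dB]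
      ring
    have e2 : ((![1, 0, -1] : Fin 3 → ℤ) 0 : ℝ) * τ 0 + ((![1, 0, -1] : Fin 3 → ℤ) 1 : ℝ) * τ 1 +
        ((![1, 0, -1] : Fin 3 → ℤ) 2 : ℝ) * τ 2 = τ 0 - τ 2 := by
      simp
      ring
    rwa [e1, e2] at h
  · have h := g ![1, 0, 0] (by decide)
    have e1 : N a b c d e f ((![1, 0, 0] : Fin 3 → ℤ) 0) ((![1, 0, 0] : Fin 3 → ℤ) 1)
        ((![1, 0, 0] : Fin 3 → ℤ) 2) = dC a b d e f := by
      simp [N, dC]
      ring
    have e2 : ((![1, 0, 0] : Fin 3 → ℤ) 0 : ℝ) * τ 0 + ((![1, 0, 0] : Fin 3 → ℤ) 1 : ℝ) * τ 1 +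
        ((![1, 0, 0] : Fin 3 → ℤ) 2 : ℝ) * τ 2 = τ 0 := by
      simp
    rwa [e1, e2] at h
  · have h := g ![0, 1, -1] (by decide)
    have e1 : N a b c d e f ((![0, 1, -1] : Fin 3 → ℤ) 0) ((![0, 1, -1] : Fin 3 → ℤ) 1)
        ((![0, 1, -1] : Fin 3 → ℤ) 2) = dD a b c e f := by
      simp [N, dD]
      ring
    have e2 : ((![0, 1, -1] : Fin 3 → ℤ) 0 : ℝ) * τ 0 + ((![0, 1, -1] : Fin 3 → ℤ) 1 : ℝ) * τ 1 +
        ((![0, 1, -1] : Fin 3 → ℤ) 2 : ℝ) * τ 2 = τ 1 - τ 2 := by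
      simp
      ring
    rwa [e1, e2] at h
  · have h := g ![0, 1, 0] (by decide)
    have e1 : N a b c d e f ((![0, 1, 0] : Fin 3 → ℤ) 0) ((![0, 1, 0] : Fin 3 → ℤ) 1)
        ((![0, 1, 0] : Fin 3 → ℤ) 2) = dE a b c d f := by
      simp [N, dE]
      ring
    have e2 : ((![0, 1, 0] : Fin 3 → ℤ) 0 : ℝ) * τ 0 + ((![0, 1, 0] : Fin 3 → ℤ) 1 : ℝ) * τ 1 +
        ((![0, 1, 0] : Fin 3 → ℤ) 2 : ℝ) * τ 2 = τ 1 := by
      simp
    rwa [e1, e2] at h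
  · have h := g ![0, 0, 1] (by decide)
    have e1 : N a b c d e f ((![0, 0, 1] : Fin 3 → ℤ) 0) ((![0, 0, 1] : Fin 3 → ℤ) 1)
        ((![0, 0, 1] : Fin 3 → ℤ) 2) = dF a b c d e := by
      simp [N, dF]
      ring
    have e2 : ((![0, 0, 1] : Fin 3 → ℤ) 0 : ℝ) * τ 0 + ((![0, 0, 1] : Fin 3 → ℤ) 1 : ℝ) * τ 1 +
        ((![0, 0, 1] : Fin 3 → ℤ) 2 : ℝ) * τ 2 = τ 2 := by
      simp
    rwa [e1, e2] at h

end Pool.Agent.Helper552_D4

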