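import Pool.Agent.Helper552_D4.Defs

set_option autoImplicit false

namespace Pool.Agent.Helper552_D4

open MeasureTheory Set

namespace STRETCH

/-- the stretching map -/
theorem exists_map (p : E4) (δ α β : ℝ) (hα : α ≠ 0) (hβ : β ≠ 0) (hp : δ * ‖p‖ ^ 2 = 1) :
    ∃ A : E4 ≃ₗ[ℝ] E4, ∀ x, A x = α • x + ((β - α) * δ * inner ℝ p x) • p := by
  have hpp : δ * inner ℝ p p = 1 := by
    rw [real_inner_self_eq_norm_sq]
    exact hp
  let f : ℝ → ℝ → E4 →ₗ[ℝ] E4 := fun α β =>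
    { toFun := fun x => α • x + ((β - α) * δ * inner ℝ p x) • p
      map_add' := fun x y => by
        rw [inner_add_right]
        module
      map_smul' := fun c x => by
        rw [real_inner_smul_right, RingHom.id_apply]
        module }
  have key : ∀ α β α' β' : ℝ, α * α' = 1 → β * β' = 1 → ∀ x, f α β (f α' β' x) = x := by
    intro α β α' β' h1 h2 x
    change α • (α' • x + ((β' - α') * δ * inner ℝ p x) • p) +
      ((β - α) * δ * inner ℝ p (α' • x + ((β' - α') * δ * inner ℝ p x) • p)) • p = x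
    rw [inner_add_right, real_inner_smul_right, real_inner_smul_right, smul_add, smul_smul,
      smul_smul, h1, one_smul, add_assoc, ← add_smul]
    have h3 : α * ((β' - α') * δ * inner ℝ p x) +
        (β - α) * δ * (α' * inner ℝ p x + (β' - α') * δ * inner ℝ p x * inner ℝ p p) = 0 := by
      have h4 : (β - α) * δ * ((β' - α') * δ * inner ℝ p x * inner ℝ p p) =
          (β - α) * (β' - α') * δ * inner ℝ p x := by
        linear_combination ((β - α) * (β' - α') * δ * inner ℝ p x) * hpp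
      rw [mul_add, h4]
      linear_combination (-δ * inner ℝ p x) * h1 + (δ * inner ℝ p x) * h2
    rw [h3, zero_smul, add_zero]
  refine ⟨LinearEquiv.ofLinearMap (f α β) (f α⁻¹ β⁻¹) (LinearMap.ext fun x => ?_)
    (LinearMap.ext fun x => ?_), fun x => rfl⟩
  · exact key α β α⁻¹ β⁻¹ (mul_inv_cancel₀ hα) (mul_inv_cancel₀ hβ) x
  · exact key α⁻¹ β⁻¹ α β (inv_mul_cancel₀ hα) (inv_mul_cancel₀ hβ) x

/-- integral changes of the basis -/
theorem new_basis (bb : Module.Basis (Fin 4) ℝ E4) (U V : Fin 4 → Fin 4 → ℤ)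
    (hUV : ∀ i k, ∑ j, U i j * V j k = if i = k then 1 else 0)
    (hVU : ∀ i k, ∑ j, V i j * U j k = if i = k then 1 else 0) :
    ∃ b' : Module.Basis (Fin 4) ℝ E4, (∀ i, b' i = ∑ j, (U i j : ℝ) • bb j) ∧
      Submodule.span ℤ (Set.range b') = Submodule.span ℤ (Set.range bb) := by
  let g : (Fin 4 → Fin 4 → ℤ) → E4 →ₗ[ℝ] E4 := fun U =>
    bb.constr ℝ fun i => ∑ j, (U i j : ℝ) • bb j
  have hg : ∀ U i, g U (bb i) = ∑ j, (U i j : ℝ) • bb j := fun U i => bb.constr_basis _ _ i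
  have key : ∀ U V : Fin 4 → Fin 4 → ℤ, (∀ i k, ∑ j, V i j * U j k = if i = k then 1 else 0) →
      (g U).comp (g V) = LinearMap.id := by
    intro U V h
    refine bb.ext fun i => ?_
    rw [LinearMap.comp_apply, hg, map_sum, LinearMap.id_apply]
    have h1 : ∀ j, g U ((V i j : ℝ) • bb j) = ∑ k, ((V i j * U j k : ℤ) : ℝ) • bb k := by
      intro j
      rw [map_smul, hg, Finset.smul_sum]
      refine Finset.sum_congr rfl fun k _ => ?_
      rw [smul_smul]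
      push_cast
      rfl
    simp only [h1]
    rw [Finset.sum_comm]
    have h2 : ∀ k, ∑ j, ((V i j * U j k : ℤ) : ℝ) • bb k = if i = k then bb k else 0 := by
      intro k
      rw [← Finset.sum_smul, ← Int.cast_sum, h]
      split_ifs <;> simp
    simp only [h2]
    rw [Finset.sum_ite_eq]
    simp
  let e : E4 ≃ₗ[ℝ] E4 := LinearEquiv.ofLinearMap (g U) (g V) (key U V hVU) (key V U hUV)
  have hb : ∀ i, (bb.map e) i = ∑ j, (U i j : ℝ) • bb j := fun i => by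
    rw [Module.Basis.map_apply]
    exact hg U i
  refine ⟨bb.map e, hb, le_antisymm ?_ ?_⟩
  · rw [Submodule.span_le]
    rintro _ ⟨i, rfl⟩
    rw [hb]
    refine Submodule.sum_mem _ fun j _ => ?_
    rw [Int.cast_smul_eq_zsmul]
    exact Submodule.smul_mem _ _ (Submodule.subset_span ⟨j, rfl⟩)
  · rw [Submodule.span_le]
    rintro _ ⟨i, rfl⟩
    have h1 : bb i = ∑ j, V i j • (bb.map e) j := by
      have h2 := congrArg (fun F : E4 →ₗ[ℝ] E4 => F (bb i)) (key U V hVU)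
      simp only [LinearMap.comp_apply, LinearMap.id_apply] at h2
      rw [hg, map_sum] at h2
      rw [← h2]
      refine Finset.sum_congr rfl fun j _ => ?_
      rw [map_smul, hg, hb, Int.cast_smul_eq_zsmul]
    rw [h1]
    exact Submodule.sum_mem _ fun j _ => Submodule.smul_mem _ _ (Submodule.subset_span ⟨j, rfl⟩)

/-- numbers at distance one half from the integers -/
theorem nn_half {x : ℝ} (h : nn x = 1 / 2) : ∃ n : ℤ, x = n + 1 / 2 := by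
  unfold nn at h
  rcases abs_eq (by norm_num : (0 : ℝ) ≤ 1 / 2) |>.1 h with h1 | h1
  · exact ⟨round x, by linarith⟩
  · refine ⟨round x - 1, ?_⟩
    push_cast
    linarith

theorem comb (bb : Module.Basis (Fin 4) ℝ E4) (u : Fin 4 → ℤ) :
    ∑ j, (u j : ℝ) • bb j = (u 0 : ℝ) • bb 0 + (u 1 : ℝ) • bb 1 + (u 2 : ℝ) • bb 2 +
      (u 3 : ℝ) • bb 3 := by
  rw [Fin.sum_univ_four]

end STRETCH

open STRETCH

/-- TARGET 1 -/
theorem exists_stretch (b : Module.Basis (Fin 4) ℝ E4) (p : E4) (k1 k2 k3 k4 k5 k6 : ℝ)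
    (τ : Fin 3 → ℝ) (δ : ℝ) (hF : Frame b p k1 k2 k3 k4 k5 k6 τ δ) (q : ℝ) (hq : 0 < q) :
    ∃ (b' : Module.Basis (Fin 4) ℝ E4) (p' : E4),
      Frame b' p' (q⁻¹ * k1) (q⁻¹ * k2) (q⁻¹ * k3) (q⁻¹ * k4) (q⁻¹ * k5) (q⁻¹ * k6) τ
        (q ^ 3 * δ) := by
  obtain ⟨s, hs, hsq⟩ : ∃ s : ℝ, 0 < s ∧ s ^ 2 = q := ⟨Real.sqrt q, Real.sqrt_pos.2 hq,
    Real.sq_sqrt hq.le⟩
  have hs0 : s ≠ 0 := hs.ne'
  obtain ⟨A, hA⟩ := exists_map p δ s⁻¹ (s ^ 3) (inv_ne_zero hs0) (pow_ne_zero 3 hs0) hF.norm_p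
  have hq' : q⁻¹ = (s⁻¹) ^ 2 := by rw [← hsq, inv_pow]
  have hqi : 0 ≤ q⁻¹ := (inv_pos.2 hq).le
  have hx : ∀ (t : ℝ) (z : Fin 3 → ℝ), t • (b.map A) 0 + z 0 • (b.map A) 1 + z 1 • (b.map A) 2 +
      z 2 • (b.map A) 3 = A (t • b 0 + z 0 • b 1 + z 1 • b 2 + z 2 • b 3) := by
    intro t z
    simp only [Module.Basis.map_apply, map_add, map_smul]
  have hn := hF.norm_p
  refine ⟨b.map A, (s ^ 3)⁻¹ • p, ⟨mul_nonneg hqi hF.h1, mul_nonneg hqi hF.h2,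
    mul_nonneg hqi hF.h3, mul_nonneg hqi hF.h4, mul_nonneg hqi hF.h5, mul_nonneg hqi hF.h6,
    mul_pos (pow_pos hq 3) hF.hδ, fun t z => ?_, fun t z => ?_, ?_⟩⟩
  · rw [hx, hA]
    have h1 := hF.gram t z
    have h2 := hF.dual t z
    set x := t • b 0 + z 0 • b 1 + z 1 • b 2 + z 2 • b 3 with hxd
    rw [h2, norm_add_sq_real, norm_smul, norm_smul, real_inner_smul_left, real_inner_smul_right,
      real_inner_comm, h2, mul_pow, mul_pow, h1]
    rw [Real.norm_eq_abs, Real.norm_eq_abs, sq_abs, sq_abs]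
    have h3 : K3 (q⁻¹ * k1) (q⁻¹ * k2) (q⁻¹ * k3) (q⁻¹ * k4) (q⁻¹ * k5) (q⁻¹ * k6)
        (z 0 + t * τ 0) (z 1 + t * τ 1) (z 2 + t * τ 2) =
        q⁻¹ * K3 k1 k2 k3 k4 k5 k6 (z 0 + t * τ 0) (z 1 + t * τ 1) (z 2 + t * τ 2) := by
      unfold K3
      ring
    rw [h3, hq', ← hsq]
    have h4 : s⁻¹ * s = 1 := inv_mul_cancel₀ hs0
    linear_combination (((s ^ 3 - s⁻¹) ^ 2 * δ * t ^ 2) * hn)
  · rw [hx, hA, real_inner_smul_left, inner_add_right, real_inner_smul_right,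
      real_inner_smul_right, real_inner_self_eq_norm_sq, hF.dual]
    have h4 : (s ^ 3)⁻¹ * s ^ 3 = 1 := inv_mul_cancel₀ (pow_ne_zero 3 hs0)
    linear_combination (((s ^ 3)⁻¹ * (s ^ 3 - s⁻¹) * t) * hn) + t * h4
  · rw [norm_smul, mul_pow, Real.norm_eq_abs, sq_abs, ← hsq]
    have h4 : (s ^ 3)⁻¹ * s ^ 3 = 1 := inv_mul_cancel₀ (pow_ne_zero 3 hs0)
    have h5 : (s ^ 2) ^ 3 * δ * (((s ^ 3)⁻¹) ^ 2 * ‖p‖ ^ 2) =
        ((s ^ 3)⁻¹ * s ^ 3) ^ 2 * (δ * ‖p‖ ^ 2) := by ring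
    rw [h5, h4, hn]
    norm_num

/-- TARGET 2 -/
theorem frame_cycle (bb : Module.Basis (Fin 4) ℝ E4) (p : E4) (a b c d e f : ℝ)
    (τ : Fin 3 → ℝ) (δ : ℝ) (hF : Frame bb p a b c d e f τ δ)
    (h : (b = 0 ∧ e = 0 ∧ a = c ∧ d = c ∧ f = c ∧ nn (τ 0 - τ 1) = 1 / 2 ∧ nn (τ 0) = 1 / 2
          ∧ nn (τ 1 - τ 2) = 1 / 2 ∧ nn (τ 2) = 1 / 2) ∨
        (a = 0 ∧ f = 0 ∧ b = c ∧ d = c ∧ e = c ∧ nn (τ 0 - τ 2) = 1 / 2 ∧ nn (τ 0) = 1 / 2
          ∧ nn (τ 1 - τ 2) = 1 / 2 ∧ nn (τ 1) = 1 / 2) ∨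
        (c = 0 ∧ d = 0 ∧ b = a ∧ e = a ∧ f = a ∧ nn (τ 0 - τ 1) = 1 / 2 ∧ nn (τ 0 - τ 2) = 1 / 2
          ∧ nn (τ 1) = 1 / 2 ∧ nn (τ 2) = 1 / 2)) :
    ∃ (b' : Module.Basis (Fin 4) ℝ E4) (s : ℝ),
      Submodule.span ℤ (Set.range b') = Submodule.span ℤ (Set.range bb) ∧
      Frame b' p s 0 s s 0 s ![1 / 2, 0, 1 / 2] δ := by
  have hn := hF.norm_p
  rcases h with ⟨hb, he, ha, hd, hf, h1, h2, h3, h4⟩ | ⟨ha, hf, hb, hd, he, h1, h2, h3, h4⟩ |
    ⟨hc, hd, hb, he, hf, h1, h2, h3, h4⟩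
  · obtain ⟨m, hm⟩ := nn_half h1
    obtain ⟨n0, hn0⟩ := nn_half h2
    obtain ⟨n2, hn2⟩ := nn_half h4
    obtain ⟨n1, hn1⟩ : ∃ n1 : ℤ, τ 1 = n1 := ⟨n0 - m, by push_cast; linarith⟩
    obtain ⟨b', hb', hsp⟩ := new_basis bb
      (![![1, -n0, -n1, -n2], ![0, 1, 0, 0], ![0, 0, 1, 0], ![0, 0, 0, 1]])
      (![![1, n0, n1, n2], ![0, 1, 0, 0], ![0, 0, 1, 0], ![0, 0, 0, 1]])
      (by
        intro i k
        fin_cases i <;> fin_cases k <;> simp [Fin.sum_univ_four])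
      (by
        intro i k
        fin_cases i <;> fin_cases k <;> simp [Fin.sum_univ_four])
    have e0 : b' 0 = bb 0 - (n0 : ℝ) • bb 1 - (n1 : ℝ) • bb 2 - (n2 : ℝ) • bb 3 := by
      rw [hb', comb]
      simp
      module
    have e1 : b' 1 = bb 1 := by
      rw [hb', comb]
      simp
    have e2 : b' 2 = bb 2 := by
      rw [hb', comb]
      simp
    have e3 : b' 3 = bb 3 := by
      rw [hb', comb]
      simp
    have hx : ∀ (t : ℝ) (z : Fin 3 → ℝ), t • b' 0 + z 0 • b' 1 + z 1 • b' 2 + z 2 • b' 3 =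
        t • bb 0 + (![z 0 - t * n0, z 1 - t * n1, z 2 - t * n2] : Fin 3 → ℝ) 0 • bb 1 +
          (![z 0 - t * n0, z 1 - t * n1, z 2 - t * n2] : Fin 3 → ℝ) 1 • bb 2 +
          (![z 0 - t * n0, z 1 - t * n1, z 2 - t * n2] : Fin 3 → ℝ) 2 • bb 3 := by
      intro t z
      rw [e0, e1, e2, e3]
      simp
      module
    refine ⟨b', c, hsp, ⟨hF.h3, le_rfl, hF.h3, hF.h3, le_rfl, hF.h3, hF.hδ, fun t z => ?_,
      fun t z => ?_, hF.norm_p⟩⟩
    · rw [hx, hF.gram, hb, he, ha, hd, hf, hn0, hn1, hn2]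
      unfold K3
      simp
      ring
    · rw [hx, hF.dual]
  · obtain ⟨m, hm⟩ := nn_half h1
    obtain ⟨n0, hn0⟩ := nn_half h2
    obtain ⟨n2, hn2⟩ := nn_half h4
    obtain ⟨n1, hn1⟩ : ∃ n1 : ℤ, τ 2 = n1 := ⟨n0 - m, by push_cast; linarith⟩
    obtain ⟨b', hb', hsp⟩ := new_basis bb
      (![![1, -n0, -n2, -n1], ![0, 1, 0, 0], ![0, 0, 0, 1], ![0, 0, 1, 0]])
      (![![1, n0, n1, n2], ![0, 1, 0, 0], ![0, 0, 0, 1], ![0, 0, 1, 0]])
      (by
        intro i k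
        fin_cases i <;> fin_cases k <;> simp [Fin.sum_univ_four])
      (by
        intro i k
        fin_cases i <;> fin_cases k <;> simp [Fin.sum_univ_four])
    have e0 : b' 0 = bb 0 - (n0 : ℝ) • bb 1 - (n2 : ℝ) • bb 2 - (n1 : ℝ) • bb 3 := by
      rw [hb', comb]
      simp
      module
    have e1 : b' 1 = bb 1 := by
      rw [hb', comb]
      simp
    have e2 : b' 2 = bb 3 := by
      rw [hb', comb]
      simp
    have e3 : b' 3 = bb 2 := by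
      rw [hb', comb]
      simp
    have hx : ∀ (t : ℝ) (z : Fin 3 → ℝ), t • b' 0 + z 0 • b' 1 + z 1 • b' 2 + z 2 • b' 3 =
        t • bb 0 + (![z 0 - t * n0, z 2 - t * n2, z 1 - t * n1] : Fin 3 → ℝ) 0 • bb 1 +
          (![z 0 - t * n0, z 2 - t * n2, z 1 - t * n1] : Fin 3 → ℝ) 1 • bb 2 +
          (![z 0 - t * n0, z 2 - t * n2, z 1 - t * n1] : Fin 3 → ℝ) 2 • bb 3 := by
      intro t z
      rw [e0, e1, e2, e3]
      simp
      module
    refine ⟨b', c, hsp, ⟨hF.h3, le_rfl, hF.h3, hF.h3, le_rfl, hF.h3, hF.hδ, fun t z => ?_,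
      fun t z => ?_, hF.norm_p⟩⟩
    · rw [hx, hF.gram, ha, hf, hb, hd, he, hn0, hn1, hn2]
      unfold K3
      simp
      ring
    · rw [hx, hF.dual]
  · obtain ⟨m, hm⟩ := nn_half h2
    obtain ⟨m', hm'⟩ := nn_half h3
    obtain ⟨n2, hn2⟩ := nn_half h4
    obtain ⟨n0, hn0⟩ : ∃ n0 : ℤ, τ 0 = n0 := ⟨m + n2 + 1, by push_cast; linarith⟩
    have hn1 : τ 1 = m' + 1 / 2 := hm'
    obtain ⟨b', hb', hsp⟩ := new_basis bb
      (![![1, -n0, -(m' + 1), -(n2 + 1)], ![0, 1, 0, 0], ![0, 0, 1, 0], ![0, -1, -1, -1]])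
      (![![1, n0 - n2 - 1, m' - n2, -(n2 + 1)], ![0, 1, 0, 0], ![0, 0, 1, 0], ![0, -1, -1, -1]])
      (by
        intro i k
        fin_cases i <;> fin_cases k <;> simp [Fin.sum_univ_four] <;> ring)
      (by
        intro i k
        fin_cases i <;> fin_cases k <;> simp [Fin.sum_univ_four] <;> ring)
    have e0 : b' 0 = bb 0 - (n0 : ℝ) • bb 1 - ((m' : ℝ) + 1) • bb 2 - ((n2 : ℝ) + 1) • bb 3 := by
      rw [hb', comb]
      simp
      module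
    have e1 : b' 1 = bb 1 := by
      rw [hb', comb]
      simp
    have e2 : b' 2 = bb 2 := by
      rw [hb', comb]
      simp
    have e3 : b' 3 = -bb 1 - bb 2 - bb 3 := by
      rw [hb', comb]
      simp
      module
    have hx : ∀ (t : ℝ) (z : Fin 3 → ℝ), t • b' 0 + z 0 • b' 1 + z 1 • b' 2 + z 2 • b' 3 =
        t • bb 0 + (![z 0 - z 2 - t * n0, z 1 - z 2 - t * (m' + 1), -z 2 - t * (n2 + 1)] :
          Fin 3 → ℝ) 0 • bb 1 +
          (![z 0 - z 2 - t * n0, z 1 - z 2 - t * (m' + 1), -z 2 - t * (n2 + 1)] :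
          Fin 3 → ℝ) 1 • bb 2 +
          (![z 0 - z 2 - t * n0, z 1 - z 2 - t * (m' + 1), -z 2 - t * (n2 + 1)] :
          Fin 3 → ℝ) 2 • bb 3 := by
      intro t z
      rw [e0, e1, e2, e3]
      simp
      module
    refine ⟨b', a, hsp, ⟨hF.h1, le_rfl, hF.h1, hF.h1, le_rfl, hF.h1, hF.hδ, fun t z => ?_,
      fun t z => ?_, hF.norm_p⟩⟩
    · rw [hx, hF.gram, hc, hd, hb, he, hf, hn0, hn1, hn2]
      unfold K3
      simp
      ring
    · rw [hx, hF.dual]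

end Pool.Agent.Helper552_D4
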