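import Pool.Agent.Helper552_D4.Defs

set_option autoImplicit false

namespace Pool.Agent.Helper552_D4

open MeasureTheory Set

namespace STRUCT

/-- the integer functional defined by a dual vector -/
theorem exists_phi (L : Submodule ℤ E4) (p : E4) (hp : InDual L p) :
    ∃ φ : L →ₗ[ℤ] ℤ, ∀ v : L, inner ℝ p (v : E4) = (φ v : ℝ) := by
  choose f hf using hp
  refine ⟨AddMonoidHom.toIntLinearMap (AddMonoidHom.mk' (fun v : L => f v v.2) ?_), fun v => hf v v.2⟩
  intro x y
  have : ((f (x + y : L) (x + y).2 : ℤ) : ℝ) = ((f x x.2 + f y y.2 : ℤ) : ℝ) := by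
    rw [← hf, Int.cast_add, ← hf, ← hf, Submodule.coe_add, inner_add_right]
  exact_mod_cast this

theorem exists_unit (L : Submodule ℤ E4) [DiscreteTopology L] [IsZLattice ℝ L] (p : E4)
    (hp0 : p ≠ 0) (hps : ∀ m : E4, m ≠ 0 → InDual L m → ‖p‖ ≤ ‖m‖)
    (φ : L →ₗ[ℤ] ℤ) (hφ : ∀ v : L, inner ℝ p (v : E4) = (φ v : ℝ)) :
    ∃ y : L, φ y = 1 := by
  obtain ⟨m, hm⟩ := (IsPrincipalIdealRing.principal (LinearMap.range φ)).principal
  have hdvd : ∀ v : L, ∃ c : ℤ, c * m = φ v := by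
    intro v
    have h1 : φ v ∈ Submodule.span ℤ {m} := hm ▸ LinearMap.mem_range_self φ v
    obtain ⟨c, hc⟩ := Submodule.mem_span_singleton.1 h1
    exact ⟨c, by simpa using hc⟩
  obtain ⟨v, hv⟩ : ∃ v : L, φ v = m := by
    have h1 : m ∈ LinearMap.range φ := hm ▸ Submodule.mem_span_singleton_self m
    exact h1
  have hm0 : m ≠ 0 := by
    rintro rfl
    have h1 : (L : Set E4) ⊆ LinearMap.ker (innerₛₗ ℝ p) := by
      intro x hx
      obtain ⟨c, hc⟩ := hdvd ⟨x, hx⟩
      have h2 := hφ ⟨x, hx⟩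
      rw [← hc] at h2
      simpa using h2
    have h2 : (⊤ : Submodule ℝ E4) ≤ LinearMap.ker (innerₛₗ ℝ p) := by
      rw [← IsZLattice.span_top (K := ℝ) (L := L)]
      exact Submodule.span_le.2 h1
    have h3 : p ∈ LinearMap.ker (innerₛₗ ℝ p) := h2 Submodule.mem_top
    exact hp0 (by simpa using h3)
  have hm0' : (m : ℝ) ≠ 0 := by exact_mod_cast hm0
  have hq : InDual L ((m : ℝ)⁻¹ • p) := by
    intro x hx
    obtain ⟨c, hc⟩ := hdvd ⟨x, hx⟩
    refine ⟨c, ?_⟩
    have h2 : inner ℝ p x = (φ ⟨x, hx⟩ : ℝ) := hφ ⟨x, hx⟩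
    rw [real_inner_smul_left, h2, ← hc]
    push_cast
    field_simp
  have h1 := hps _ (smul_ne_zero (inv_ne_zero hm0') hp0) hq
  rw [norm_smul, norm_inv] at h1
  have h2 : 0 < ‖p‖ := norm_pos_iff.2 hp0
  have h3 : 0 < ‖(m : ℝ)‖ := norm_pos_iff.2 hm0'
  have h4 : ‖(m : ℝ)‖ ≤ 1 := by
    by_contra hlt
    push Not at hlt
    have : ‖(m : ℝ)‖⁻¹ < 1 := inv_lt_one_of_one_lt₀ hlt
    nlinarith
  have h5 : |m| ≤ 1 := by
    rw [Real.norm_eq_abs] at h4
    exact_mod_cast h4
  have h6 : m = 1 ∨ m = -1 := by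
    rcases abs_le.1 h5 with ⟨ha, hb⟩
    omega
  rcases h6 with h | h
  · exact ⟨v, by rw [hv, h]⟩
  · exact ⟨-v, by rw [map_neg, hv, h]; norm_num⟩

theorem exists_three (L : Submodule ℤ E4) [DiscreteTopology L] [IsZLattice ℝ L]
    (φ : L →ₗ[ℤ] ℤ) (y : L) (hy : φ y = 1) :
    ∃ u : Fin 3 → E4, Submodule.span ℤ (Set.range u) = (LinearMap.ker φ).map L.subtype := by
  have hfr : Module.Free ℤ L := ZLattice.module_free ℝ L
  have hfi : Module.Finite ℤ L := ZLattice.module_finite ℝ L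
  have hrk : Module.finrank ℤ L = 4 := by
    rw [ZLattice.rank ℝ L]
    simp
  let bK := Module.finBasis ℤ (LinearMap.ker φ)
  have hn : Module.finrank ℤ (LinearMap.ker φ) = 3 := by
    let B := Module.Basis.mkFinCons y bK
      (by
        intro c x hx hc
        have h1 := congrArg φ hc
        rw [map_add, map_smul, hy, LinearMap.mem_ker.1 hx] at h1
        simpa using h1)
      (by
        intro z
        refine ⟨-φ z, ?_⟩
        rw [LinearMap.mem_ker, map_add, map_smul, hy]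
        simp)
    have h1 := Module.finrank_eq_card_basis B
    rw [hrk, Fintype.card_fin] at h1
    omega
  let b3 := Module.finBasisOfFinrankEq ℤ (LinearMap.ker φ) hn
  refine ⟨fun i => ((b3 i : L) : E4), ?_⟩
  have h1 : Set.range (fun i => ((b3 i : L) : E4))
      = L.subtype '' ((LinearMap.ker φ).subtype '' Set.range b3) := by
    rw [← Set.range_comp, ← Set.range_comp]
    rfl
  rw [h1, Submodule.span_image, Submodule.span_image, b3.span_eq, Submodule.map_subtype_top]

/-- superbases of `N` -/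
def SB (N : Submodule ℤ E4) (w : Fin 4 → E4) : Prop :=
  ∑ i, w i = 0 ∧ Submodule.span ℤ (Set.range w) = N

theorem exists_sb (N : Submodule ℤ E4) (u : Fin 3 → E4)
    (hu : Submodule.span ℤ (Set.range u) = N) : ∃ w, SB N w := by
  refine ⟨![u 0, u 1, u 2, -(u 0 + u 1 + u 2)], ?_, ?_⟩
  · simp [Fin.sum_univ_four]
  · rw [← hu]
    apply le_antisymm
    · rw [Submodule.span_le]
      have h : ∀ i, u i ∈ Submodule.span ℤ (Set.range u) := fun i =>
        Submodule.subset_span (Set.mem_range_self i)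
      rintro _ ⟨i, rfl⟩
      fin_cases i
      · exact h 0
      · exact h 1
      · exact h 2
      · exact Submodule.neg_mem _ (Submodule.add_mem _ (Submodule.add_mem _ (h 0) (h 1)) (h 2))
    · rw [Submodule.span_le]
      rintro _ ⟨i, rfl⟩
      fin_cases i
      · exact Submodule.subset_span ⟨0, rfl⟩
      · exact Submodule.subset_span ⟨1, rfl⟩
      · exact Submodule.subset_span ⟨2, rfl⟩

/-- the sum of squares -/
noncomputable def SS (w : Fin 4 → E4) : ℝ := ∑ i, ‖w i‖ ^ 2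

/-- the reduction step -/
noncomputable def red (w : Fin 4 → E4) (i j : Fin 4) : Fin 4 → E4 :=
  fun k => if k = i then -w i else if k = j then w j else w k + w i

theorem red_sb (N : Submodule ℤ E4) (w : Fin 4 → E4) (hw : SB N w) (i j : Fin 4) (hij : i ≠ j) :
    SB N (red w i j) := by
  obtain ⟨h1, h2⟩ := hw
  refine ⟨?_, ?_⟩
  · rw [Fin.sum_univ_four] at h1 ⊢
    revert h1 hij
    fin_cases i <;> fin_cases j <;> simp [red] <;> intro h <;>
      (rw [← h]; abel)
  · rw [← h2]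
    apply le_antisymm
    · rw [Submodule.span_le]
      have h : ∀ i, w i ∈ Submodule.span ℤ (Set.range w) := fun i =>
        Submodule.subset_span (Set.mem_range_self i)
      rintro _ ⟨k, rfl⟩
      simp only [red]
      split_ifs
      · exact Submodule.neg_mem _ (h i)
      · exact h j
      · exact Submodule.add_mem _ (h k) (h i)
    · rw [Submodule.span_le]
      have h : ∀ k, red w i j k ∈ Submodule.span ℤ (Set.range (red w i j)) := fun k =>
        Submodule.subset_span (Set.mem_range_self k)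
      have hi : w i ∈ Submodule.span ℤ (Set.range (red w i j)) := by
        have := Submodule.neg_mem _ (h i)
        simpa [red] using this
      rintro _ ⟨k, rfl⟩
      have hk := h k
      by_cases hki : k = i
      · subst hki; exact hi
      · by_cases hkj : k = j
        · subst hkj
          simpa [red, hki] using hk
        · have h3 := Submodule.sub_mem _ hk hi
          simpa [red, hki, hkj] using h3

theorem red_ss (w : Fin 4 → E4) (hw : ∑ i, w i = 0) (i j : Fin 4) (hij : i ≠ j) :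
    SS (red w i j) = SS w - 2 * inner ℝ (w i) (w j) := by
  have h0 : ∑ k, inner ℝ (w i) (w k) = (0 : ℝ) := by
    rw [← inner_sum, hw, inner_zero_right]
  unfold SS
  rw [Fin.sum_univ_four] at h0 ⊢
  rw [Fin.sum_univ_four]
  have e : ∀ x y : E4, ‖x + y‖ ^ 2 = ‖x‖ ^ 2 + 2 * inner ℝ y x + ‖y‖ ^ 2 := fun x y => by
    rw [norm_add_sq_real, real_inner_comm]
  have hs : ∀ x : E4, inner ℝ x x = ‖x‖ ^ 2 := fun x => real_inner_self_eq_norm_sq x
  revert h0 hij
  fin_cases i <;> fin_cases j <;> simp [red, e] <;> intro h <;> linarith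

theorem exists_reduced (L N : Submodule ℤ E4) [DiscreteTopology L] (hNL : N ≤ L)
    (hex : ∃ w, SB N w) :
    ∃ w, SB N w ∧ ∀ i j, i ≠ j → inner ℝ (w i) (w j) ≤ 0 := by
  obtain ⟨w0, hw0⟩ := hex
  have hcl : IsClosed (L : Set E4) := by
    have : DiscreteTopology L.toAddSubgroup := ‹DiscreteTopology L›
    exact AddSubgroup.isClosed_of_discrete (H := L.toAddSubgroup)
  have hfin : Set.Finite (Metric.closedBall (0 : E4) (Real.sqrt (SS w0)) ∩ (L : Set E4)) :=
    Metric.finite_isBounded_inter_isClosed DiscreteTopology.isDiscrete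
      Metric.isBounded_closedBall hcl
  let B : Set (Fin 4 → E4) := {w | SB N w ∧ SS w ≤ SS w0}
  have hB : B.Finite := by
    refine (Set.Finite.pi' (fun _ : Fin 4 => hfin)).subset ?_
    rintro w ⟨⟨-, h2⟩, h3⟩ i
    refine ⟨?_, ?_⟩
    · rw [mem_closedBall_zero_iff]
      apply Real.le_sqrt_of_sq_le
      refine le_trans ?_ h3
      unfold SS
      exact Finset.single_le_sum (f := fun i => ‖w i‖ ^ 2) (fun k _ => sq_nonneg _)
        (Finset.mem_univ i)
    · exact hNL (h2 ▸ Submodule.subset_span (Set.mem_range_self i))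
  obtain ⟨w, ⟨hwA, hw1⟩, hmin⟩ := Set.exists_min_image B SS hB ⟨w0, hw0, le_rfl⟩
  refine ⟨w, hwA, fun i j hij => ?_⟩
  by_contra hpos
  push Not at hpos
  have h1 := red_ss w hwA.1 i j hij
  have h2 := hmin (red w i j) ⟨red_sb N w hwA i j hij, by rw [h1]; linarith⟩
  rw [h1] at h2
  linarith

theorem gram_three (w : Fin 4 → E4) (hw : ∑ i, w i = 0) (x y z : ℝ) :
    ‖x • w 0 + y • w 1 + z • w 2‖ ^ 2
      = K3 (-inner ℝ (w 0) (w 1)) (-inner ℝ (w 0) (w 2)) (-inner ℝ (w 0) (w 3))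
          (-inner ℝ (w 1) (w 2)) (-inner ℝ (w 1) (w 3)) (-inner ℝ (w 2) (w 3)) x y z := by
  have h0 : ∀ i, ∑ k, inner ℝ (w i) (w k) = (0 : ℝ) := fun i => by
    rw [← inner_sum, hw, inner_zero_right]
  have a0 := h0 0
  have a1 := h0 1
  have a2 := h0 2
  rw [Fin.sum_univ_four] at a0 a1 a2
  rw [← real_inner_self_eq_norm_sq]
  simp only [inner_add_left, inner_add_right, real_inner_smul_left, real_inner_smul_right]
  rw [real_inner_comm (w 0) (w 1)] at a1 ⊢
  rw [real_inner_comm (w 0) (w 2), real_inner_comm (w 1) (w 2)] at a2 ⊢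
  have b0 : inner ℝ (w 0) (w 0) = -(inner ℝ (w 0) (w 1) + inner ℝ (w 0) (w 2)
      + inner ℝ (w 0) (w 3)) := by linarith
  have b1 : inner ℝ (w 1) (w 1) = -(inner ℝ (w 0) (w 1) + inner ℝ (w 1) (w 2)
      + inner ℝ (w 1) (w 3)) := by linarith
  have b2 : inner ℝ (w 2) (w 2) = -(inner ℝ (w 0) (w 2) + inner ℝ (w 1) (w 2)
      + inner ℝ (w 2) (w 3)) := by linarith
  rw [b0, b1, b2]
  unfold K3
  ring

end STRUCT

open STRUCT in
/-- TARGET -/
theorem exists_frame (L : Submodule ℤ E4) [DiscreteTopology L] [IsZLattice ℝ L] (p : E4)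
    (hp0 : p ≠ 0) (hp : InDual L p) (hps : ∀ m : E4, m ≠ 0 → InDual L m → ‖p‖ ≤ ‖m‖) :
    ∃ (b : Module.Basis (Fin 4) ℝ E4) (k1 k2 k3 k4 k5 k6 : ℝ) (τ : Fin 3 → ℝ) (δ : ℝ),
      Submodule.span ℤ (Set.range b) = L ∧ Frame b p k1 k2 k3 k4 k5 k6 τ δ := by
  obtain ⟨φ, hφ⟩ := exists_phi L p hp
  obtain ⟨y, hy⟩ := exists_unit L p hp0 hps φ hφ
  obtain ⟨u, hu⟩ := exists_three L φ y hy
  have hNL : (LinearMap.ker φ).map L.subtype ≤ L := Submodule.map_subtype_le L _
  obtain ⟨w, ⟨hw0, hwN⟩, hw2⟩ := exists_reduced L _ hNL (exists_sb _ u hu)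
  have hwmem : ∀ i, w i ∈ (LinearMap.ker φ).map L.subtype := fun i =>
    hwN ▸ Submodule.subset_span (Set.mem_range_self i)
  have hwp : ∀ i, inner ℝ p (w i) = (0 : ℝ) := by
    intro i
    obtain ⟨v, hv1, hv2⟩ := hwmem i
    rw [← hv2]
    have := hφ v
    rw [LinearMap.mem_ker.1 hv1] at this
    simpa using this
  let B : Fin 4 → E4 := ![(y : E4), w 0, w 1, w 2]
  have hBL : Submodule.span ℤ (Set.range B) = L := by
    apply le_antisymm
    · rw [Submodule.span_le]
      rintro _ ⟨i, rfl⟩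
      fin_cases i
      · exact y.2
      · exact hNL (hwmem 0)
      · exact hNL (hwmem 1)
      · exact hNL (hwmem 2)
    · have hm : ∀ i, B i ∈ Submodule.span ℤ (Set.range B) := fun i =>
        Submodule.subset_span (Set.mem_range_self i)
      have hN : (LinearMap.ker φ).map L.subtype ≤ Submodule.span ℤ (Set.range B) := by
        rw [← hwN, Submodule.span_le]
        have e3 : w 3 = -(w 0 + w 1 + w 2) := by
          rw [Fin.sum_univ_four] at hw0
          exact eq_neg_of_add_eq_zero_right hw0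
        rintro _ ⟨i, rfl⟩
        fin_cases i
        · exact hm 1
        · exact hm 2
        · exact hm 3
        · show w 3 ∈ _
          rw [e3]
          exact Submodule.neg_mem _ (Submodule.add_mem _ (Submodule.add_mem _ (hm 1) (hm 2)) (hm 3))
      intro x hx
      have h1 : (⟨x, hx⟩ : L) - φ ⟨x, hx⟩ • y ∈ LinearMap.ker φ := by
        rw [LinearMap.mem_ker, map_sub, map_smul, hy]
        simp
      have h2 : x - φ ⟨x, hx⟩ • (y : E4) ∈ Submodule.span ℤ (Set.range B) :=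
        hN ⟨_, h1, by simp⟩
      have h3 : φ ⟨x, hx⟩ • (y : E4) ∈ Submodule.span ℤ (Set.range B) :=
        Submodule.smul_mem _ _ (hm 0)
      have h4 := Submodule.add_mem _ h2 h3
      rwa [sub_add_cancel] at h4
  have htop : (⊤ : Submodule ℝ E4) ≤ Submodule.span ℝ (Set.range B) := by
    rw [← IsZLattice.span_top (K := ℝ) (L := L), Submodule.span_le, ← hBL]
    exact Submodule.span_subset_span ℤ ℝ _
  let b : Module.Basis (Fin 4) ℝ E4 := basisOfTopLeSpanOfCardEqFinrank B htop (by simp)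
  have hb : (b : Fin 4 → E4) = B := coe_basisOfTopLeSpanOfCardEqFinrank B htop (by simp)
  have hb0 : b 0 = y := by rw [hb]; rfl
  have hb1 : b 1 = w 0 := by rw [hb]; rfl
  have hb2 : b 2 = w 1 := by rw [hb]; rfl
  have hb3 : b 3 = w 2 := by rw [hb]; rfl
  have hpy : inner ℝ p (y : E4) = (1 : ℝ) := by
    rw [hφ, hy]; simp
  have hpn : 0 < ‖p‖ ^ 2 := by positivity
  let δ : ℝ := (‖p‖ ^ 2)⁻¹
  have hδp : δ * ‖p‖ ^ 2 = 1 := inv_mul_cancel₀ hpn.ne'
  have hexp := b.sum_repr (δ • p)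
  rw [Fin.sum_univ_four, hb0, hb1, hb2, hb3] at hexp
  set c := b.repr (δ • p) with hc
  have hc0 : c 0 = 1 := by
    have h1 := congrArg (fun v => inner ℝ p v) hexp
    simp only [inner_add_right, real_inner_smul_right, hpy, hwp, real_inner_self_eq_norm_sq,
      hδp] at h1
    linarith
  have hy' : (y : E4) = δ • p + ((-c 1) • w 0 + (-c 2) • w 1 + (-c 3) • w 2) := by
    rw [← hexp, hc0]
    module
  refine ⟨b, -inner ℝ (w 0) (w 1), -inner ℝ (w 0) (w 2), -inner ℝ (w 0) (w 3),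
    -inner ℝ (w 1) (w 2), -inner ℝ (w 1) (w 3), -inner ℝ (w 2) (w 3),
    ![-c 1, -c 2, -c 3], δ, by rw [hb, hBL], ?_⟩
  have hneg : ∀ i j, i ≠ j → 0 ≤ -inner ℝ (w i) (w j) := fun i j hij => by
    have := hw2 i j hij
    linarith
  refine ⟨hneg _ _ (by decide), hneg _ _ (by decide), hneg _ _ (by decide),
    hneg _ _ (by decide), hneg _ _ (by decide), hneg _ _ (by decide), inv_pos.2 hpn, ?_, ?_, hδp⟩
  · intro t z
    rw [hb0, hb1, hb2, hb3]
    have h1 : t • (y : E4) + z 0 • w 0 + z 1 • w 1 + z 2 • w 2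
        = (t * δ) • p + ((z 0 + t * -c 1) • w 0 + (z 1 + t * -c 2) • w 1
          + (z 2 + t * -c 3) • w 2) := by
      rw [hy']
      module
    rw [h1, norm_add_sq_real, gram_three w hw0]
    have h2 : inner ℝ ((t * δ) • p) ((z 0 + t * -c 1) • w 0 + (z 1 + t * -c 2) • w 1
          + (z 2 + t * -c 3) • w 2) = (0 : ℝ) := by
      simp only [inner_add_right, real_inner_smul_left, real_inner_smul_right, hwp]
      ring
    rw [h2, norm_smul, mul_pow, Real.norm_eq_abs, sq_abs]
    have h3 : (t * δ) ^ 2 * ‖p‖ ^ 2 = δ * t ^ 2 := by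
      have : (t * δ) ^ 2 * ‖p‖ ^ 2 = t ^ 2 * δ * (δ * ‖p‖ ^ 2) := by ring
      rw [this, hδp]
      ring
    rw [h3]
    simp
    ring
  · intro t z
    rw [hb0, hb1, hb2, hb3]
    simp only [inner_add_right, real_inner_smul_right, hwp, hpy]
    ring

end Pool.Agent.Helper552_D4

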