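import Pool.Agent.Helper552_D4.L3D
import Pool.Agent.Helper552_D4.D4Int
import Pool.Agent.Helper552_D4.Coord
import Pool.Agent.Helper552_D4.Stretch
import Pool.Agent.Helper552_D4.FBasic
import Pool.Agent.Helper552_D4.Struct
import Pool.Agent.Helper552_D4.Dual
import Pool.Agent.Helper552_D4.Cuts
import Pool.Agent.Helper552_D4.Layer
import Pool.Agent.Helper552_D4.Covol
import Pool.Agent.Helper552_D4.Lift
import Pool.Agent.Helper552_D4.Energy

/-!
# The optimal lattice quantizers in dimension four: assembly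
-/

set_option autoImplicit false

namespace Pool.Agent.Helper552_D4

open MeasureTheory Set

namespace Main

theorem nn_nonneg (x : ℝ) : 0 ≤ nn x := abs_nonneg _

theorem nn_le_half (x : ℝ) : nn x ≤ 1 / 2 := abs_sub_round x

/-- `p` is a shortest nonzero vector of the dual of `L`. -/
structure Shortest (L : Submodule ℤ E4) (p : E4) : Prop where
  ne : p ≠ 0
  mem : InDual L p
  le : ∀ m : E4, m ≠ 0 → InDual L m → ‖p‖ ≤ ‖m‖

/-- The facts on the Selling parameters used later. -/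
theorem facts (bb : Module.Basis (Fin 4) ℝ E4) (p : E4) (a b c d e f : ℝ)
    (τ : Fin 3 → ℝ) (δ : ℝ) (hF : Frame bb p a b c d e f τ δ)
    (hcov : ZLattice.covolume (Submodule.span ℤ (Set.range bb)) = 1)
    (hmin : ∀ m : E4, m ≠ 0 → InDual (Submodule.span ℤ (Set.range bb)) m → ‖p‖ ≤ ‖m‖) :
    DD a b c d e f * δ = 1 ∧ 0 < DD a b c d e f ∧ 5 * DD a b c d e f ≤ δ * DP a b c d e f ∧
      a + b + c + d + e + f ≤ 4 * δ ∧
      a * (1 - nn (τ 0 - τ 1) ^ 2) + b * (1 - nn (τ 0 - τ 2) ^ 2)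
      + c * (1 - nn (τ 0) ^ 2) + d * (1 - nn (τ 1 - τ 2) ^ 2) + e * (1 - nn (τ 1) ^ 2)
      + f * (1 - nn (τ 2) ^ 2) ≤ 3 * δ := by
  have hδ := hF.hδ
  have h1 := covol_gram bb p a b c d e f τ δ hF
  rw [hcov, one_pow] at h1
  have hD : 0 < DD a b c d e f := by
    by_contra hn
    push Not at hn
    nlinarith
  obtain ⟨la, lb, lc, ld, le, lf⟩ := lift_bound bb p a b c d e f τ δ hF hD hmin
  have hcirc := circle_sum (τ 0) (τ 1) (τ 2)
  have hP : DP a b c d e f = dA b c d e f + dB a c d e f + dC a b d e f + dD a b c e f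
      + dE a b c d f + dF a b c d e := by
    unfold DP dA dB dC dD dE dF; ring
  have h5 : 5 * DD a b c d e f ≤ δ * DP a b c d e f := by
    rw [hP]
    nlinarith
  have hE : a * dA b c d e f + b * dB a c d e f + c * dC a b d e f + d * dD a b c e f
      + e * dE a b c d f + f * dF a b c d e = 3 * DD a b c d e f := by
    unfold DD dA dB dC dD dE dF; ring
  have hS : a * (1 - nn (τ 0 - τ 1) ^ 2) + b * (1 - nn (τ 0 - τ 2) ^ 2)
      + c * (1 - nn (τ 0) ^ 2) + d * (1 - nn (τ 1 - τ 2) ^ 2) + e * (1 - nn (τ 1) ^ 2)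
      + f * (1 - nn (τ 2) ^ 2) ≤ 3 * δ := by
    have ma := mul_le_mul_of_nonneg_left la hF.h1
    have mb := mul_le_mul_of_nonneg_left lb hF.h2
    have mc := mul_le_mul_of_nonneg_left lc hF.h3
    have md := mul_le_mul_of_nonneg_left ld hF.h4
    have me := mul_le_mul_of_nonneg_left le hF.h5
    have mf := mul_le_mul_of_nonneg_left lf hF.h6
    have key : DD a b c d e f * (a * (1 - nn (τ 0 - τ 1) ^ 2) + b * (1 - nn (τ 0 - τ 2) ^ 2)
      + c * (1 - nn (τ 0) ^ 2) + d * (1 - nn (τ 1 - τ 2) ^ 2) + e * (1 - nn (τ 1) ^ 2)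
      + f * (1 - nn (τ 2) ^ 2)) ≤ DD a b c d e f * (3 * δ) := by
      have : DD a b c d e f * (3 * δ) = δ * (a * dA b c d e f + b * dB a c d e f
        + c * dC a b d e f + d * dD a b c e f + e * dE a b c d f + f * dF a b c d e) := by
        rw [hE]; ring
      rw [this]
      linarith
    exact le_of_mul_le_mul_left key hD
  have hW : a + b + c + d + e + f ≤ 4 * δ := by
    have q : ∀ x : ℝ, 3 / 4 ≤ 1 - nn x ^ 2 := by
      intro x
      nlinarith [nn_nonneg x, nn_le_half x]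
    have ma := mul_le_mul_of_nonneg_left (q (τ 0 - τ 1)) hF.h1
    have mb := mul_le_mul_of_nonneg_left (q (τ 0 - τ 2)) hF.h2
    have mc := mul_le_mul_of_nonneg_left (q (τ 0)) hF.h3
    have md := mul_le_mul_of_nonneg_left (q (τ 1 - τ 2)) hF.h4
    have me := mul_le_mul_of_nonneg_left (q (τ 1)) hF.h5
    have mf := mul_le_mul_of_nonneg_left (q (τ 2)) hF.h6
    linarith
  exact ⟨h1.symm, hD, h5, hW, hS⟩

/-- The number `1 / √2`. -/
theorem half_le_sq {a b c d e f δ S : ℝ} (hδ : 0 < δ) (hD : DD a b c d e f * δ = 1)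
    (hS0 : 0 ≤ S) (hS : S ≤ 3 * δ) (h : 27 * DD a b c d e f ≤ 4 * S ^ 3) :
    1 / 2 ≤ δ ^ 2 := by
  have h1 : S ^ 3 ≤ (3 * δ) ^ 3 := pow_le_pow_left₀ hS0 hS 3
  have h2 : DD a b c d e f ≤ 4 * δ ^ 3 := by nlinarith
  have h3 : 1 ≤ 4 * δ ^ 4 := by
    calc (1 : ℝ) = DD a b c d e f * δ := hD.symm
      _ ≤ 4 * δ ^ 3 * δ := mul_le_mul_of_nonneg_right h2 hδ.le
      _ = 4 * δ ^ 4 := by ring
  nlinarith [sq_nonneg (δ ^ 2 - 1 / 2), sq_nonneg δ]

theorem wsum_nonneg (bb : Module.Basis (Fin 4) ℝ E4) (p : E4) (a b c d e f : ℝ)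
    (τ : Fin 3 → ℝ) (δ : ℝ) (hF : Frame bb p a b c d e f τ δ) :
    0 ≤ a * (1 - nn (τ 0 - τ 1) ^ 2) + b * (1 - nn (τ 0 - τ 2) ^ 2)
      + c * (1 - nn (τ 0) ^ 2) + d * (1 - nn (τ 1 - τ 2) ^ 2) + e * (1 - nn (τ 1) ^ 2)
      + f * (1 - nn (τ 2) ^ 2) := by
  have q : ∀ x : ℝ, 0 ≤ 1 - nn x ^ 2 := by
    intro x
    nlinarith [nn_nonneg x, nn_le_half x]
  have := mul_nonneg hF.h1 (q (τ 0 - τ 1))
  have := mul_nonneg hF.h2 (q (τ 0 - τ 2))
  have := mul_nonneg hF.h3 (q (τ 0))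
  have := mul_nonneg hF.h4 (q (τ 1 - τ 2))
  have := mul_nonneg hF.h5 (q (τ 1))
  have := mul_nonneg hF.h6 (q (τ 2))
  linarith

/-- T3: the shortest dual vector has norm at most `2 ^ (1/4)`. -/
theorem T3 (L : Submodule ℤ E4) [DiscreteTopology L] [IsZLattice ℝ L]
    (hcov : ZLattice.covolume L = 1) (p : E4) (hp : Shortest L p) : ‖p‖ ^ 2 ≤ Real.sqrt 2 := by
  obtain ⟨bb, a, b, c, d, e, f, τ, δ, hL, hF⟩ := exists_frame L p hp.ne hp.mem hp.le
  subst hL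
  obtain ⟨hD, hD0, h5, hW, hS⟩ := facts bb p a b c d e f τ δ hF hcov hp.le
  have hδ := hF.hδ
  have h1 := half_le_sq hδ hD (wsum_nonneg bb p a b c d e f τ δ hF) hS
    (cut_main a b c d e f hF.h1 hF.h2 hF.h3 hF.h4 hF.h5 hF.h6 (τ 0) (τ 1) (τ 2))
  have h2 : ‖p‖ ^ 2 = δ⁻¹ := by
    have := hF.norm_p
    field_simp
    linarith
  rw [h2]
  apply Real.le_sqrt_of_sq_le
  rw [inv_pow, inv_le_comm₀ (by positivity) (by norm_num)]
  linarith

theorem I2_nonneg (L : Submodule ℤ E4) : 0 ≤ I2 L := by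
  unfold I2
  exact integral_nonneg fun x => by positivity

/-- The optimal value. -/
noncomputable def cc : ℝ := 13 / (30 * Real.sqrt 2)

theorem cc_pos : 0 < cc := by unfold cc; positivity

/-- The main estimates for one lattice. -/
theorem energyL (L : Submodule ℤ E4) [DiscreteTopology L] [IsZLattice ℝ L]
    (hcov : ZLattice.covolume L = 1) (p : E4) (hp : Shortest L p) :
    ∃ α : ℝ, 5 / 4 * cc ≤ α + I2 L ∧ (α + I2 L ≤ 5 / 4 * cc → ‖p‖ ^ 2 = Real.sqrt 2) ∧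
      ∀ q : ℝ, 0 < q → ∃ (L' : Submodule ℤ E4) (_ : DiscreteTopology L') (_ : IsZLattice ℝ L'),
        ZLattice.covolume L' = 1 ∧ I2 L' ≤ q ^ 3 * α + q⁻¹ * (I2 L - α) := by
  obtain ⟨bb, a, b, c, d, e, f, τ, δ, hL, hF⟩ := exists_frame L p hp.ne hp.mem hp.le
  subst hL
  obtain ⟨hD, hD0, h5, hW, hS⟩ := facts bb p a b c d e f τ δ hF hcov hp.le
  have hδ := hF.hδ
  have hm := measurable_f3 a b c d e f hF.h1 hF.h2 hF.h3 hF.h4 hF.h5 hF.h6
  have h0 := f3_nonneg a b c d e f hF.h1 hF.h2 hF.h3 hF.h4 hF.h5 hF.h6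
  have h1 : ∀ z, f3 a b c d e f z ≤ δ := fun z =>
    (f3_le a b c d e f hF.h1 hF.h2 hF.h3 hF.h4 hF.h5 hF.h6 z).trans (by linarith)
  have hper := f3_per a b c d e f
  have hI : I2 (Submodule.span ℤ (Set.range bb)) = δ / 12 + (∫ z in cube3, f3 a b c d e f z)
      - (1 / (4 * δ)) * ∫ z in cube3, (f3 a b c d e f (z - τ) - f3 a b c d e f z) ^ 2 := by
    rw [I2_coord bb p a b c d e f τ δ hF hcov]
    exact layer_formula _ hm hper τ δ hδ h0 h1
  set F3 := ∫ z in cube3, f3 a b c d e f z with hF3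
  set E := ∫ z in cube3, (f3 a b c d e f (z - τ) - f3 a b c d e f z) ^ 2 with hE
  have hen := energy a b c d e f hF.h1 hF.h2 hF.h3 hF.h4 hF.h5 hF.h6 δ hδ hD h5
  have hL3 := L3D a b c d e f hF.h1 hF.h2 hF.h3 hF.h4 hF.h5 hF.h6 hD0
  have hcc : 5 / 4 * cc = 13 / (24 * Real.sqrt 2) := by
    unfold cc
    have : Real.sqrt 2 ≠ 0 := by positivity
    field_simp
    norm_num
  have hsum : δ / 12 + 1 / (4 * δ) * E + I2 (Submodule.span ℤ (Set.range bb)) = δ / 6 + F3 := by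
    rw [hI]; ring
  refine ⟨δ / 12 + 1 / (4 * δ) * E, ?_, ?_, ?_⟩
  · rw [hsum, hcc]
    linarith [hen.1]
  · intro h
    rw [hsum, hcc] at h
    have h2 := hen.2 (by linarith)
    have h3 : ‖p‖ ^ 2 = δ⁻¹ := by
      have := hF.norm_p
      field_simp
      linarith
    rw [h3, h2]
    simp
  · intro q hq
    obtain ⟨b', p', hF'⟩ := exists_stretch bb p a b c d e f τ δ hF q hq
    have hc' := covol_gram b' p' _ _ _ _ _ _ τ _ hF'
    have hDq : DD (q⁻¹ * a) (q⁻¹ * b) (q⁻¹ * c) (q⁻¹ * d) (q⁻¹ * e) (q⁻¹ * f) * (q ^ 3 * δ)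
        = DD a b c d e f * δ := by
      unfold DD
      field_simp
    rw [hDq, hD] at hc'
    have hpos : 0 < ZLattice.covolume (Submodule.span ℤ (Set.range b')) :=
      ZLattice.covolume_pos _ _
    have hc1 : ZLattice.covolume (Submodule.span ℤ (Set.range b')) = 1 := by nlinarith
    refine ⟨Submodule.span ℤ (Set.range b'), inferInstance, inferInstance, hc1, ?_⟩
    rw [I2_coord b' p' _ _ _ _ _ _ τ _ hF' hc1]
    have hfun : f3 (q⁻¹ * a) (q⁻¹ * b) (q⁻¹ * c) (q⁻¹ * d) (q⁻¹ * e) (q⁻¹ * f)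
        = fun z => q⁻¹ * f3 a b c d e f z := by
      funext z
      exact f3_smul q⁻¹ a b c d e f (by positivity) z
    rw [hfun]
    have hb := layer_bound (f3 a b c d e f) hm hper τ δ hδ h0 h1 (q ^ 3) q⁻¹ (by positivity)
      (by positivity)
    refine hb.trans (le_of_eq ?_)
    rw [hI]
    ring

/-- Existence of a shortest dual vector. -/
theorem exists_shortest_dual (L : Submodule ℤ E4) [DiscreteTopology L] [IsZLattice ℝ L]
    (hcov : ZLattice.covolume L = 1) : ∃ p, Shortest L p := by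
  obtain ⟨M, hM1, hM2, hM3, hM4, hM5⟩ := exists_dual L hcov
  obtain ⟨p, hp1, hp2, hp3⟩ := exists_shortest M
  exact ⟨p, hp2, (hM4 p).1 hp1, fun m hm0 hm => hp3 m ((hM4 m).2 hm) hm0⟩

/-- The real variable part of T1. -/
theorem T1_real (c m I α : ℝ) (hc : 0 < c) (hm0 : 0 ≤ m) (hmc : m < c) (hmI : m ≤ I)
    (h1 : I < m + (c - m) / 2) (h2 : I < m + (c - m) ^ 2 / (8 * c)) (hα : 5 / 4 * c ≤ α + I) :
    ∃ q : ℝ, 0 < q ∧ q ^ 3 * α + q⁻¹ * (I - α) < m := by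
  obtain ⟨κ, hκ⟩ : ∃ κ, κ = c - I := ⟨_, rfl⟩
  have hκ1 : (c - m) / 2 ≤ κ := by linarith
  have hκ2 : κ ≤ c := by linarith
  have hκ0 : 0 < κ := by linarith
  obtain ⟨s, hs⟩ : ∃ s, s = κ / (3 * c) := ⟨_, rfl⟩
  have hs0 : 0 < s := by rw [hs]; positivity
  have hs1 : s ≤ 1 / 3 := by
    rw [hs, div_le_iff₀ (by positivity)]; linarith
  have hscc : s * (3 * c) = κ := by rw [hs]; field_simp
  have hq0 : 0 < 1 - s := by linarith
  refine ⟨1 - s, hq0, ?_⟩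
  have hα2 : (I + 5 * κ) / 4 ≤ α := by linarith
  have h31 : 0 ≤ s ^ 3 * (4 - s) := by
    have : 0 ≤ 4 - s := by linarith
    positivity
  have h3 : 4 * s - 6 * s ^ 2 ≤ 1 - (1 - s) ^ 4 := by
    have : 1 - (1 - s) ^ 4 = 4 * s - 6 * s ^ 2 + s ^ 3 * (4 - s) := by ring
    linarith
  have h30 : 0 ≤ 4 * s - 6 * s ^ 2 := by
    have : 4 * s - 6 * s ^ 2 = 2 * (s * (2 - 3 * s)) := by ring
    have h' : 0 ≤ 2 - 3 * s := by linarith
    rw [this]; positivity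
  have hI5 : 0 ≤ (I + 5 * κ) / 4 := by
    have : 0 ≤ I := hm0.trans hmI
    positivity
  have h4 : (4 * s - 6 * s ^ 2) * ((I + 5 * κ) / 4) ≤ (1 - (1 - s) ^ 4) * α :=
    mul_le_mul h3 hα2 hI5 (h30.trans h3)
  have h6 : I + 5 * κ ≤ 5 * c := by
    have : 0 ≤ I := hm0.trans hmI
    linarith
  have h7 : s ^ 2 * (I + 5 * κ) ≤ s ^ 2 * (5 * c) :=
    mul_le_mul_of_nonneg_left h6 (sq_nonneg s)
  have h8 : s ^ 2 * (5 * c) = 5 / 3 * (s * κ) := by
    rw [← hscc]; ring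
  have h9 : (1 - s) ^ 4 * α + (I - α) ≤ (1 - s) * I - 5 / 2 * (s * κ) := by
    have e1 : (1 - s) ^ 4 * α + (I - α) = I - (1 - (1 - s) ^ 4) * α := by ring
    have e2 : (4 * s - 6 * s ^ 2) * ((I + 5 * κ) / 4)
        = s * I + 5 * (s * κ) - 3 / 2 * (s ^ 2 * (I + 5 * κ)) := by ring
    rw [e1]
    have e3 : (1 - s) * I = I - s * I := by ring
    rw [e3]
    linarith
  have h11 : (1 - s) * I < (1 - s) * (m + (c - m) ^ 2 / (8 * c)) :=
    mul_lt_mul_of_pos_left h2 hq0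
  have h12 : s * κ = κ ^ 2 / (3 * c) := by rw [hs]; ring
  have h13 : ((c - m) / 2) ^ 2 ≤ κ ^ 2 := pow_le_pow_left₀ (by linarith) hκ1 2
  have h14 : (c - m) ^ 2 / (8 * c) ≤ 5 / 2 * (s * κ) := by
    rw [h12]
    have h15 : ((c - m) / 2) ^ 2 / (3 * c) ≤ κ ^ 2 / (3 * c) := by gcongr
    have h16 : 0 ≤ (c - m) ^ 2 / (3 * c) := by positivity
    have h17 : ((c - m) / 2) ^ 2 / (3 * c) = 1 / 4 * ((c - m) ^ 2 / (3 * c)) := by ring
    have h18 : (c - m) ^ 2 / (8 * c) = 3 / 8 * ((c - m) ^ 2 / (3 * c)) := by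
      field_simp
    rw [h18]
    linarith
  have h19 : (1 - s) * ((c - m) ^ 2 / (8 * c)) ≤ (c - m) ^ 2 / (8 * c) := by
    have h20 : 0 ≤ (c - m) ^ 2 / (8 * c) := by positivity
    have h21 : (1 - s) * ((c - m) ^ 2 / (8 * c))
        = (c - m) ^ 2 / (8 * c) - s * ((c - m) ^ 2 / (8 * c)) := by ring
    have h22 : 0 ≤ s * ((c - m) ^ 2 / (8 * c)) := by positivity
    linarith
  have h20 : (1 - s) * ((1 - s) ^ 3 * α + (1 - s)⁻¹ * (I - α))
      = (1 - s) ^ 4 * α + (I - α) := by field_simp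
  have h21 : (1 - s) * ((1 - s) ^ 3 * α + (1 - s)⁻¹ * (I - α)) < (1 - s) * m := by
    rw [h20]
    have e4 : (1 - s) * (m + (c - m) ^ 2 / (8 * c))
        = (1 - s) * m + (1 - s) * ((c - m) ^ 2 / (8 * c)) := by ring
    linarith
  exact lt_of_mul_lt_mul_left h21 hq0.le

/-- The real variable part of T2. -/
theorem T2_real (c I α : ℝ) (hI : I ≤ c) (hI0 : 0 ≤ I) (h : 5 / 4 * c < α + I) :
    ∃ q : ℝ, 0 < q ∧ q ^ 3 * α + q⁻¹ * (I - α) < I := by
  have hα0 : 0 < α := by linarith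
  have h4 : 0 < 4 * α - I := by linarith
  obtain ⟨s, hs⟩ : ∃ s, s = (4 * α - I) / (12 * α) := ⟨_, rfl⟩
  have hs0 : 0 < s := by rw [hs]; positivity
  have hsα : s * (12 * α) = 4 * α - I := by rw [hs]; field_simp
  have hs1 : s ≤ 1 / 3 := by
    rw [hs, div_le_iff₀ (by positivity)]; linarith
  have hq0 : 0 < 1 - s := by linarith
  refine ⟨1 - s, hq0, ?_⟩
  have h31 : 0 ≤ s ^ 3 * (4 - s) := by
    have : 0 ≤ 4 - s := by linarith
    positivity
  have h3 : 4 * s - 6 * s ^ 2 ≤ 1 - (1 - s) ^ 4 := by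
    have : 1 - (1 - s) ^ 4 = 4 * s - 6 * s ^ 2 + s ^ 3 * (4 - s) := by ring
    linarith
  have h5 : (4 * s - 6 * s ^ 2) * α ≤ (1 - (1 - s) ^ 4) * α :=
    mul_le_mul_of_nonneg_right h3 hα0.le
  have h8 : 6 * s ^ 2 * α = s * (4 * α - I) / 2 := by
    rw [← hsα]; ring
  have h9 : 0 < s * (4 * α - I) := by positivity
  have h20 : (1 - s) * ((1 - s) ^ 3 * α + (1 - s)⁻¹ * (I - α))
      = (1 - s) ^ 4 * α + (I - α) := by field_simp
  have h21 : (1 - s) * ((1 - s) ^ 3 * α + (1 - s)⁻¹ * (I - α)) < (1 - s) * I := by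
    rw [h20]
    have e1 : (1 - s) ^ 4 * α + (I - α) = I - (1 - (1 - s) ^ 4) * α := by ring
    have e2 : (1 - s) * I = I - s * (4 * α) + s * (4 * α - I) := by ring
    have e3 : (4 * s - 6 * s ^ 2) * α = s * (4 * α) - 6 * s ^ 2 * α := by ring
    rw [e1, e2]
    linarith
  exact lt_of_mul_lt_mul_left h21 hq0.le

/-- T1: the lower bound. -/
theorem T1 (L : Submodule ℤ E4) [DiscreteTopology L] [IsZLattice ℝ L]
    (hcov : ZLattice.covolume L = 1) : cc ≤ I2 L := by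
  by_contra hlt
  push Not at hlt
  let S : Set ℝ := {r | ∃ (L : Submodule ℤ E4) (_ : DiscreteTopology L) (_ : IsZLattice ℝ L),
    ZLattice.covolume L = 1 ∧ I2 L = r}
  have hSne : S.Nonempty := ⟨I2 L, L, inferInstance, inferInstance, hcov, rfl⟩
  have hSb : BddBelow S := ⟨0, by rintro _ ⟨L, _, _, _, rfl⟩; exact I2_nonneg L⟩
  have hm0 : 0 ≤ sInf S := le_csInf hSne (by rintro _ ⟨L, _, _, _, rfl⟩; exact I2_nonneg L)
  have hmL : sInf S ≤ I2 L := csInf_le hSb ⟨L, inferInstance, inferInstance, hcov, rfl⟩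
  have hc := cc_pos
  have hε : 0 < cc - sInf S := by linarith
  have hη : 0 < min ((cc - sInf S) / 2) ((cc - sInf S) ^ 2 / (8 * cc)) := by positivity
  obtain ⟨r, ⟨L1, i1, i2, hc1, rfl⟩, hr⟩ := Real.lt_sInf_add_pos hSne hη
  have hr1 : I2 L1 < sInf S + (cc - sInf S) / 2 :=
    lt_of_lt_of_le hr (add_le_add_right (min_le_left _ _) _)
  have hr2 : I2 L1 < sInf S + (cc - sInf S) ^ 2 / (8 * cc) :=
    lt_of_lt_of_le hr (add_le_add_right (min_le_right _ _) _)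
  obtain ⟨p, hp⟩ := exists_shortest_dual L1 hc1
  obtain ⟨α, hα, -, hq⟩ := energyL L1 hc1 p hp
  have hm1 : sInf S ≤ I2 L1 := csInf_le hSb ⟨L1, i1, i2, hc1, rfl⟩
  obtain ⟨q, hq0, hqm⟩ := T1_real cc (sInf S) (I2 L1) α hc hm0 (by linarith) hm1 hr1 hr2 hα
  obtain ⟨L2, j1, j2, hc2, hle⟩ := hq q hq0
  have hm2 : sInf S ≤ I2 L2 := csInf_le hSb ⟨L2, j1, j2, hc2, rfl⟩
  exact absurd (hm2.trans hle) (not_le.2 hqm)

/-- T2: in the case of equality the shortest dual vector has norm `2 ^ (1/4)`. -/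
theorem T2 (L : Submodule ℤ E4) [DiscreteTopology L] [IsZLattice ℝ L]
    (hcov : ZLattice.covolume L = 1) (hI : I2 L ≤ cc) (p : E4) (hp : Shortest L p) :
    ‖p‖ ^ 2 = Real.sqrt 2 := by
  obtain ⟨α, hα, heq, hq⟩ := energyL L hcov p hp
  apply heq
  by_contra hn
  push Not at hn
  obtain ⟨q, hq0, hqm⟩ := T2_real cc (I2 L) α hI (I2_nonneg L) hn
  obtain ⟨L2, j1, j2, hc2, hle⟩ := hq q hq0
  have hT := T1 L2 hc2
  linarith

/-- Elementary facts for T4. -/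
theorem delta_val (δ : ℝ) (hδ : 0 < δ) (h : δ ^ 2 = 1 / 2) : δ = 1 / Real.sqrt 2 := by
  have h1 : (1 / Real.sqrt 2) ^ 2 = 1 / 2 := by
    rw [div_pow, Real.sq_sqrt (by norm_num)]; norm_num
  exact (pow_left_inj₀ hδ.le (by positivity) (by norm_num)).1 (h.trans h1.symm)

theorem delta_sq (δ : ℝ) (hδ : 0 < δ) (h1 : 1 / 2 ≤ δ ^ 2) (h2 : Real.sqrt 2 ≤ δ⁻¹) :
    δ ^ 2 = 1 / 2 := by
  have h3 : δ * Real.sqrt 2 ≤ 1 := by
    have := mul_le_mul_of_nonneg_left h2 hδ.le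
    rwa [mul_inv_cancel₀ hδ.ne'] at this
  have h4 : (δ * Real.sqrt 2) ^ 2 ≤ 1 := pow_le_one₀ (by positivity) h3
  rw [mul_pow, Real.sq_sqrt (by norm_num)] at h4
  linarith

theorem s_eq_delta (s δ : ℝ) (hs : 0 ≤ s) (hδ : 0 < δ) (h : δ ^ 2 = 1 / 2)
    (hg : 1 = 4 * s ^ 3 * δ) : s = δ := by
  have h1 : δ ^ 3 * (4 * δ) = 1 := by
    have : δ ^ 3 * (4 * δ) = 4 * (δ ^ 2) ^ 2 := by ring
    rw [this, h]; norm_num
  have h2 : s ^ 3 * (4 * δ) = δ ^ 3 * (4 * δ) := by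
    rw [h1, hg]; ring
  have h3 : s ^ 3 = δ ^ 3 := mul_right_cancel₀ (by positivity) h2
  exact (pow_left_inj₀ hs hδ.le (by norm_num)).1 h3

theorem D_val (D δ : ℝ) (hδ : 0 < δ) (h : δ ^ 2 = 1 / 2) (hD : D * δ = 1) : D = 4 * δ ^ 3 := by
  have h1 : 4 * δ ^ 3 * δ = 1 := by
    have : 4 * δ ^ 3 * δ = 4 * (δ ^ 2) ^ 2 := by ring
    rw [this, h]; norm_num
  exact mul_right_cancel₀ hδ.ne' (hD.trans h1.symm)

/-- A frame of type D4. -/
def HasFrame (L : Submodule ℤ E4) : Prop :=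
  ∃ (b : Module.Basis (Fin 4) ℝ E4) (p : E4), Submodule.span ℤ (Set.range b) = L ∧
    Frame b p (1 / Real.sqrt 2) 0 (1 / Real.sqrt 2) (1 / Real.sqrt 2) 0 (1 / Real.sqrt 2)
      ![1 / 2, 0, 1 / 2] (1 / Real.sqrt 2)

/-- T4, first part: densest dual lattices have a frame of type D4. -/
theorem T4a (L : Submodule ℤ E4) [DiscreteTopology L] [IsZLattice ℝ L]
    (hcov : ZLattice.covolume L = 1)
    (h : ∀ m : E4, m ≠ 0 → InDual L m → Real.sqrt 2 ≤ ‖m‖ ^ 2) : HasFrame L := by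
  obtain ⟨p, hp⟩ := exists_shortest_dual L hcov
  obtain ⟨bb, a, b, c, d, e, f, τ, δ, hL, hF⟩ := exists_frame L p hp.ne hp.mem hp.le
  subst hL
  obtain ⟨hD, hD0, h5, hW, hS⟩ := facts bb p a b c d e f τ δ hF hcov hp.le
  have hδ := hF.hδ
  have hS0 := wsum_nonneg bb p a b c d e f τ δ hF
  have h1 := half_le_sq hδ hD hS0 hS
    (cut_main a b c d e f hF.h1 hF.h2 hF.h3 hF.h4 hF.h5 hF.h6 (τ 0) (τ 1) (τ 2))
  have hpn : ‖p‖ ^ 2 = δ⁻¹ := by
    have := hF.norm_p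
    field_simp
    linarith
  have h2 := h p hp.ne hp.mem
  rw [hpn] at h2
  have hδ2 : δ ^ 2 = 1 / 2 := delta_sq δ hδ h1 h2
  have hDδ : DD a b c d e f = 4 * δ ^ 3 := D_val _ δ hδ hδ2 hD
  have h4 : 4 * (a * (1 - nn (τ 0 - τ 1) ^ 2) + b * (1 - nn (τ 0 - τ 2) ^ 2)
      + c * (1 - nn (τ 0) ^ 2) + d * (1 - nn (τ 1 - τ 2) ^ 2) + e * (1 - nn (τ 1) ^ 2)
      + f * (1 - nn (τ 2) ^ 2)) ^ 3 ≤ 27 * DD a b c d e f := by
    have h41 := pow_le_pow_left₀ hS0 hS 3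
    have h42 : 27 * (4 * δ ^ 3) = 4 * (3 * δ) ^ 3 := by ring
    rw [hDδ, h42]
    exact mul_le_mul_of_nonneg_left h41 (by norm_num)
  have h6 := cut_eq a b c d e f hF.h1 hF.h2 hF.h3 hF.h4 hF.h5 hF.h6 (τ 0) (τ 1) (τ 2) hD0 h4
  obtain ⟨b', s, hsp, hF'⟩ := frame_cycle bb p a b c d e f τ δ hF h6
  have hcov' : ZLattice.covolume (Submodule.span ℤ (Set.range b')) = 1 := by
    rw [hsp]; exact hcov
  have hs0 : 0 ≤ s := hF'.h1
  have hg := covol_gram b' p s 0 s s 0 s _ δ hF'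
  rw [hcov', one_pow] at hg
  have hDs : DD s 0 s s 0 s = 4 * s ^ 3 := by unfold DD; ring
  rw [hDs] at hg
  have hsδ : s = δ := s_eq_delta s δ hs0 hδ hδ2 hg
  have hδs : δ = 1 / Real.sqrt 2 := delta_val δ hδ hδ2
  rw [hsδ, hδs] at hF'
  exact ⟨b', p, hsp, hF'⟩

/-- T4, second part: the value. -/
theorem T4b (L : Submodule ℤ E4) [DiscreteTopology L] [IsZLattice ℝ L]
    (hcov : ZLattice.covolume L = 1) (h : HasFrame L) : I2 L ≤ cc := by
  obtain ⟨b', p, hsp, hF'⟩ := h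
  have hcov' : ZLattice.covolume (Submodule.span ℤ (Set.range b')) = 1 := by
    subst hsp; exact hcov
  rw [← hsp, I2_coord b' p _ _ _ _ _ _ _ _ hF' hcov']
  obtain ⟨δ, hδs⟩ : ∃ δ, δ = 1 / Real.sqrt 2 := ⟨_, rfl⟩
  have hδ : 0 < δ := by rw [hδs]; positivity
  rw [← hδs]
  have hfun : f3 δ 0 δ δ 0 δ = fun z => δ * f3 1 0 1 1 0 1 z := by
    funext z
    have := f3_smul δ 1 0 1 1 0 1 hδ.le z
    simpa using this
  have hF4 : F4 (f3 δ 0 δ δ 0 δ) ![1 / 2, 0, 1 / 2] δ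
      = δ * F4 (f3 1 0 1 1 0 1) ![1 / 2, 0, 1 / 2] 1 := by
    unfold F4
    rw [hfun, ← integral_const_mul]
    refine integral_congr_ae (Filter.Eventually.of_forall fun t => ?_)
    simp only
    rw [← integral_const_mul]
    refine integral_congr_ae (Filter.Eventually.of_forall fun z => ?_)
    simp only
    rw [Real.mul_iInf_of_nonneg hδ.le]
    refine iInf_congr fun j => ?_
    ring
  rw [hF4]
  calc δ * F4 (f3 1 0 1 1 0 1) ![1 / 2, 0, 1 / 2] 1 ≤ δ * (13 / 30) :=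
        mul_le_mul_of_nonneg_left d4_int hδ.le
    _ = cc := by
        unfold cc
        rw [hδs]
        ring

/-- T4: densest dual lattices give the optimal value. -/
theorem T4 (L : Submodule ℤ E4) [DiscreteTopology L] [IsZLattice ℝ L]
    (hcov : ZLattice.covolume L = 1)
    (h : ∀ m : E4, m ≠ 0 → InDual L m → Real.sqrt 2 ≤ ‖m‖ ^ 2) : I2 L ≤ cc :=
  T4b L hcov (T4a L hcov h)

end Main

end Pool.Agent.Helper552_D4
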