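import Pool.Agent.Helper552_D4.Refl

/-!
# The polynomial inequality U5, orderings of the weights, part A
-/

set_option autoImplicit false

namespace Pool.Agent.Helper552_D4

open T

theorem u_012345 (a b c d e f : ℝ) (h0 : 0 ≤ a) (h1 : a ≤ b) (h2 : b ≤ c)
    (h3 : c ≤ d) (h4 : d ≤ e) (h5 : e ≤ f) :
    0 ≤ UU a b c d e f := by
  have hp := pt_nonneg h0 (sub_nonneg.2 h1) (sub_nonneg.2 h2) (sub_nonneg.2 h3)
    (sub_nonneg.2 h4) (sub_nonneg.2 h5)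
  have key := UU_nonneg_of _ hp s0 s1 s2 s3 s4 s5 (T.c 0) (T.c 0) le_rfl
    (by decide +kernel)
  simp only [ev_s0, ev_s1, ev_s2, ev_s3, ev_s4, ev_s5] at key
  convert key using 2 <;> ring

theorem u_012354 (a b c d e f : ℝ) (h0 : 0 ≤ a) (h1 : a ≤ b) (h2 : b ≤ c)
    (h3 : c ≤ d) (h4 : d ≤ f) (h5 : f ≤ e) :
    0 ≤ UU a b c d e f := by
  have hp := pt_nonneg h0 (sub_nonneg.2 h1) (sub_nonneg.2 h2) (sub_nonneg.2 h3)
    (sub_nonneg.2 h4) (sub_nonneg.2 h5)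
  have key := UU_nonneg_of _ hp s0 s1 s2 s3 s5 s4 (T.c 0) (T.c 0) le_rfl
    (by decide +kernel)
  simp only [ev_s0, ev_s1, ev_s2, ev_s3, ev_s4, ev_s5] at key
  convert key using 2 <;> ring

theorem u_012435 (a b c d e f : ℝ) (h0 : 0 ≤ a) (h1 : a ≤ b) (h2 : b ≤ c)
    (h3 : c ≤ e) (h4 : e ≤ d) (h5 : d ≤ f) :
    0 ≤ UU a b c d e f := by
  have hp := pt_nonneg h0 (sub_nonneg.2 h1) (sub_nonneg.2 h2) (sub_nonneg.2 h3)
    (sub_nonneg.2 h4) (sub_nonneg.2 h5)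
  have key := UU_nonneg_of _ hp s0 s1 s2 s4 s3 s5 (T.c 0) (T.c 0) le_rfl
    (by decide +kernel)
  simp only [ev_s0, ev_s1, ev_s2, ev_s3, ev_s4, ev_s5] at key
  convert key using 2 <;> ring

theorem u_012453 (a b c d e f : ℝ) (h0 : 0 ≤ a) (h1 : a ≤ b) (h2 : b ≤ c)
    (h3 : c ≤ e) (h4 : e ≤ f) (h5 : f ≤ d) :
    0 ≤ UU a b c d e f := by
  have hp := pt_nonneg h0 (sub_nonneg.2 h1) (sub_nonneg.2 h2) (sub_nonneg.2 h3)
    (sub_nonneg.2 h4) (sub_nonneg.2 h5)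
  have key := UU_nonneg_of _ hp s0 s1 s2 s5 s3 s4 (T.c 0) (T.c 0) le_rfl
    (by decide +kernel)
  simp only [ev_s0, ev_s1, ev_s2, ev_s3, ev_s4, ev_s5] at key
  convert key using 2 <;> ring

theorem u_012534 (a b c d e f : ℝ) (h0 : 0 ≤ a) (h1 : a ≤ b) (h2 : b ≤ c)
    (h3 : c ≤ f) (h4 : f ≤ d) (h5 : d ≤ e) :
    0 ≤ UU a b c d e f := by
  have hp := pt_nonneg h0 (sub_nonneg.2 h1) (sub_nonneg.2 h2) (sub_nonneg.2 h3)
    (sub_nonneg.2 h4) (sub_nonneg.2 h5)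
  have key := UU_nonneg_of _ hp s0 s1 s2 s4 s5 s3 (T.c 0) (T.c 0) le_rfl
    (by decide +kernel)
  simp only [ev_s0, ev_s1, ev_s2, ev_s3, ev_s4, ev_s5] at key
  convert key using 2 <;> ring

theorem u_012543 (a b c d e f : ℝ) (h0 : 0 ≤ a) (h1 : a ≤ b) (h2 : b ≤ c)
    (h3 : c ≤ f) (h4 : f ≤ e) (h5 : e ≤ d) :
    0 ≤ UU a b c d e f := by
  have hp := pt_nonneg h0 (sub_nonneg.2 h1) (sub_nonneg.2 h2) (sub_nonneg.2 h3)
    (sub_nonneg.2 h4) (sub_nonneg.2 h5)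
  have key := UU_nonneg_of _ hp s0 s1 s2 s5 s4 s3 (T.c 0) (T.c 0) le_rfl
    (by decide +kernel)
  simp only [ev_s0, ev_s1, ev_s2, ev_s3, ev_s4, ev_s5] at key
  convert key using 2 <;> ring

theorem u_013245 (a b c d e f : ℝ) (h0 : 0 ≤ a) (h1 : a ≤ b) (h2 : b ≤ d)
    (h3 : d ≤ c) (h4 : c ≤ e) (h5 : e ≤ f) :
    0 ≤ UU a b c d e f := by
  have hp := pt_nonneg h0 (sub_nonneg.2 h1) (sub_nonneg.2 h2) (sub_nonneg.2 h3)
    (sub_nonneg.2 h4) (sub_nonneg.2 h5)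
  have key := UU_nonneg_of _ hp s0 s1 s3 s2 s4 s5 (T.c 0) (T.c 0) le_rfl
    (by decide +kernel)
  simp only [ev_s0, ev_s1, ev_s2, ev_s3, ev_s4, ev_s5] at key
  convert key using 2 <;> ring

theorem u_013254 (a b c d e f : ℝ) (h0 : 0 ≤ a) (h1 : a ≤ b) (h2 : b ≤ d)
    (h3 : d ≤ c) (h4 : c ≤ f) (h5 : f ≤ e) :
    0 ≤ UU a b c d e f := by
  have hp := pt_nonneg h0 (sub_nonneg.2 h1) (sub_nonneg.2 h2) (sub_nonneg.2 h3)
    (sub_nonneg.2 h4) (sub_nonneg.2 h5)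
  have key := UU_nonneg_of _ hp s0 s1 s3 s2 s5 s4 (T.c 0) (T.c 0) le_rfl
    (by decide +kernel)
  simp only [ev_s0, ev_s1, ev_s2, ev_s3, ev_s4, ev_s5] at key
  convert key using 2 <;> ring

end Pool.Agent.Helper552_D4
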