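import Pool.Agent.Helper552_D4.Defs

/-!
# A small reflection for polynomials with natural coefficients
-/

set_option autoImplicit false

namespace Pool.Agent.Helper552_D4

/-- Polynomials with natural coefficients in nested Horner form: `c n` is the constant `n`, and
`h p q` at level `i` is `p + x_i q`, with `p` at level `i + 1` and `q` at level `i`. -/
inductive T
  | c (n : ℕ) : T
  | h (p q : T) : T

namespace T

/-- Value at a point. -/
noncomputable def ev (x : ℕ → ℝ) (t : T) : ℕ → ℝ :=
  T.rec (motive := fun _ => ℕ → ℝ) (fun n _ => (n : ℝ)) (fun _ _ p q i => p (i + 1) + x i * q i) t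

/-- Multiplication by a constant. -/
noncomputable def smul (m : ℕ) (t : T) : T :=
  T.rec (motive := fun _ => T) (fun n => c (Nat.mul m n)) (fun _ _ p' q' => h p' q') t

/-- Addition of a constant. -/
noncomputable def addc (m : ℕ) (t : T) : T :=
  T.rec (motive := fun _ => T) (fun n => c (Nat.add m n)) (fun _ q p' _ => h p' q) t

/-- Addition. -/
noncomputable def add (s : T) : T → T :=
  T.rec (motive := fun _ => T → T) (fun m t => addc m t)
    (fun p q ap aq t => T.rec (motive := fun _ => T) (fun n => h (addc n p) q)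
      (fun p' q' _ _ => h (ap p') (aq q')) t) s

/-- Application of a map to the coefficients. -/
noncomputable def mulLift (f : T → T) (t : T) : T :=
  T.rec (motive := fun _ => T) (fun n => h (f (c n)) (c 0)) (fun a _ _ rb => h (f a) rb) t

/-- Multiplication. -/
noncomputable def mul (s : T) : T → T :=
  T.rec (motive := fun _ => T → T) (fun m t => smul m t)
    (fun _ _ mp mq t => add (mulLift mp t) (h (c 0) (mq t))) s

/-- Test for zero. -/
noncomputable def zer (t : T) : Bool :=
  T.rec (motive := fun _ => Bool) (fun n => Nat.beq n 0)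
    (fun _ _ a b => Bool.rec (motive := fun _ => Bool) false b a) t

/-- Comparison of a constant with a polynomial. -/
noncomputable def cge (m : ℕ) (t : T) : Bool :=
  T.rec (motive := fun _ => Bool) (fun n => Nat.ble n m)
    (fun _ q a _ => Bool.rec (motive := fun _ => Bool) false (zer q) a) t

/-- Comparison of a polynomial with a constant. -/
noncomputable def gec (n : ℕ) (t : T) : Bool :=
  T.rec (motive := fun _ => Bool) (fun m => Nat.ble n m) (fun _ _ a _ => a) t

/-- Coefficientwise comparison. -/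
noncomputable def ge (s : T) : T → Bool :=
  T.rec (motive := fun _ => T → Bool) (fun m t => cge m t)
    (fun p _ gp gq t => T.rec (motive := fun _ => Bool) (fun n => gec n p)
      (fun p' q' _ _ => Bool.rec (motive := fun _ => Bool) false (gq q') (gp p')) t) s

variable (x : ℕ → ℝ)

theorem ev_c (n i : ℕ) : ev x (c n) i = n := rfl
theorem ev_h (p q : T) (i : ℕ) : ev x (h p q) i = ev x p (i + 1) + x i * ev x q i := rfl

theorem ev_smul (m : ℕ) (t : T) : ∀ i, ev x (smul m t) i = m * ev x t i := by
  induction t with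
  | c n => intro i; show ((Nat.mul m n : ℕ) : ℝ) = _; rw [ev_c]; push_cast [Nat.mul_eq]; rfl
  | h p q hp hq =>
    intro i
    show ev x (h (smul m p) (smul m q)) i = _
    rw [ev_h, ev_h, hp, hq]; ring

theorem ev_addc (m : ℕ) (t : T) : ∀ i, ev x (addc m t) i = m + ev x t i := by
  induction t with
  | c n => intro i; show ((Nat.add m n : ℕ) : ℝ) = _; rw [ev_c]; push_cast [Nat.add_eq]; rfl
  | h p q hp hq =>
    intro i
    show ev x (h (addc m p) q) i = _
    rw [ev_h, ev_h, hp]; ring

theorem ev_add (s : T) : ∀ t i, ev x (add s t) i = ev x s i + ev x t i := by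
  induction s with
  | c n => intro t i; show ev x (addc n t) i = _; rw [ev_addc, ev_c]
  | h p q hp hq =>
    intro t i
    cases t with
    | c n =>
      show ev x (h (addc n p) q) i = _
      rw [ev_h, ev_h, ev_addc, ev_c]; ring
    | h p' q' =>
      show ev x (h (add p p') (add q q')) i = _
      rw [ev_h, ev_h, ev_h, hp, hq]; ring

theorem ev_mulLift (f : T → T) (y : ℕ → ℝ) (hf : ∀ t i, ev x (f t) i = y i * ev x t i) (t : T) :
    ∀ i, ev x (mulLift f t) i = y (i + 1) * ev x t i := by
  induction t with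
  | c n =>
    intro i
    show ev x (h (f (c n)) (c 0)) i = _
    rw [ev_h, hf, ev_c, ev_c, ev_c]; simp
  | h p q hp hq =>
    intro i
    show ev x (h (f p) (mulLift f q)) i = _
    rw [ev_h, ev_h, hf, hq]; ring

theorem ev_mul (s : T) : ∀ t i, ev x (mul s t) i = ev x s i * ev x t i := by
  induction s with
  | c n => intro t i; show ev x (smul n t) i = _; rw [ev_smul, ev_c]
  | h p q hp hq =>
    intro t i
    show ev x (add (mulLift (mul p) t) (h (c 0) (mul q t))) i = _
    rw [ev_add, ev_mulLift x (mul p) (fun i => ev x p i) hp, ev_h, ev_h, hq, ev_c]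
    push_cast; ring

theorem ev_nonneg (hx : ∀ i, 0 ≤ x i) (t : T) : ∀ i, 0 ≤ ev x t i := by
  induction t with
  | c n => intro i; rw [ev_c]; positivity
  | h p q hp hq => intro i; rw [ev_h]; exact add_nonneg (hp _) (mul_nonneg (hx i) (hq i))

theorem ev_zer (t : T) : zer t = true → ∀ i, ev x t i = 0 := by
  induction t with
  | c n =>
    intro h i
    have h1 : Nat.beq n 0 = true := h
    rw [ev_c, Nat.eq_of_beq_eq_true h1]; simp
  | h p q hp hq =>
    intro h i
    have h1 : Bool.rec (motive := fun _ => Bool) false (zer q) (zer p) = true := h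
    have h2 : zer p = true ∧ zer q = true := by
      cases hh : zer p
      · rw [hh] at h1; exact absurd h1 (by simp)
      · rw [hh] at h1; exact ⟨rfl, h1⟩
    rw [ev_h, hp h2.1, hq h2.2]; simp

theorem cge_sound (m : ℕ) (t : T) : cge m t = true → ∀ i, ev x t i ≤ m := by
  induction t with
  | c n =>
    intro h i
    have h1 : Nat.ble n m = true := h
    rw [ev_c]; exact_mod_cast Nat.le_of_ble_eq_true h1
  | h p q hp hq =>
    intro h i
    have h1 : Bool.rec (motive := fun _ => Bool) false (zer q) (cge m p) = true := h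
    have h2 : cge m p = true ∧ zer q = true := by
      cases hh : cge m p
      · rw [hh] at h1; exact absurd h1 (by simp)
      · rw [hh] at h1; exact ⟨rfl, h1⟩
    rw [ev_h, ev_zer x q h2.2]; simpa using hp h2.1 (i + 1)

theorem gec_sound (hx : ∀ i, 0 ≤ x i) (n : ℕ) (t : T) :
    gec n t = true → ∀ i, (n : ℝ) ≤ ev x t i := by
  induction t with
  | c m =>
    intro h i
    have h1 : Nat.ble n m = true := h
    rw [ev_c]; exact_mod_cast Nat.le_of_ble_eq_true h1
  | h p q hp hq =>
    intro h i
    have h1 : gec n p = true := h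
    rw [ev_h]
    have h2 := hp h1 (i + 1)
    have h3 := mul_nonneg (hx i) (ev_nonneg x hx q i)
    linarith

theorem ge_sound (hx : ∀ i, 0 ≤ x i) (s : T) :
    ∀ t, ge s t = true → ∀ i, ev x t i ≤ ev x s i := by
  induction s with
  | c m => intro t h i; exact cge_sound x m t h i
  | h p q hp hq =>
    intro t h i
    cases t with
    | c n =>
      have h1 : gec n p = true := h
      rw [ev_h, ev_c]
      have h2 := gec_sound x hx n p h1 (i + 1)
      have h3 := mul_nonneg (hx i) (ev_nonneg x hx q i)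
      linarith
    | h p' q' =>
      have h1 : Bool.rec (motive := fun _ => Bool) false (ge q q') (ge p p') = true := h
      have h2 : ge p p' = true ∧ ge q q' = true := by
        cases hh : ge p p'
        · rw [hh] at h1; exact absurd h1 (by simp)
        · rw [hh] at h1; exact ⟨rfl, h1⟩
      rw [ev_h, ev_h]
      exact add_le_add (hp p' h2.1 _) (mul_le_mul_of_nonneg_left (hq q' h2.2 i) (hx i))

/-- The variable number `n`, at level `0`. -/
noncomputable def var (n : ℕ) : T :=
  Nat.rec (motive := fun _ => T) (h (c 0) (c 1)) (fun _ t => h t (c 0)) n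

theorem ev_var (n : ℕ) : ∀ i, ev x (var n) i = x (i + n) := by
  induction n with
  | zero => intro i; show ev x (h (c 0) (c 1)) i = _; rw [ev_h, ev_c, ev_c]; simp
  | succ n ih =>
    intro i
    show ev x (h (var n) (c 0)) i = _
    rw [ev_h, ih, ev_c]
    simp only [Nat.cast_zero, mul_zero, add_zero]
    congr 1; omega

/-- The determinant polynomial. -/
noncomputable def TDD (a b c d e f : T) : T :=
  add (mul (mul a b) (add c (add e f))) <| add (mul (mul a c) (add d f)) <|
  add (mul (mul a d) (add e f)) <| add (mul (mul a e) f) <|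
  add (mul (mul b c) (add d e)) <| add (mul (mul b d) (add e f)) <| add (mul (mul b e) f) <|
  add (mul (mul c d) (add e f)) (mul (mul c e) f)

/-- The derivative polynomial. -/
noncomputable def TDP (a b c d e f : T) : T :=
  add (smul 3 (add (mul (add a f) (add b e))
      (add (mul (add b e) (add c d)) (mul (add c d) (add a f)))))
    (smul 4 (add (mul a f) (add (mul b e) (mul c d))))

/-- The polynomial `RR`. -/
noncomputable def TRR (a b c d e f : T) : T :=
  add (smul 2 (add (mul (mul a f) (mul b e))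
      (add (mul (mul b e) (mul c d)) (mul (mul c d) (mul a f)))))
    (add (mul (mul a f) (mul (add b e) (add c d))) (add (mul (mul b e) (mul (add a f) (add c d)))
      (mul (mul c d) (mul (add a f) (add b e)))))

/-- The sum. -/
noncomputable def TW (a b c d e f : T) : T := add a (add b (add c (add d (add e f))))

/-- The positive part of the polynomial of U5. -/
noncomputable def TPP (a b c d e f : T) : T :=
  mul (TDP a b c d e f) (mul (TW a b c d e f) (add (smul 95 (mul (TW a b c d e f) (TDD a b c d e f)))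
    (smul 160 (TRR a b c d e f))))

/-- The negative part of the polynomial of U5. -/
noncomputable def TNN (a b c d e f : T) : T :=
  mul (TDD a b c d e f) (add (smul 1000 (mul (TDD a b c d e f) (TW a b c d e f)))
    (smul 52 (mul (TDP a b c d e f) (TDP a b c d e f))))

end T

open T

/-- The polynomial of the inequality U5. -/
def UU (a b c d e f : ℝ) : ℝ :=
  95 * (a + b + c + d + e + f) ^ 2 * DD a b c d e f * DP a b c d e f
      + 160 * RR a b c d e f * DP a b c d e f * (a + b + c + d + e + f)
      - 1000 * DD a b c d e f ^ 2 * (a + b + c + d + e + f)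
      - 52 * DP a b c d e f ^ 2 * DD a b c d e f

theorem ev_TDD (x : ℕ → ℝ) (a b c d e f : T) :
    ev x (TDD a b c d e f) 0 = DD (ev x a 0) (ev x b 0) (ev x c 0) (ev x d 0) (ev x e 0) (ev x f 0) := by
  simp only [TDD, DD, ev_add, ev_mul]; ring

theorem ev_TDP (x : ℕ → ℝ) (a b c d e f : T) :
    ev x (TDP a b c d e f) 0 = DP (ev x a 0) (ev x b 0) (ev x c 0) (ev x d 0) (ev x e 0) (ev x f 0) := by
  simp only [TDP, DP, ev_add, ev_mul, ev_smul]; push_cast; ring

theorem ev_TRR (x : ℕ → ℝ) (a b c d e f : T) :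
    ev x (TRR a b c d e f) 0 = RR (ev x a 0) (ev x b 0) (ev x c 0) (ev x d 0) (ev x e 0) (ev x f 0) := by
  simp only [TRR, RR, ev_add, ev_mul, ev_smul]; push_cast; ring

theorem ev_TW (x : ℕ → ℝ) (a b c d e f : T) :
    ev x (TW a b c d e f) 0 = ev x a 0 + ev x b 0 + ev x c 0 + ev x d 0 + ev x e 0 + ev x f 0 := by
  simp only [TW, ev_add]; ring

/-- The criterion: `E1 ≥ E2` are correction terms. -/
theorem UU_nonneg_of (x : ℕ → ℝ) (hx : ∀ i, 0 ≤ x i) (a b c d e f E1 E2 : T)
    (hE : ev x E2 0 ≤ ev x E1 0)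
    (h : ge (add (TPP a b c d e f) E2) (add (TNN a b c d e f) E1) = true) :
    0 ≤ UU (ev x a 0) (ev x b 0) (ev x c 0) (ev x d 0) (ev x e 0) (ev x f 0) := by
  have h1 := ge_sound x hx _ _ h 0
  rw [ev_add, ev_add] at h1
  have h2 : ev x (TPP a b c d e f) 0 - ev x (TNN a b c d e f) 0
      = UU (ev x a 0) (ev x b 0) (ev x c 0) (ev x d 0) (ev x e 0) (ev x f 0) := by
    simp only [TPP, TNN, ev_add, ev_mul, ev_smul, ev_TDD, ev_TDP, ev_TRR, ev_TW, UU]
    push_cast; ring
  rw [← h2]; linarith

/-- The point with coordinates `t0, ..., t5`. -/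
def pt (t0 t1 t2 t3 t4 t5 : ℝ) : ℕ → ℝ
  | 0 => t0
  | 1 => t1
  | 2 => t2
  | 3 => t3
  | 4 => t4
  | 5 => t5
  | _ => 0

theorem pt_nonneg {t0 t1 t2 t3 t4 t5 : ℝ} (h0 : 0 ≤ t0) (h1 : 0 ≤ t1) (h2 : 0 ≤ t2) (h3 : 0 ≤ t3)
    (h4 : 0 ≤ t4) (h5 : 0 ≤ t5) : ∀ i, 0 ≤ pt t0 t1 t2 t3 t4 t5 i
  | 0 => h0
  | 1 => h1
  | 2 => h2
  | 3 => h3
  | 4 => h4
  | 5 => h5
  | _ + 6 => le_refl _

/-- Partial sums of the variables. -/
noncomputable def s0 : T := var 0
/-- Partial sums of the variables. -/
noncomputable def s1 : T := add s0 (var 1)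
/-- Partial sums of the variables. -/
noncomputable def s2 : T := add s1 (var 2)
/-- Partial sums of the variables. -/
noncomputable def s3 : T := add s2 (var 3)
/-- Partial sums of the variables. -/
noncomputable def s4 : T := add s3 (var 4)
/-- Partial sums of the variables. -/
noncomputable def s5 : T := add s4 (var 5)

theorem ev_s0 (t0 t1 t2 t3 t4 t5 : ℝ) : ev (pt t0 t1 t2 t3 t4 t5) s0 0 = t0 := by
  rw [s0, ev_var]; rfl
theorem ev_s1 (t0 t1 t2 t3 t4 t5 : ℝ) : ev (pt t0 t1 t2 t3 t4 t5) s1 0 = t0 + t1 := by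
  rw [s1, ev_add, ev_s0, ev_var]; rfl
theorem ev_s2 (t0 t1 t2 t3 t4 t5 : ℝ) : ev (pt t0 t1 t2 t3 t4 t5) s2 0 = t0 + t1 + t2 := by
  rw [s2, ev_add, ev_s1, ev_var]; rfl
theorem ev_s3 (t0 t1 t2 t3 t4 t5 : ℝ) : ev (pt t0 t1 t2 t3 t4 t5) s3 0 = t0 + t1 + t2 + t3 := by
  rw [s3, ev_add, ev_s2, ev_var]; rfl
theorem ev_s4 (t0 t1 t2 t3 t4 t5 : ℝ) :
    ev (pt t0 t1 t2 t3 t4 t5) s4 0 = t0 + t1 + t2 + t3 + t4 := by
  rw [s4, ev_add, ev_s3, ev_var]; rfl
theorem ev_s5 (t0 t1 t2 t3 t4 t5 : ℝ) :
    ev (pt t0 t1 t2 t3 t4 t5) s5 0 = t0 + t1 + t2 + t3 + t4 + t5 := by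
  rw [s5, ev_add, ev_s4, ev_var]; rfl

end Pool.Agent.Helper552_D4
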