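import Mathlib

/-!
# Definitions for the statement
-/

set_option autoImplicit false

namespace Pool.Agent.Helper552_D4.Quant

open MeasureTheory

variable {d : ℕ}

/-- `L` is a lattice in `ℝ^d` of covolume (determinant) one. -/
def IsUnitLattice (L : Submodule ℤ (EuclideanSpace ℝ (Fin d))) : Prop :=
  ∃ (_ : DiscreteTopology L) (_ : IsZLattice ℝ L), ZLattice.covolume L = 1

/-- The second moment of the Dirichlet-Voronoi cell of `L`: the integral of `|x|^2` over the set
of all `x` with `|x| ≤ |x - v|` for all `v` in `L`. -/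
noncomputable def secondMoment (L : Submodule ℤ (EuclideanSpace ℝ (Fin d))) : ℝ :=
  ∫ x in {x : EuclideanSpace ℝ (Fin d) | ∀ v ∈ L, ‖x‖ ≤ ‖x - v‖}, ‖x‖ ^ 2

/-- `L` minimizes the second moment among the lattices of covolume one. -/
def IsMinimizer (L : Submodule ℤ (EuclideanSpace ℝ (Fin d))) : Prop :=
  IsUnitLattice L ∧ ∀ L' : Submodule ℤ (EuclideanSpace ℝ (Fin d)),
    IsUnitLattice L' → secondMoment L ≤ secondMoment L'

/-- `M` gives a densest lattice packing of balls: its covolume is one, and every lattice `M'` of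
covolume one has a nonzero vector which is at most as long as all nonzero vectors of `M`. -/
def IsDensest (M : Submodule ℤ (EuclideanSpace ℝ (Fin d))) : Prop :=
  IsUnitLattice M ∧ ∀ M' : Submodule ℤ (EuclideanSpace ℝ (Fin d)), IsUnitLattice M' →
    ∃ v ∈ M', v ≠ 0 ∧ ∀ w ∈ M, w ≠ 0 → ‖v‖ ≤ ‖w‖

/-- `L` is the polar (dual) lattice of `M`. -/
def IsPolar (L M : Submodule ℤ (EuclideanSpace ℝ (Fin d))) : Prop :=
  ∀ y : EuclideanSpace ℝ (Fin d), y ∈ L ↔ ∀ v ∈ M, ∃ n : ℤ, inner ℝ y v = (n : ℝ)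

/-- Some linear isometry of `ℝ^4` maps `L` onto `2^(-1/4) D₄`, where `D₄` is the lattice of
integer vectors with even coordinate sum. -/
def IsScaledD4 (L : Submodule ℤ (EuclideanSpace ℝ (Fin 4))) : Prop :=
  ∃ φ : EuclideanSpace ℝ (Fin 4) ≃ₗᵢ[ℝ] EuclideanSpace ℝ (Fin 4), ∀ y, y ∈ L ↔
    ∃ n : Fin 4 → ℤ, Even (n 0 + n 1 + n 2 + n 3) ∧
      ∀ i, Real.sqrt (Real.sqrt 2) * (φ y) i = n i

end Pool.Agent.Helper552_D4.Quant
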